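import Mathlib

set_option autoImplicit false

/-!
# Functions with bounded finite sums
-/

namespace Pool.Agent.Helper54.BP

/-- `g` is nonnegative and its finite sums are at most `C` -/
def BS {α : Type} (g : α → ℝ) (C : ℝ) : Prop := (∀ a, 0 ≤ g a) ∧ ∀ T : Finset α, ∑ a ∈ T, g a ≤ C

theorem BS.nonneg {α : Type} {g : α → ℝ} {C : ℝ} (h : BS g C) : 0 ≤ C := by
  have := h.2 ∅
  simpa using this

theorem BS.mono {α : Type} {g h : α → ℝ} {C : ℝ} (hg : BS g C) (h0 : ∀ a, 0 ≤ h a)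
    (hle : ∀ a, h a ≤ g a) : BS h C :=
  ⟨h0, fun T => (Finset.sum_le_sum fun a _ => hle a).trans (hg.2 T)⟩

theorem BS.of_fintype {α : Type} [Fintype α] : BS (fun _ : α => (1 : ℝ)) (Fintype.card α) := by
  refine ⟨fun _ => zero_le_one, fun T => ?_⟩
  rw [Finset.sum_const, nsmul_eq_mul, mul_one]
  exact_mod_cast Finset.card_le_univ T

theorem BS.single {α : Type} [DecidableEq α] (a0 : α) :
    BS (fun a : α => if a = a0 then (1 : ℝ) else 0) 1 := by
  refine ⟨fun _ => by positivity, fun T => ?_⟩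
  rw [Finset.sum_ite_eq']
  split_ifs <;> norm_num

theorem BS.pi {ι : Type} [Fintype ι] {α : Type} {g : ι → α → ℝ} {C : ι → ℝ}
    (h : ∀ i, BS (g i) (C i)) : BS (fun f : ι → α => ∏ i, g i (f i)) (∏ i, C i) := by
  classical
  refine ⟨fun f => Finset.prod_nonneg fun i _ => (h i).1 _, fun T => ?_⟩
  calc ∑ f ∈ T, ∏ i, g i (f i)
      ≤ ∑ f ∈ Fintype.piFinset fun i => T.image fun f => f i, ∏ i, g i (f i) := by
        refine Finset.sum_le_sum_of_subset_of_nonneg ?_
          (fun f _ _ => Finset.prod_nonneg fun i _ => (h i).1 _)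
        intro f hf
        rw [Fintype.mem_piFinset]
        exact fun i => Finset.mem_image_of_mem _ hf
    _ = ∏ i, ∑ a ∈ T.image fun f => f i, g i a := by rw [Finset.prod_univ_sum]
    _ ≤ ∏ i, C i := Finset.prod_le_prod (fun i _ => Finset.sum_nonneg fun a _ => (h i).1 _)
        (fun i _ => (h i).2 _)

theorem BS.prod {α β : Type} {g : α → ℝ} {h : β → ℝ} {C D : ℝ} (hg : BS g C) (hh : BS h D) :
    BS (fun p : α × β => g p.1 * h p.2) (C * D) := by
  classical
  refine ⟨fun p => mul_nonneg (hg.1 _) (hh.1 _), fun T => ?_⟩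
  calc ∑ p ∈ T, g p.1 * h p.2
      ≤ ∑ p ∈ (T.image Prod.fst) ×ˢ (T.image Prod.snd), g p.1 * h p.2 := by
        refine Finset.sum_le_sum_of_subset_of_nonneg ?_
          (fun p _ _ => mul_nonneg (hg.1 _) (hh.1 _))
        intro p hp
        exact Finset.mem_product.2 ⟨Finset.mem_image_of_mem _ hp, Finset.mem_image_of_mem _ hp⟩
    _ = (∑ a ∈ T.image Prod.fst, g a) * ∑ b ∈ T.image Prod.snd, h b := by
        rw [Finset.sum_mul_sum, Finset.sum_product]
    _ ≤ C * D := mul_le_mul (hg.2 _) (hh.2 _) (Finset.sum_nonneg fun _ _ => hh.1 _) hg.nonneg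

/-- the basic convergent sum -/
theorem BS.int {p : ℝ} (hp : 1 < p) :
    BS (fun z : ℤ => (max 1 |(z : ℝ)|) ^ (-p)) (1 + ∑' z : ℤ, |(z : ℝ)| ^ (-p)) := by
  classical
  have hs := Real.summable_abs_int_rpow hp
  refine ⟨fun z => Real.rpow_nonneg (le_trans zero_le_one (le_max_left _ _)) _, fun T => ?_⟩
  have h1 : ∀ z : ℤ, (max 1 |(z : ℝ)|) ^ (-p) ≤ (if z = 0 then 1 else 0) + |(z : ℝ)| ^ (-p) := by
    intro z
    by_cases hz : z = 0
    · subst hz
      simp only [Int.cast_zero, abs_zero, if_true]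
      rw [max_eq_left zero_le_one, Real.one_rpow]
      have : (0 : ℝ) ≤ 0 ^ (-p) := Real.rpow_nonneg le_rfl _
      linarith
    · rw [if_neg hz, zero_add, max_eq_right]
      exact_mod_cast Int.one_le_abs hz
  calc ∑ z ∈ T, (max 1 |(z : ℝ)|) ^ (-p)
      ≤ ∑ z ∈ T, ((if z = 0 then 1 else 0) + |(z : ℝ)| ^ (-p)) :=
        Finset.sum_le_sum fun z _ => h1 z
    _ = ∑ z ∈ T, (if z = 0 then 1 else 0) + ∑ z ∈ T, |(z : ℝ)| ^ (-p) := Finset.sum_add_distrib
    _ ≤ 1 + ∑' z : ℤ, |(z : ℝ)| ^ (-p) := by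
        refine add_le_add ?_ (hs.sum_le_tsum _ fun z _ => Real.rpow_nonneg (abs_nonneg _) _)
        rw [Finset.sum_ite_eq']
        split_ifs <;> norm_num

/-- **Covering.** -/
theorem ncard_cover {α ι : Type} {S : Set α} (hS : S.Finite) (A : ι → Set α) (w : ι → ℝ)
    {X C : ℝ} (hw : BS w C) (hX : 0 ≤ X)
    (h : ∀ F ∈ S, ∃ i, F ∈ A i ∧ (A i).Finite ∧ ((A i).ncard : ℝ) ≤ X * w i) :
    (S.ncard : ℝ) ≤ X * C := by
  classical
  have hne : ∀ F : α, ∃ i : Option ι, F ∈ S → ∃ i', i = some i' ∧ F ∈ A i' ∧ (A i').Finite ∧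
      ((A i').ncard : ℝ) ≤ X * w i' := by
    intro F
    by_cases hF : F ∈ S
    · obtain ⟨i, hi⟩ := h F hF
      exact ⟨some i, fun _ => ⟨i, rfl, hi⟩⟩
    · exact ⟨none, fun hF' => absurd hF' hF⟩
  choose φ hφ using hne
  set S' := hS.toFinset with hS'
  have hmem : ∀ F, F ∈ S' ↔ F ∈ S := fun F => by rw [hS', Set.Finite.mem_toFinset]
  have hcard : S.ncard = S'.card := Set.ncard_eq_toFinset_card S hS
  rw [hcard]
  set T : Finset ι := (S'.image φ).eraseNone with hT
  have hcov : S'.card = ∑ i ∈ T, (S'.filter fun F => φ F = some i).card := by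
    have h1 : S'.card = ∑ o ∈ T.map Function.Embedding.some, (S'.filter fun F => φ F = o).card := by
      refine Finset.card_eq_sum_card_fiberwise fun F hF => ?_
      obtain ⟨i, hi, -⟩ := hφ F ((hmem F).1 hF)
      rw [Finset.mem_coe, Finset.mem_map]
      refine ⟨i, ?_, hi.symm⟩
      rw [hT, Finset.mem_eraseNone, Finset.mem_image]
      exact ⟨F, hF, hi⟩
    rw [h1, Finset.sum_map]
    rfl
  rw [hcov]
  push_cast
  calc ∑ i ∈ T, ((S'.filter fun F => φ F = some i).card : ℝ) ≤ ∑ i ∈ T, X * w i := by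
        refine Finset.sum_le_sum fun i hi => ?_
        rw [hT, Finset.mem_eraseNone, Finset.mem_image] at hi
        obtain ⟨F, hF, hFi⟩ := hi
        obtain ⟨i', hi', -, hfin, hle⟩ := hφ F ((hmem F).1 hF)
        have hii : i' = i := by rw [hi'] at hFi; exact Option.some.inj hFi
        subst hii
        refine le_trans ?_ hle
        rw [← Set.ncard_coe_finset]
        have : (((S'.filter fun F => φ F = some i') : Finset α) : Set α).ncard ≤ (A i').ncard := by
          refine Set.ncard_le_ncard ?_ hfin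
          intro G hG
          rw [Finset.mem_coe, Finset.mem_filter] at hG
          obtain ⟨i'', hi'', hG', -⟩ := hφ G ((hmem G).1 hG.1)
          rw [hG.2] at hi''
          rw [Option.some.inj hi'']
          exact hG'
        exact_mod_cast this
    _ = X * ∑ i ∈ T, w i := by rw [Finset.mul_sum]
    _ ≤ X * C := mul_le_mul_of_nonneg_left (hw.2 T) hX

end Pool.Agent.Helper54.BP
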