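import Mathlib

set_option autoImplicit false

/-!
# Bases of monomials of low degree
-/

namespace Pool.Agent.Helper54.BP

section

variable {E K : Type} [Field E] [Field K] [Algebra E K] {s : ℕ}

/-- exponents supported on `Z` of degree at most `t` -/
def expo (Z : Set (Fin s)) (t : ℕ) : Set (Fin s → ℕ) := {a | (∀ k, k ∉ Z → a k = 0) ∧ ∑ k, a k ≤ t}

/-- the span of the monomials of degree at most `t` -/
def VV (E : Type) {K : Type} [Field E] [Field K] [Algebra E K] {s : ℕ} (ω : Fin s → K)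
    (Z : Set (Fin s)) (t : ℕ) : Submodule E K :=
  Submodule.span E ((fun a : Fin s → ℕ => ∏ k, ω k ^ a k) '' expo Z t)

theorem VV_mono (ω : Fin s → K) (Z : Set (Fin s)) {t t' : ℕ} (h : t ≤ t') :
    VV E ω Z t ≤ VV E ω Z t' :=
  Submodule.span_mono (Set.image_mono fun _ ha => ⟨ha.1, ha.2.trans h⟩)

theorem one_mem_VV (ω : Fin s → K) (Z : Set (Fin s)) (t : ℕ) : (1 : K) ∈ VV E ω Z t :=
  Submodule.subset_span ⟨0, ⟨fun _ _ => rfl, by simp⟩, by simp⟩

theorem mul_mem_VV (ω : Fin s → K) (Z : Set (Fin s)) (t : ℕ) {k : Fin s} (hk : k ∈ Z) {x : K}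
    (hx : x ∈ VV E ω Z t) : ω k * x ∈ VV E ω Z (t + 1) := by
  unfold VV at hx ⊢
  induction hx using Submodule.span_induction with
  | mem x hx =>
    obtain ⟨a, ha, rfl⟩ := hx
    refine Submodule.subset_span ⟨a + Pi.single k 1, ⟨fun l hl => ?_, ?_⟩, ?_⟩
    · have hlk : l ≠ k := fun h => hl (h ▸ hk)
      simp [ha.1 l hl, Pi.single_eq_of_ne hlk]
    · simp only [Pi.add_apply, Finset.sum_add_distrib, Finset.sum_pi_single', Finset.mem_univ,
        if_true]
      exact Nat.add_le_add_right ha.2 1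
    · simp only [Pi.add_apply, pow_add, Finset.prod_mul_distrib]
      rw [mul_comm]
      congr 1
      rw [Finset.prod_eq_single k]
      · simp
      · intro l _ hl; simp [Pi.single_eq_of_ne hl]
      · simp
  | zero => simp
  | add x y _ _ hx hy => rw [mul_add]; exact Submodule.add_mem _ hx hy
  | smul c x _ hx => rw [mul_smul_comm]; exact Submodule.smul_mem _ _ hx

theorem VV_top (ω : Fin s → K) (Z : Set (Fin s)) (hgen : Algebra.adjoin E (ω '' Z) = ⊤) (t : ℕ)
    (h : VV E ω Z (t + 1) ≤ VV E ω Z t) : VV E ω Z t = ⊤ := by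
  have h1 : ∀ z ∈ Algebra.adjoin E (ω '' Z), ∀ x ∈ VV E ω Z t, z * x ∈ VV E ω Z t := by
    intro z hz
    induction hz using Algebra.adjoin_induction with
    | mem z hz =>
      obtain ⟨k, hk, rfl⟩ := hz
      exact fun x hx => h (mul_mem_VV ω Z t hk hx)
    | algebraMap r =>
      intro x hx
      rw [← Algebra.smul_def]
      exact Submodule.smul_mem _ _ hx
    | add z w _ _ hz hw =>
      intro x hx
      rw [add_mul]
      exact Submodule.add_mem _ (hz x hx) (hw x hx)
    | mul z w _ _ hz hw =>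
      intro x hx
      rw [mul_assoc]
      exact hz _ (hw x hx)
  rw [eq_top_iff]
  intro z _
  have := h1 z (by rw [hgen]; trivial) 1 (one_mem_VV ω Z t)
  rwa [mul_one] at this

theorem VV_dim [FiniteDimensional E K] (ω : Fin s → K) (Z : Set (Fin s))
    (hgen : Algebra.adjoin E (ω '' Z) = ⊤) (t : ℕ) :
    VV E ω Z t = ⊤ ∨ t + 1 ≤ Module.finrank E (VV E ω Z t) := by
  induction t with
  | zero =>
    right
    have h1 : (⟨1, one_mem_VV ω Z 0⟩ : VV E ω Z 0) ≠ 0 := by
      intro h
      have := congrArg Subtype.val h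
      exact one_ne_zero this
    have : Nontrivial (VV E ω Z 0) := ⟨_, _, h1⟩
    exact Module.finrank_pos
  | succ t ih =>
    by_cases htop : VV E ω Z (t + 1) = ⊤
    · exact Or.inl htop
    right
    have hlt : VV E ω Z t < VV E ω Z (t + 1) := by
      refine lt_of_le_not_ge (VV_mono ω Z (Nat.le_succ t)) fun h => ?_
      have h1 := VV_top ω Z hgen t h
      exact htop (eq_top_iff.2 (h1 ▸ VV_mono ω Z (Nat.le_succ t)))
    have h2 := Submodule.finrank_lt_finrank_of_lt hlt
    rcases ih with ih | ih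
    · exact absurd (ih ▸ hlt) (not_top_lt)
    · omega

theorem exists_monomials [FiniteDimensional E K] (ω : Fin s → K) (Z : Set (Fin s))
    (hgen : Algebra.adjoin E (ω '' Z) = ⊤) :
    ∃ a : Fin (Module.finrank E K) → (Fin s → ℕ),
      (∀ t, (∀ k, k ∉ Z → a t k = 0) ∧ ∑ k, a t k ≤ Module.finrank E K - 1) ∧
      LinearIndependent E (fun t => ∏ k, ω k ^ a t k) := by
  set g := Module.finrank E K with hg
  have hg0 : 0 < g := Module.finrank_pos
  have htop : VV E ω Z (g - 1) = ⊤ := by
    rcases VV_dim ω Z hgen (g - 1) with h | h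
    · exact h
    · refine Submodule.eq_top_of_finrank_eq (le_antisymm (Submodule.finrank_le _) ?_)
      omega
  obtain ⟨κ, a, ha, hspan, hli⟩ := exists_linearIndependent' E
    (fun a : expo Z (g - 1) => ∏ k, ω k ^ (a : Fin s → ℕ) k)
  have hspan' : Submodule.span E (Set.range ((fun a : expo Z (g - 1) =>
      ∏ k, ω k ^ (a : Fin s → ℕ) k) ∘ a)) = ⊤ := by
    rw [hspan, ← htop, VV]
    congr 1
    ext z
    constructor
    · rintro ⟨b, rfl⟩; exact ⟨b, b.2, rfl⟩
    · rintro ⟨b, hb, rfl⟩; exact ⟨⟨b, hb⟩, rfl⟩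
  let B := Module.Basis.mk hli hspan'.ge
  have : Finite κ := Module.Finite.finite_basis B
  have := Fintype.ofFinite κ
  have hcard : Fintype.card κ = g := by
    rw [hg, Module.finrank_eq_card_basis B]
  let eq := (Fintype.equivFinOfCardEq hcard).symm
  refine ⟨fun t => (a (eq t) : Fin s → ℕ), fun t => (a (eq t)).2, ?_⟩
  exact hli.comp eq eq.injective

end

/-- the field generated by the ratios is generated over `ℚ(ω i)` by the other ratios -/
theorem adjoin_others {K : Type} [Field K] [NumberField K] {s : ℕ} (ω : Fin s → K)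
    (hgen : IntermediateField.adjoin ℚ (Set.range ω) = ⊤) (i j : Fin s) (hj : ω j = 1) :
    Algebra.adjoin (IntermediateField.adjoin ℚ {ω i}) (ω '' {k | k ≠ i ∧ k ≠ j}) = ⊤ := by
  set E := IntermediateField.adjoin ℚ {ω i} with hE
  rw [← IntermediateField.adjoin_toSubalgebra]
  have h1 : IntermediateField.adjoin E (ω '' {k | k ≠ i ∧ k ≠ j}) = ⊤ := by
    rw [eq_top_iff]
    intro z _
    have h2 : IntermediateField.adjoin ℚ (Set.range ω) ≤
        (IntermediateField.adjoin E (ω '' {k | k ≠ i ∧ k ≠ j})).restrictScalars ℚ := by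
      rw [IntermediateField.adjoin_le_iff]
      rintro _ ⟨k, rfl⟩
      change ω k ∈ IntermediateField.adjoin E (ω '' {k | k ≠ i ∧ k ≠ j})
      by_cases hki : k = i
      · subst hki
        exact (IntermediateField.adjoin E (ω '' {k' | k' ≠ k ∧ k' ≠ j})).algebraMap_mem
          (⟨ω k, IntermediateField.mem_adjoin_simple_self ℚ (ω k)⟩ : E)
      by_cases hkj : k = j
      · subst hkj
        rw [hj]; exact one_mem _
      · exact IntermediateField.subset_adjoin _ _ ⟨k, ⟨hki, hkj⟩, rfl⟩
    rw [hgen] at h2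
    exact h2 (by trivial : z ∈ (⊤ : IntermediateField ℚ K))
  rw [h1]
  rfl

end Pool.Agent.Helper54.BP
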