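import Mathlib

set_option autoImplicit false

/-!
# Boxes of integral polynomials and the number of their values at an algebraic number
-/

namespace Pool.Agent.Helper54.BP

open Polynomial

/-- the integral vectors with `|c k| ≤ b k` -/
noncomputable def box {m : ℕ} (b : Fin m → ℝ) : Finset (Fin m → ℤ) :=
  Fintype.piFinset fun k => Finset.Icc (-⌊b k⌋) ⌊b k⌋

theorem mem_box {m : ℕ} {b : Fin m → ℝ} {c : Fin m → ℤ} :
    c ∈ box b ↔ ∀ k, |(c k : ℝ)| ≤ b k := by
  rw [box, Fintype.mem_piFinset]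
  refine forall_congr' fun k => ?_
  rw [Finset.mem_Icc, abs_le, neg_le, Int.le_floor, Int.le_floor]
  push_cast
  constructor
  · rintro ⟨h1, h2⟩; exact ⟨by linarith, h2⟩
  · rintro ⟨h1, h2⟩; exact ⟨by linarith, h2⟩

theorem card_box {m : ℕ} {b : Fin m → ℝ} (hb : ∀ k, 0 ≤ b k) :
    ((box b).card : ℝ) = ∏ k, (2 * (⌊b k⌋ : ℝ) + 1) := by
  rw [box, Fintype.card_piFinset]
  push_cast
  refine Finset.prod_congr rfl fun k _ => ?_
  rw [Int.card_Icc]
  have h0 : 0 ≤ ⌊b k⌋ := Int.floor_nonneg.2 (hb k)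
  have h1 : ((⌊b k⌋ + 1 - -⌊b k⌋).toNat : ℤ) = 2 * ⌊b k⌋ + 1 := by
    rw [Int.toNat_of_nonneg (by omega)]; ring
  exact_mod_cast h1

theorem le_card_box {m : ℕ} {b : Fin m → ℝ} (hb : ∀ k, 0 ≤ b k) :
    ∏ k, b k ≤ ((box b).card : ℝ) := by
  rw [card_box hb]
  refine Finset.prod_le_prod (fun k _ => hb k) fun k _ => ?_
  have h0 : (0 : ℝ) ≤ ⌊b k⌋ := by exact_mod_cast Int.floor_nonneg.2 (hb k)
  have := Int.lt_floor_add_one (b k)
  linarith

theorem card_box_le {m : ℕ} {b : Fin m → ℝ} (hb : ∀ k, 0 ≤ b k) :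
    ((box b).card : ℝ) ≤ ∏ k, (2 * b k + 1) := by
  rw [card_box hb]
  refine Finset.prod_le_prod (fun k _ => ?_) fun k _ => ?_
  · have h0 : (0 : ℝ) ≤ ⌊b k⌋ := by exact_mod_cast Int.floor_nonneg.2 (hb k)
    positivity
  · have := Int.floor_le (b k)
    linarith

/-- the polynomial with given coefficients -/
noncomputable def pol {m : ℕ} (c : Fin m → ℤ) : ℤ[X] := ∑ k, C (c k) * X ^ (k : ℕ)

theorem coeff_pol {m : ℕ} (c : Fin m → ℤ) (j : ℕ) :
    (pol c).coeff j = if h : j < m then c ⟨j, h⟩ else 0 := by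
  rw [pol, finsetSum_coeff]
  simp only [coeff_C_mul, coeff_X_pow, mul_ite, mul_one, mul_zero]
  split_ifs with h
  · rw [Finset.sum_eq_single ⟨j, h⟩]
    · simp
    · intro k _ hk
      rw [if_neg]
      rintro rfl
      exact hk rfl
    · simp
  · refine Finset.sum_eq_zero fun k _ => ?_
    rw [if_neg]
    rintro rfl
    exact h k.2

theorem pol_injective {m : ℕ} : Function.Injective (pol (m := m)) := by
  intro c c' h
  funext k
  have := congrArg (fun p => p.coeff k) h
  simpa [coeff_pol] using this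

theorem natDegree_pol {m : ℕ} (c : Fin (m + 1) → ℤ) : (pol c).natDegree ≤ m := by
  rw [natDegree_le_iff_coeff_eq_zero]
  intro j hj
  rw [coeff_pol, dif_neg (by omega)]

theorem aeval_pol {m : ℕ} {K : Type*} [CommRing K] (c : Fin m → ℤ) (θ : K) :
    aeval θ (pol c) = ∑ k, (c k : K) * θ ^ (k : ℕ) := by
  rw [pol, map_sum]
  simp

/-- Gelfond's inequality -/
theorem gelfond (F R : ℂ[X]) (W : ℝ) (h : ∀ k, ‖(F * R).coeff k‖ ≤ W) (l k : ℕ) :
    ‖F.coeff l‖ * ‖R.coeff k‖ ≤
      2 ^ (F.natDegree + R.natDegree) * ((F.natDegree + R.natDegree : ℕ) + 1) * W := by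
  have hW : 0 ≤ W := (norm_nonneg _).trans (h 0)
  have h1 : ∀ (P : ℂ[X]) (j : ℕ), ‖P.coeff j‖ ≤ 2 ^ P.natDegree * P.mahlerMeasure := by
    intro P j
    refine (norm_coeff_le_choose_mul_mahlerMeasure j P).trans ?_
    refine mul_le_mul_of_nonneg_right ?_ P.mahlerMeasure_nonneg
    exact_mod_cast Nat.choose_le_two_pow _ _
  have h2 : (F * R).mahlerMeasure ≤ ((F.natDegree + R.natDegree : ℕ) + 1) * W := by
    refine (mahlerMeasure_le_sum_norm_coeff _).trans ?_
    rw [Polynomial.sum_over_range' _ (fun _ => norm_zero) (F.natDegree + R.natDegree + 1)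
      (Nat.lt_succ_of_le natDegree_mul_le)]
    refine (Finset.sum_le_sum fun j _ => h j).trans ?_
    rw [Finset.sum_const, Finset.card_range, nsmul_eq_mul]
    push_cast
    exact le_rfl
  calc ‖F.coeff l‖ * ‖R.coeff k‖
      ≤ (2 ^ F.natDegree * F.mahlerMeasure) * (2 ^ R.natDegree * R.mahlerMeasure) :=
        mul_le_mul (h1 F l) (h1 R k) (norm_nonneg _)
          (mul_nonneg (by positivity) F.mahlerMeasure_nonneg)
    _ = 2 ^ (F.natDegree + R.natDegree) * (F * R).mahlerMeasure := by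
        rw [mahlerMeasure_mul, pow_add]; ring
    _ ≤ 2 ^ (F.natDegree + R.natDegree) * (((F.natDegree + R.natDegree : ℕ) + 1) * W) :=
        mul_le_mul_of_nonneg_left h2 (by positivity)
    _ = _ := by ring

/-- the scaled polynomial `f(ρ X)` over `ℂ` -/
noncomputable def scl (ρ : ℝ) (f : ℤ[X]) : ℂ[X] := (f.map (Int.castRingHom ℂ)).comp (C (ρ : ℂ) * X)

theorem coeff_scl (ρ : ℝ) (f : ℤ[X]) (k : ℕ) : (scl ρ f).coeff k = (f.coeff k : ℂ) * (ρ : ℂ) ^ k := by
  rw [scl, comp_C_mul_X_coeff, coeff_map]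
  rfl

theorem norm_coeff_scl {ρ : ℝ} (hρ : 0 ≤ ρ) (f : ℤ[X]) (k : ℕ) :
    ‖(scl ρ f).coeff k‖ = |(f.coeff k : ℝ)| * ρ ^ k := by
  rw [coeff_scl, norm_mul, norm_pow, Complex.norm_real, Real.norm_of_nonneg hρ,
    Complex.norm_intCast]

theorem scl_mul (ρ : ℝ) (f g : ℤ[X]) : scl ρ (f * g) = scl ρ f * scl ρ g := by
  rw [scl, Polynomial.map_mul, mul_comp]; rfl

theorem natDegree_scl {ρ : ℝ} (f : ℤ[X]) : (scl ρ f).natDegree ≤ f.natDegree := by
  rw [natDegree_le_iff_coeff_eq_zero]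
  intro j hj
  rw [coeff_scl, coeff_eq_zero_of_natDegree_lt hj]; simp

/-- Gelfond's inequality for integral polynomials with weights -/
theorem gelfond_int {f r : ℤ[X]} {e M : ℕ} (hf : f.natDegree ≤ e) (hr : r.natDegree ≤ M)
    {ρ W : ℝ} (hρ : 0 < ρ) (h : ∀ k, |((f * r).coeff k : ℝ)| * ρ ^ k ≤ W) (l k : ℕ) :
    (|(f.coeff l : ℝ)| * ρ ^ l) * (|(r.coeff k : ℝ)| * ρ ^ k) ≤
      2 ^ (M + e) * ((M + e : ℕ) + 1) * W := by
  have hW : 0 ≤ W := le_trans (by positivity) (h 0)
  have h1 := gelfond (scl ρ f) (scl ρ r) W (by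
    intro j
    rw [← scl_mul, norm_coeff_scl hρ.le]
    exact h j) l k
  rw [norm_coeff_scl hρ.le, norm_coeff_scl hρ.le] at h1
  refine h1.trans ?_
  have h2 : (scl ρ f).natDegree + (scl ρ r).natDegree ≤ M + e := by
    have := natDegree_scl (ρ := ρ) f
    have := natDegree_scl (ρ := ρ) r
    omega
  have h3 : (2 : ℝ) ^ ((scl ρ f).natDegree + (scl ρ r).natDegree) ≤ 2 ^ (M + e) :=
    pow_le_pow_right₀ (by norm_num) h2
  have h4 : ((((scl ρ f).natDegree + (scl ρ r).natDegree : ℕ) : ℝ) + 1) ≤ ((M + e : ℕ) : ℝ) + 1 := by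
    have : (((scl ρ f).natDegree + (scl ρ r).natDegree : ℕ) : ℝ) ≤ ((M + e : ℕ) : ℝ) := by
      exact_mod_cast h2
    linarith
  gcongr

/-- divisibility by the primitive minimal polynomial -/
theorem dvd_of_root {K : Type*} [Field K] [CharZero K] {θ : K} {f E : ℤ[X]} (hf : f.IsPrimitive)
    (hirr : Irreducible (f.map (Int.castRingHom ℚ))) (hroot : aeval θ f = 0)
    (hE : aeval θ E = 0) : f ∣ E := by
  rw [IsPrimitive.Int.dvd_iff_map_cast_dvd_map_cast _ _ hf]
  by_contra hcon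
  obtain ⟨a, b, hab⟩ := (hirr.coprime_iff_not_dvd).2 hcon
  have h1 : ∀ g : ℤ[X], aeval θ (g.map (Int.castRingHom ℚ)) = aeval θ g := by
    intro g
    rw [aeval_def, eval₂_map, aeval_def]
    congr 1
    exact RingHom.ext_int _ _
  have h2 := congrArg (aeval θ) hab
  rw [map_add, map_mul, map_mul, h1, h1, hroot, hE] at h2
  simp at h2

/-- the constant of `card_values` -/
def Cval (e M : ℕ) (A : ℝ) : ℝ := 4 * (2 ^ (M + e) * ((M + e : ℕ) + 1)) + A

/-- the bounds of the coefficients -/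
def bnd (R P Q : ℝ) (D : ℕ) (k : Fin (D + 1)) : ℝ := R * P ^ (k : ℕ) * Q ^ (D - k)

theorem prod_bnd (R P Q : ℝ) (D : ℕ) :
    ∏ k, bnd R P Q D k = R ^ (D + 1) * (P * Q) ^ (D + 1).choose 2 := by
  unfold bnd
  rw [Finset.prod_mul_distrib, Finset.prod_mul_distrib, Finset.prod_const, Finset.card_univ,
    Fintype.card_fin, Finset.prod_pow_eq_pow_sum, Finset.prod_pow_eq_pow_sum]
  have h1 : ∑ k : Fin (D + 1), (k : ℕ) = (D + 1).choose 2 := by
    rw [Fin.sum_univ_eq_sum_range (fun k => k) (D + 1), Finset.sum_range_id, Nat.choose_two_right]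
  have h2 : ∑ k : Fin (D + 1), (D - (k : ℕ)) = (D + 1).choose 2 := by
    rw [Fin.sum_univ_eq_sum_range (fun k => D - k) (D + 1),
      ← Finset.sum_range_reflect (fun k => D - k) (D + 1)]
    rw [Nat.choose_two_right, ← Finset.sum_range_id]
    refine Finset.sum_congr rfl fun k hk => ?_
    have := Finset.mem_range.1 hk
    omega
  rw [h1, h2, mul_assoc, ← mul_pow]

theorem sum_shift (e M : ℕ) :
    ∑ k : Fin (M + 1), (e + (k : ℕ)) + e.choose 2 = (M + e + 1).choose 2 := by
  induction M with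
  | zero =>
    have h := Nat.choose_succ_succ' e 1
    rw [Nat.choose_one_right] at h
    norm_num at h ⊢
    omega
  | succ M ih =>
    rw [Fin.sum_univ_castSucc]
    simp only [Fin.val_castSucc, Fin.val_last]
    have h := Nat.choose_succ_succ' (M + e + 1) 1
    rw [Nat.choose_one_right] at h
    norm_num at h
    have e1 : M + 1 + e + 1 = M + e + 1 + 1 := by ring
    rw [e1, h]
    omega

theorem sum_refl (e M : ℕ) :
    ∑ k : Fin (M + 1), (M + e - (k : ℕ)) = ∑ k : Fin (M + 1), (e + (k : ℕ)) := by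
  rw [Fin.sum_univ_eq_sum_range (fun k => M + e - k) (M + 1),
    Fin.sum_univ_eq_sum_range (fun k => e + k) (M + 1),
    ← Finset.sum_range_reflect (fun k => M + e - k) (M + 1)]
  refine Finset.sum_congr rfl fun k hk => ?_
  have := Finset.mem_range.1 hk
  omega

/-- **The number of values** at `θ` of the polynomials in the box. -/
theorem card_values {K : Type} [Field K] [CharZero K] [DecidableEq K] {θ : K} {f : ℤ[X]}
    (hf : f.IsPrimitive)
    (hirr : Irreducible (f.map (Int.castRingHom ℚ))) (hroot : aeval θ f = 0) {e : ℕ}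
    (he : f.natDegree = e) {P Q Y R A : ℝ} (hP : 1 ≤ P) (hQ : 1 ≤ Q) (hR : 0 < R) (hY0 : 0 < Y)
    (hA : 0 ≤ A)
    (hY : ∃ l ≤ e, Y ≤ |(f.coeff l : ℝ)| * Q ^ l * P ^ (e - l)) (hYR : Y ≤ A * R) (M : ℕ) :
    R ^ e * Y ^ (M + 1) * (P * Q) ^ e.choose 2 ≤ Cval e M A ^ (M + 1) *
      ((box (bnd R P Q (M + e))).image fun c => aeval θ (pol c)).card := by
  have hP0 : 0 < P := by linarith
  have hQ0 : 0 < Q := by linarith
  set G : ℝ := 2 ^ (M + e) * ((M + e : ℕ) + 1) with hG
  have hG0 : 0 < G := by positivity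
  set ρ : Fin (M + 1) → ℝ := fun k =>
    2 * G * R * Q ^ (M + e - k) * P ^ (e + k) / Y with hρ
  have hρ0 : ∀ k, 0 ≤ ρ k := fun k => by simp only [hρ]; positivity
  have hf0 : f ≠ 0 := hf.ne_zero
  obtain ⟨l, hl, hlY⟩ := hY
  -- the fibres
  have hfib : ∀ v ∈ (box (bnd R P Q (M + e))).image (fun c => aeval θ (pol c)),
      ((box (bnd R P Q (M + e))).filter fun c => aeval θ (pol c) = v).card ≤ (box ρ).card := by
    intro v hv
    obtain ⟨c0, hc0, hc0v⟩ := Finset.mem_image.1 hv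
    have hdvd : ∀ c : Fin (M + e + 1) → ℤ, aeval θ (pol c) = v → f ∣ pol c - pol c0 := by
      intro c hc
      refine dvd_of_root hf hirr hroot ?_
      rw [map_sub, hc, hc0v, sub_self]
    classical
    let r : (Fin (M + e + 1) → ℤ) → ℤ[X] := fun c =>
      if h : aeval θ (pol c) = v then (hdvd c h).choose else 0
    have hr : ∀ c : Fin (M + e + 1) → ℤ, aeval θ (pol c) = v → pol c - pol c0 = f * r c := by
      intro c hc
      simp only [r, dif_pos hc]
      exact (hdvd c hc).choose_spec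
    have hrdeg : ∀ c : Fin (M + e + 1) → ℤ, aeval θ (pol c) = v → (r c).natDegree ≤ M := by
      intro c hc
      by_cases h0 : r c = 0
      · rw [h0]; simp
      have h1 := natDegree_mul hf0 h0
      rw [← hr c hc] at h1
      have h2 : (pol c - pol c0).natDegree ≤ M + e :=
        (natDegree_sub_le _ _).trans (max_le (natDegree_pol c) (natDegree_pol c0))
      omega
    refine Finset.card_le_card_of_injOn (fun c => fun k : Fin (M + 1) => (r c).coeff k) ?_ ?_
    · intro c hc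
      rw [Finset.mem_coe, Finset.mem_filter] at hc
      rw [Finset.mem_coe, mem_box]
      intro k
      have h1 : ∀ j, |((f * r c).coeff j : ℝ)| * (Q / P) ^ j ≤ 2 * R * Q ^ (M + e) := by
        intro j
        rw [← hr c hc.2, coeff_sub, coeff_pol, coeff_pol]
        by_cases hj : j < M + e + 1
        · rw [dif_pos hj, dif_pos hj]
          have h2 := mem_box.1 hc.1 ⟨j, hj⟩
          have h3 := mem_box.1 hc0 ⟨j, hj⟩
          have h4 : |((c ⟨j, hj⟩ - c0 ⟨j, hj⟩ : ℤ) : ℝ)| ≤ 2 * (R * P ^ j * Q ^ (M + e - j)) := by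
            push_cast
            refine (abs_sub _ _).trans ?_
            have := add_le_add h2 h3
            simp only [bnd] at this
            linarith
          calc |((c ⟨j, hj⟩ - c0 ⟨j, hj⟩ : ℤ) : ℝ)| * (Q / P) ^ j
              ≤ 2 * (R * P ^ j * Q ^ (M + e - j)) * (Q / P) ^ j :=
                mul_le_mul_of_nonneg_right h4 (by positivity)
            _ = 2 * R * (Q ^ (M + e - j) * Q ^ j) := by
                rw [div_pow]; field_simp
            _ = 2 * R * Q ^ (M + e) := by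
                rw [← pow_add]; congr 2; omega
        · rw [dif_neg hj, dif_neg hj]
          simp only [sub_zero, Int.cast_zero, abs_zero, zero_mul]
          positivity
      have h2 := gelfond_int he.le (hrdeg c hc.2) (div_pos hQ0 hP0) h1 l k
      have h3 : Y ≤ (|(f.coeff l : ℝ)| * (Q / P) ^ l) * P ^ e := by
        refine hlY.trans (le_of_eq ?_)
        have : P ^ e = P ^ l * P ^ (e - l) := by rw [← pow_add]; congr 1; omega
        rw [this, div_pow]
        field_simp
      have h4 : Y * (|((r c).coeff k : ℝ)| * (Q / P) ^ (k : ℕ)) ≤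
          G * (2 * R * Q ^ (M + e)) * P ^ e := by
        calc Y * (|((r c).coeff k : ℝ)| * (Q / P) ^ (k : ℕ))
            ≤ ((|(f.coeff l : ℝ)| * (Q / P) ^ l) * P ^ e) *
              (|((r c).coeff k : ℝ)| * (Q / P) ^ (k : ℕ)) :=
              mul_le_mul_of_nonneg_right h3 (by positivity)
          _ = ((|(f.coeff l : ℝ)| * (Q / P) ^ l) * (|((r c).coeff k : ℝ)| * (Q / P) ^ (k : ℕ))) *
              P ^ e := by ring
          _ ≤ G * (2 * R * Q ^ (M + e)) * P ^ e :=
              mul_le_mul_of_nonneg_right h2 (by positivity)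
      simp only [hρ]
      rw [le_div_iff₀ hY0]
      have h5 : 0 < (Q / P) ^ (k : ℕ) := by positivity
      refine le_of_mul_le_mul_right ?_ h5
      calc |((r c).coeff k : ℝ)| * Y * (Q / P) ^ (k : ℕ)
          = Y * (|((r c).coeff k : ℝ)| * (Q / P) ^ (k : ℕ)) := by ring
        _ ≤ G * (2 * R * Q ^ (M + e)) * P ^ e := h4
        _ = 2 * G * R * Q ^ (M + e - k) * P ^ (e + k) * (Q / P) ^ (k : ℕ) := by
            have hk : (k : ℕ) ≤ M + e := by have := k.2; omega
            have e1 : Q ^ (M + e) = Q ^ (M + e - k) * Q ^ (k : ℕ) := by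
              rw [← pow_add]; congr 1; omega
            rw [e1, pow_add, div_pow]
            field_simp
    · intro c hc c' hc' hcc
      rw [Finset.mem_coe, Finset.mem_filter] at hc hc'
      have h1 : r c = r c' := by
        ext j
        by_cases hj : j < M + 1
        · exact congrFun hcc ⟨j, hj⟩
        · rw [coeff_eq_zero_of_natDegree_lt (by have := hrdeg c hc.2; omega),
            coeff_eq_zero_of_natDegree_lt (by have := hrdeg c' hc'.2; omega)]
      have h2 := hr c hc.2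
      have h3 := hr c' hc'.2
      rw [h1, ← h3] at h2
      exact pol_injective (sub_left_injective h2)
  have hcard := Finset.card_le_mul_card_image (box (bnd R P Q (M + e)))
    (n := (box ρ).card) (f := fun c => aeval θ (pol c)) hfib
  set V := (box (bnd R P Q (M + e))).image fun c => aeval θ (pol c) with hV
  have hb0 : ∀ k, 0 ≤ bnd R P Q (M + e) k := fun k => by unfold bnd; positivity
  have h1 : ∏ k, bnd R P Q (M + e) k ≤ ((box ρ).card : ℝ) * V.card := by
    refine (le_card_box hb0).trans ?_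
    exact_mod_cast hcard
  have h2 : ((box ρ).card : ℝ) ≤
      ∏ k : Fin (M + 1), (Cval e M A * (R * (Q ^ (M + e - k) * P ^ (e + k)) / Y)) := by
    refine (card_box_le hρ0).trans ?_
    refine Finset.prod_le_prod (fun k _ => by have := hρ0 k; positivity) fun k _ => ?_
    simp only [hρ]
    have h3 : 1 ≤ A * (R * (Q ^ (M + e - k) * P ^ (e + (k : ℕ))) / Y) := by
      rw [← mul_div_assoc, le_div_iff₀ hY0, one_mul]
      refine hYR.trans ?_
      have h4 : 1 ≤ Q ^ (M + e - k) * P ^ (e + (k : ℕ)) :=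
        one_le_mul_of_one_le_of_one_le (one_le_pow₀ hQ) (one_le_pow₀ hP)
      have : 0 ≤ A * R := by positivity
      nlinarith
    calc 2 * (2 * G * R * Q ^ (M + e - k) * P ^ (e + (k : ℕ)) / Y) + 1
        = 4 * G * (R * (Q ^ (M + e - k) * P ^ (e + (k : ℕ))) / Y) + 1 := by ring
      _ ≤ 4 * G * (R * (Q ^ (M + e - k) * P ^ (e + (k : ℕ))) / Y) +
          A * (R * (Q ^ (M + e - k) * P ^ (e + (k : ℕ))) / Y) := by linarith
      _ = _ := by unfold Cval; ring
  have h3 : (∏ k : Fin (M + 1), (Cval e M A * (R * (Q ^ (M + e - k) * P ^ (e + (k : ℕ))) / Y))) *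
      (Y ^ (M + 1) * (P * Q) ^ e.choose 2) =
      Cval e M A ^ (M + 1) * (R ^ (M + 1) * (P * Q) ^ (M + e + 1).choose 2) := by
    rw [Finset.prod_mul_distrib, Finset.prod_div_distrib, Finset.prod_mul_distrib,
      Finset.prod_mul_distrib, Finset.prod_const, Finset.prod_const, Finset.prod_const,
      Finset.card_univ, Fintype.card_fin, Finset.prod_pow_eq_pow_sum, Finset.prod_pow_eq_pow_sum,
      sum_refl, ← sum_shift e M, pow_add (P * Q), mul_pow P Q (∑ k : Fin (M + 1), (e + (k : ℕ)))]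
    field_simp
  have hV0 : (0 : ℝ) ≤ V.card := Nat.cast_nonneg _
  have hYP : 0 < Y ^ (M + 1) * (P * Q) ^ e.choose 2 := by positivity
  have h4 : (R ^ (M + 1) * (P * Q) ^ (M + e + 1).choose 2) *
      (R ^ e * Y ^ (M + 1) * (P * Q) ^ e.choose 2) ≤
      (R ^ (M + 1) * (P * Q) ^ (M + e + 1).choose 2) * (Cval e M A ^ (M + 1) * V.card) := by
    calc (R ^ (M + 1) * (P * Q) ^ (M + e + 1).choose 2) *
          (R ^ e * Y ^ (M + 1) * (P * Q) ^ e.choose 2)
        = (∏ k, bnd R P Q (M + e) k) * (Y ^ (M + 1) * (P * Q) ^ e.choose 2) := by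
          rw [prod_bnd]; ring
      _ ≤ (((box ρ).card : ℝ) * V.card) * (Y ^ (M + 1) * (P * Q) ^ e.choose 2) :=
          mul_le_mul_of_nonneg_right h1 hYP.le
      _ ≤ ((∏ k : Fin (M + 1), (Cval e M A * (R * (Q ^ (M + e - k) * P ^ (e + (k : ℕ))) / Y))) *
            V.card) * (Y ^ (M + 1) * (P * Q) ^ e.choose 2) :=
          mul_le_mul_of_nonneg_right (mul_le_mul_of_nonneg_right h2 hV0) hYP.le
      _ = ((∏ k : Fin (M + 1), (Cval e M A * (R * (Q ^ (M + e - k) * P ^ (e + (k : ℕ))) / Y))) *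
            (Y ^ (M + 1) * (P * Q) ^ e.choose 2)) * V.card := by ring
      _ = _ := by rw [h3]; ring
  exact le_of_mul_le_mul_left h4 (by positivity)

end Pool.Agent.Helper54.BP
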