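import Pool.Agent.Helper54.BP.Lift
import Pool.Agent.Helper54.BP.Val
import Pool.Agent.Helper54.BP.Tow

set_option autoImplicit false

/-!
# The number of forms which vanish at a given algebraic point
-/

namespace Pool.Agent.Helper54.BP

open MvPolynomial

/-- the forms of degree `d` with coefficients of absolute value at most `B` -/
def Sm (N d : ℕ) (B : ℝ) : Set (MvPolynomial (Fin N) ℤ) := {F | Small d B F}

/-- the number of monomials of degree `d` in `N` variables -/
def Nm (N d : ℕ) : ℕ := (N + d - 1).choose d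

theorem ncard_le_of_maps {α β : Type*} {s : Set α} {S : Finset β} {φ : α → β}
    (hmaps : ∀ a ∈ s, φ a ∈ S) (hinj : Set.InjOn φ s) : s.Finite ∧ s.ncard ≤ S.card := by
  have h1 : Set.MapsTo φ s (S : Set β) := fun a ha => Finset.mem_coe.2 (hmaps a ha)
  refine ⟨Set.Finite.of_injOn h1 hinj S.finite_toSet, ?_⟩
  rw [← Set.ncard_coe_finset]
  exact Set.ncard_le_ncard_of_injOn φ (fun a ha => h1 ha) hinj S.finite_toSet

theorem Sm_aux (N d : ℕ) {B : ℝ} (hB : 0 ≤ B) :
    (Sm N d B).Finite ∧ ((Sm N d B).ncard : ℝ) ≤ (2 * B + 1) ^ Nm N d := by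
  classical
  set T : Finset (Fin N →₀ ℕ) := Finset.finsuppAntidiag (Finset.univ : Finset (Fin N)) d with hT
  have hcardT : T.card = Nm N d := by
    rw [hT, Finset.card_finsuppAntidiag_nat_eq_choose, Finset.card_univ, Fintype.card_fin, Nm]
  set φ : MvPolynomial (Fin N) ℤ → (T → ℤ) := fun F γ => coeff (γ : Fin N →₀ ℕ) F with hφ
  set S : Finset (T → ℤ) := Fintype.piFinset fun _ : T => Finset.Icc (-⌊B⌋) ⌊B⌋ with hS
  have hmaps : ∀ F ∈ Sm N d B, φ F ∈ S := by
    intro F hF
    rw [hS, Fintype.mem_piFinset]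
    intro γ
    have := hF.2 γ
    rw [Finset.mem_Icc, neg_le, Int.le_floor, Int.le_floor]
    rw [abs_le] at this
    simp only [hφ]
    push_cast
    constructor <;> linarith
  have hinj : Set.InjOn φ (Sm N d B) := by
    intro F hF G hG h
    ext γ
    by_cases hγ : γ ∈ T
    · exact congrFun h ⟨γ, hγ⟩
    · have hd : γ.degree ≠ d := by
        intro h2
        apply hγ
        rw [hT, Finset.mem_finsuppAntidiag]
        refine ⟨?_, Finset.subset_univ _⟩
        rw [← h2, Finsupp.degree_eq_sum]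
      rw [hF.1.coeff_eq_zero hd, hG.1.coeff_eq_zero hd]
  obtain ⟨h0, h1⟩ := ncard_le_of_maps hmaps hinj
  refine ⟨h0, ?_⟩
  have hbase : ((Finset.Icc (-⌊B⌋) ⌊B⌋).card : ℝ) ≤ 2 * B + 1 := by
    rw [Int.card_Icc]
    have h0 : 0 ≤ ⌊B⌋ := Int.floor_nonneg.2 hB
    have h3 : ((⌊B⌋ + 1 - -⌊B⌋).toNat : ℤ) = 2 * ⌊B⌋ + 1 := by
      rw [Int.toNat_of_nonneg (by omega)]; ring
    have h4 : (((⌊B⌋ + 1 - -⌊B⌋).toNat : ℤ) : ℝ) = 2 * ⌊B⌋ + 1 := by rw [h3]; push_cast; ring
    have h5 : (((⌊B⌋ + 1 - -⌊B⌋).toNat : ℕ) : ℝ) = 2 * ⌊B⌋ + 1 := by exact_mod_cast h4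
    rw [h5]
    have := Int.floor_le B
    linarith
  have h2 : (S.card : ℝ) ≤ (2 * B + 1) ^ Nm N d := by
    have h3 : S.card = (Finset.Icc (-⌊B⌋) ⌊B⌋).card ^ Nm N d := by
      rw [hS, Fintype.card_piFinset, Finset.prod_const, Finset.card_univ, Fintype.card_coe, hcardT]
    rw [h3, Nat.cast_pow]
    exact pow_le_pow_left₀ (Nat.cast_nonneg _) hbase (Nm N d)
  exact (by exact_mod_cast h1 : ((Sm N d B).ncard : ℝ) ≤ S.card).trans h2

/-- the determinant of the basis in the chosen columns -/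
def dt {N s : ℕ} (b : Fin s → Fin N → ℤ) (I : Fin s → Fin N) : ℤ :=
  |(Matrix.of fun k l => b k (I l)).det|

/-- reduced data for the point `x` -/
structure RD {K : Type} [CommRing K] {N s : ℕ} (x : Fin N → K) (α : Fin s → K)
    (b : Fin s → Fin N → ℤ) (I : Fin s → Fin N) : Prop where
  hx : ∀ i, x i = ∑ k, (b k i : K) * α k
  hu : ∃ u : Fin s → Fin N → ℤ, ∀ k l, ∑ i, u k i * b l i = if k = l then 1 else 0
  hI : (∏ k, (nn (b k) : ℤ)) ≤ 2 ^ (s * s) * dt b I

theorem RD.one_le {K : Type} [CommRing K] {N s : ℕ} {x : Fin N → K} {α : Fin s → K}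
    {b : Fin s → Fin N → ℤ} {I : Fin s → Fin N} (h : RD x α b I) (k : Fin s) :
    (1 : ℝ) ≤ nn (b k) := by
  obtain ⟨u, hu⟩ := h.hu
  have : b k ≠ 0 := by
    intro h0
    have := hu k k
    simp [h0] at this
  exact_mod_cast nn_pos this

/-- the weight `∏ B_k ^ a_k` -/
noncomputable def wt {N s : ℕ} (b : Fin s → Fin N → ℤ) (a : Fin s → ℕ) : ℝ :=
  ∏ k, (nn (b k) : ℝ) ^ a k

theorem RD.one_le_wt {K : Type} [CommRing K] {N s : ℕ} {x : Fin N → K} {α : Fin s → K}
    {b : Fin s → Fin N → ℤ} {I : Fin s → Fin N} (h : RD x α b I) (a : Fin s → ℕ) :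
    1 ≤ wt b a := by
  calc (1 : ℝ) = ∏ k : Fin s, 1 := by simp
    _ ≤ _ := Finset.prod_le_prod (fun _ _ => by norm_num) (fun l _ => one_le_pow₀ (h.one_le l))

theorem wt_add {N s : ℕ} (b : Fin s → Fin N → ℤ) (a a' : Fin s → ℕ) :
    wt b (a + a') = wt b a * wt b a' := by
  simp [wt, pow_add, Finset.prod_mul_distrib]

theorem wt_single {N s : ℕ} (b : Fin s → Fin N → ℤ) (k : Fin s) (n : ℕ) :
    wt b (Pi.single k n) = (nn (b k) : ℝ) ^ n := by
  rw [wt, Finset.prod_eq_single k]
  · simp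
  · intro l _ hl; simp [Pi.single_eq_of_ne hl]
  · simp

theorem prod_pow_single {K : Type} [CommRing K] {s : ℕ} (α : Fin s → K) (k : Fin s) (n : ℕ) :
    ∏ l, α l ^ (Pi.single k n : Fin s → ℕ) l = α k ^ n := by
  rw [Finset.prod_eq_single k]
  · simp
  · intro l _ hl; simp [Pi.single_eq_of_ne hl]
  · simp

/-- the constant in `count_point` -/
noncomputable def Ccnt (N s m d : ℕ) (A : ℝ) : ℝ :=
  ((4 * (2 ^ d * ((d : ℝ) + 1)) + A) ^ (d + 1)) ^ m *
    (2 * (1 + m * ((d + 1) * Clift N s A d)) + 1) ^ Nm N d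

theorem count_point {K : Type} [Field K] [NumberField K] {N s m d : ℕ}
    (hm : Module.finrank ℚ K = m) (hmd : m ≤ d)
    {x : Fin N → K} {α : Fin s → K} {b : Fin s → Fin N → ℤ} {I : Fin s → Fin N}
    (hRD : RD x α b I) (i j : Fin s) (hαj : α j ≠ 0)
    (hgen : IntermediateField.adjoin ℚ (Set.range fun k => α k / α j) = ⊤)
    {f : Polynomial ℤ} (hf : f.IsPrimitive) (hirr : Irreducible (f.map (Int.castRingHom ℚ)))
    (hroot : Polynomial.aeval (α i / α j) f = 0)
    {A H Y : ℝ} (hA : 0 ≤ A) (hH : 1 ≤ H) (hY0 : 0 < Y) (hYH : Y ≤ A * H)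
    (hD : (dt b I : ℝ) ≤ A * H)
    (hY : ∃ l ≤ f.natDegree, Y ≤ |(f.coeff l : ℝ)| * (nn (b j) : ℝ) ^ l *
      (nn (b i) : ℝ) ^ (f.natDegree - l)) :
    ∃ (g : ℕ) (a : Fin g → Fin s → ℕ), f.natDegree * g = m ∧
      (∀ t, a t i = 0 ∧ a t j = 0 ∧ ∑ k, a t k ≤ g - 1) ∧
      ((Sm N d H ∩ {F | aeval x F = 0}).ncard : ℝ) *
        ∏ t, ((H * wt b (a t)) ^ f.natDegree * Y ^ (d - ∑ k, a t k - f.natDegree + 1) *
          ((nn (b i) : ℝ) * nn (b j)) ^ f.natDegree.choose 2) ≤
        Ccnt N s m d A * H ^ Nm N d := by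
  classical
  set e := f.natDegree with he
  set θ : K := α i / α j with hθ
  set E := IntermediateField.adjoin ℚ {θ} with hE
  have hfin : Module.finrank ℚ E = e := by
    have hroot' : Polynomial.aeval θ (f.map (Int.castRingHom ℚ)) = 0 := by
      rw [← hroot, Polynomial.aeval_def, Polynomial.eval₂_map, Polynomial.aeval_def]
      congr 1
      exact RingHom.ext_int _ _
    have h1 := minpoly.eq_of_irreducible hirr hroot'
    rw [hE, IntermediateField.adjoin.finrank (Algebra.IsIntegral.isIntegral θ), ← h1,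
      Polynomial.natDegree_mul_C, Polynomial.natDegree_map_eq_of_injective
        (RingHom.injective_int (Int.castRingHom ℚ))]
    exact inv_ne_zero (Polynomial.leadingCoeff_ne_zero.2 hirr.ne_zero)
  set g := Module.finrank E K with hg
  have heg : e * g = m := by rw [← hfin, ← hm]; exact Module.finrank_mul_finrank ℚ E K
  obtain ⟨a, ha1, hli⟩ := exists_monomials (fun k => α k / α j) {k | k ≠ i ∧ k ≠ j}
    (adjoin_others (fun k => α k / α j) hgen i j (div_self hαj))
  refine ⟨g, a, heg, fun t => ⟨(ha1 t).1 i (by simp), (ha1 t).1 j (by simp), (ha1 t).2⟩, ?_⟩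
  have hg0 : 0 < g := Module.finrank_pos
  have he0 : 0 < e := by
    rw [← hfin]; exact Module.finrank_pos
  -- degrees
  have hdeg : ∀ t, ∑ k, a t k + e ≤ d := by
    intro t
    have h1 : ∑ k, a t k ≤ g - 1 := (ha1 t).2
    have h2 : e + (g - 1) ≤ e * g := by
      obtain ⟨g', hg'⟩ : ∃ g', g = g' + 1 := ⟨g - 1, by omega⟩
      obtain ⟨e', he'⟩ : ∃ e', e = e' + 1 := ⟨e - 1, by omega⟩
      rw [hg', he']
      simp only [Nat.add_sub_cancel]
      nlinarith
    omega
  set M : Fin g → ℕ := fun t => d - ∑ k, a t k - e with hM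
  have hMd : ∀ t, ∑ k, a t k + (M t + e) = d := fun t => by
    have := hdeg t
    simp only [hM]; omega
  set R : Fin g → ℝ := fun t => H * wt b (a t) with hR
  have hR1 : ∀ t, H ≤ R t := fun t => le_mul_of_one_le_right (by linarith) (hRD.one_le_wt _)
  have hR0 : ∀ t, 0 < R t := fun t => lt_of_lt_of_le (by linarith) (hR1 t)
  set P : ℝ := (nn (b i) : ℝ) with hP
  set Q : ℝ := (nn (b j) : ℝ) with hQ
  set V : Fin g → Finset K := fun t =>
    (box (bnd (R t) P Q (M t + e))).image fun c => Polynomial.aeval θ (pol c) with hV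
  -- representatives
  have hrep : ∀ t, ∀ v ∈ V t, ∃ c ∈ box (bnd (R t) P Q (M t + e)),
      Polynomial.aeval θ (pol c) = v := fun t v hv => by
    obtain ⟨c, hc, hcv⟩ := Finset.mem_image.1 hv
    exact ⟨c, hc, hcv⟩
  obtain ⟨u, hu⟩ := hRD.hu
  -- lifts of the values
  have hlift : ∀ t, ∀ v ∈ V t, ∃ F : MvPolynomial (Fin N) ℤ,
      Small d ((d + 1) * (Clift N s A d * H)) F ∧
      aeval x F = α j ^ d * ((∏ k, (α k / α j) ^ a t k) * v) := by
    intro t v hv
    obtain ⟨c, hc, hcv⟩ := hrep t v hv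
    rw [mem_box] at hc
    have h1 : ∀ k : Fin (M t + e + 1), ∃ F : MvPolynomial (Fin N) ℤ,
        Small d (Clift N s A d * H) F ∧
        aeval x F = (c k : K) * ∏ l, α l ^ (a t + Pi.single i (k : ℕ) +
          Pi.single j (M t + e - k) : Fin s → ℕ) l := by
      intro k
      refine lift x α b u hRD.hx hu I hRD.hI A hA d _ ?_ H (c k) (by linarith) hD ?_
      · simp only [Pi.add_apply, Finset.sum_add_distrib, Finset.sum_pi_single', Finset.mem_univ,
          if_true]
        have := hMd t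
        have := k.2
        omega
      · refine (hc k).trans (le_of_eq ?_)
        have : (∏ l, (nn (b l) : ℝ) ^ (a t + Pi.single i (k : ℕ) +
          Pi.single j (M t + e - k) : Fin s → ℕ) l) = wt b (a t) * P ^ (k : ℕ) *
            Q ^ (M t + e - k) := by
          change wt b _ = _
          rw [wt_add, wt_add, wt_single, wt_single]
        rw [this]
        simp only [bnd, hR]
        ring
    choose F hF1 hF2 using h1
    refine ⟨∑ k, F k, ?_, ?_⟩
    · have h2 := Small.sum Finset.univ F (fun k _ => hF1 k)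
      rw [Finset.card_univ, Fintype.card_fin] at h2
      refine h2.mono ?_
      refine mul_le_mul_of_nonneg_right ?_ (mul_nonneg (Clift_nonneg _ _ _ _) (by linarith))
      have := hMd t
      have h3 : M t + e + 1 ≤ d + 1 := by omega
      exact_mod_cast h3
    · rw [map_sum]
      simp only [hF2, Pi.add_apply, pow_add, Finset.prod_mul_distrib, prod_pow_single]
      rw [← hcv, aeval_pol]
      have h2 : α j ^ d * ((∏ k, (α k / α j) ^ a t k) * ∑ k, (c k : K) * θ ^ (k : ℕ)) =
          ∑ k : Fin (M t + e + 1), (c k : K) * ((∏ l, α l ^ a t l) * α i ^ (k : ℕ) *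
            α j ^ (M t + e - k)) := by
        have h3 : α j ^ d = α j ^ (∑ k, a t k) * α j ^ (M t + e) := by
          rw [← pow_add, hMd]
        have h4 : α j ^ (∑ k, a t k) * ∏ k, (α k / α j) ^ a t k = ∏ k, α k ^ a t k := by
          rw [← Finset.prod_pow_eq_pow_sum, ← Finset.prod_mul_distrib]
          refine Finset.prod_congr rfl fun k _ => ?_
          rw [← mul_pow, mul_div_cancel₀ _ hαj]
        calc α j ^ d * ((∏ k, (α k / α j) ^ a t k) * ∑ k, (c k : K) * θ ^ (k : ℕ))
            = (α j ^ (∑ k, a t k) * ∏ k, (α k / α j) ^ a t k) *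
                (α j ^ (M t + e) * ∑ k, (c k : K) * θ ^ (k : ℕ)) := by rw [h3]; ring
          _ = (∏ k, α k ^ a t k) * ∑ k, (c k : K) * (α j ^ (M t + e) * θ ^ (k : ℕ)) := by
              rw [h4, Finset.mul_sum Finset.univ _ (α j ^ (M t + e))]
              congr 1
              exact Finset.sum_congr rfl fun k _ => by ring
          _ = _ := by
              rw [Finset.mul_sum]
              refine Finset.sum_congr rfl fun k _ => ?_
              have h5 : α j ^ (M t + e) * θ ^ (k : ℕ) = α i ^ (k : ℕ) * α j ^ (M t + e - k) := by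
                have hk : (k : ℕ) ≤ M t + e := by have := k.2; omega
                have h6 : α j ^ (M t + e) = α j ^ (M t + e - k) * α j ^ (k : ℕ) := by
                  rw [← pow_add]; congr 1; omega
                rw [h6, hθ, div_pow]
                field_simp
              rw [h5]; ring
      rw [h2]
  choose! L hL1 hL2 using hlift
  -- the injection
  set 𝒜 := Sm N d H ∩ {F | aeval x F = 0} with h𝒜
  set C' : ℝ := g * ((d + 1) * (Clift N s A d * H)) with hC'
  have hC'0 : 0 ≤ C' := by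
    have := Clift_nonneg N s A d
    positivity
  have hfinA : 𝒜.Finite := (Sm_aux N d (by linarith : (0 : ℝ) ≤ H)).1.subset Set.inter_subset_left
  have hcount : 𝒜.ncard * ∏ t, (V t).card ≤ (Sm N d (H + C')).ncard := by
    rw [← Fintype.card_piFinset, ← Set.ncard_coe_finset, ← Set.ncard_prod]
    refine Set.ncard_le_ncard_of_injOn
      (fun p : MvPolynomial (Fin N) ℤ × (Fin g → K) => p.1 + ∑ t, L t (p.2 t)) ?_ ?_
      (Sm_aux N d (by positivity)).1
    · rintro ⟨F, v⟩ ⟨hF, hv⟩
      rw [Finset.mem_coe, Fintype.mem_piFinset] at hv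
      refine hF.1.add ?_
      have h2 := Small.sum Finset.univ (fun t => L t (v t)) (fun t _ => hL1 t (v t) (hv t))
      rwa [Finset.card_univ, Fintype.card_fin] at h2
    · rintro ⟨F, v⟩ ⟨hF, hv⟩ ⟨F', v'⟩ ⟨hF', hv'⟩ heq
      rw [Finset.mem_coe, Fintype.mem_piFinset] at hv hv'
      simp only at heq hv hv'
      have h1 := congrArg (aeval x) heq
      have hFx : aeval x F = 0 := hF.2
      have hFx' : aeval x F' = 0 := hF'.2
      rw [map_add, map_add, hFx, hFx', zero_add, zero_add, map_sum, map_sum] at h1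
      have hmem : ∀ t, ∀ w ∈ V t, w ∈ E := by
        intro t w hw
        obtain ⟨c, -, hcw⟩ := hrep t w hw
        rw [← hcw]
        have h2 : Polynomial.aeval θ (pol c) =
            ((Polynomial.aeval (⟨θ, IntermediateField.mem_adjoin_simple_self ℚ θ⟩ : E) (pol c) : E)
              : K) := by
          rw [aeval_pol, aeval_pol]
          push_cast
          rfl
        rw [h2]
        exact SetLike.coe_mem _
      have hvv : v = v' := by
        have h2 : ∑ t, (⟨v t - v' t, sub_mem (hmem t _ (hv t)) (hmem t _ (hv' t))⟩ : E) •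
            ∏ k, (α k / α j) ^ a t k = 0 := by
          have h3 : α j ^ d * ∑ t, (∏ k, (α k / α j) ^ a t k) * (v t - v' t) = 0 := by
            rw [Finset.mul_sum]
            have h4 : ∀ t, aeval x (L t (v t)) - aeval x (L t (v' t)) =
                α j ^ d * ((∏ k, (α k / α j) ^ a t k) * (v t - v' t)) := by
              intro t
              rw [hL2 t _ (hv t), hL2 t _ (hv' t)]; ring
            simp only [← h4]
            rw [Finset.sum_sub_distrib, h1, sub_self]
          have h4 := (mul_eq_zero.1 h3).resolve_left (pow_ne_zero _ hαj)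
          rw [← h4]
          refine Finset.sum_congr rfl fun t _ => ?_
          rw [Algebra.smul_def]
          rw [mul_comm]
          rfl
        have h3 := Fintype.linearIndependent_iff.1 hli _ h2
        funext t
        have h4 := congrArg Subtype.val (h3 t)
        exact sub_eq_zero.1 h4
      subst hvv
      have : F = F' := add_right_cancel heq
      rw [this]
  -- conclusion
  set c0 : ℝ := (4 * (2 ^ d * ((d : ℝ) + 1)) + A) ^ (d + 1) with hc0
  have hbase1 : 1 ≤ 4 * (2 ^ d * ((d : ℝ) + 1)) + A := by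
    have h1 : (1 : ℝ) ≤ 2 ^ d * ((d : ℝ) + 1) := by
      have h2 : (1 : ℝ) ≤ 2 ^ d := one_le_pow₀ (by norm_num)
      have h3 : (1 : ℝ) ≤ (d : ℝ) + 1 := by
        have : (0 : ℝ) ≤ d := Nat.cast_nonneg _
        linarith
      nlinarith
    linarith
  have hc01 : 1 ≤ c0 := one_le_pow₀ hbase1
  have hvals : ∀ t, R t ^ e * Y ^ (M t + 1) * (P * Q) ^ e.choose 2 ≤ c0 * (V t).card := by
    intro t
    have h1 := card_values hf hirr hroot he.symm (P := P) (Q := Q) (Y := Y) (R := R t) (A := A)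
      (hRD.one_le i) (hRD.one_le j) (hR0 t) hY0 hA hY
      (hYH.trans (mul_le_mul_of_nonneg_left (hR1 t) hA)) (M t)
    refine h1.trans (mul_le_mul_of_nonneg_right ?_ (Nat.cast_nonneg _))
    have h2 : M t + e ≤ d := by have := hMd t; omega
    have h3 : Cval e (M t) A ≤ 4 * (2 ^ d * ((d : ℝ) + 1)) + A := by
      unfold Cval
      have h4 : ((M t + e : ℕ) : ℝ) ≤ d := by exact_mod_cast h2
      have h5 : (2 : ℝ) ^ (M t + e) ≤ 2 ^ d := pow_le_pow_right₀ (by norm_num) h2
      gcongr
    have h4 : 0 ≤ Cval e (M t) A := by unfold Cval; positivity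
    calc Cval e (M t) A ^ (M t + 1) ≤ (4 * (2 ^ d * ((d : ℝ) + 1)) + A) ^ (M t + 1) :=
          pow_le_pow_left₀ h4 h3 _
      _ ≤ c0 := pow_le_pow_right₀ hbase1 (by omega)
  have hprod : ∏ t, (R t ^ e * Y ^ (M t + 1) * (P * Q) ^ e.choose 2) ≤
      c0 ^ m * ∏ t, ((V t).card : ℝ) := by
    calc ∏ t, (R t ^ e * Y ^ (M t + 1) * (P * Q) ^ e.choose 2)
        ≤ ∏ t, (c0 * ((V t).card : ℝ)) := by
          refine Finset.prod_le_prod (fun t _ => ?_) (fun t _ => hvals t)
          have := hR0 t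
          positivity
      _ = c0 ^ g * ∏ t, ((V t).card : ℝ) := by
          rw [Finset.prod_mul_distrib, Finset.prod_const, Finset.card_univ, Fintype.card_fin]
      _ ≤ _ := by
          refine mul_le_mul_of_nonneg_right ?_ (Finset.prod_nonneg fun _ _ => Nat.cast_nonneg _)
          refine pow_le_pow_right₀ hc01 ?_
          rw [← heg]; exact Nat.le_mul_of_pos_left g he0
  have hgm : g ≤ m := by rw [← heg]; exact Nat.le_mul_of_pos_left g he0
  have hSm := (Sm_aux N d (by positivity : (0 : ℝ) ≤ H + C')).2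
  calc (𝒜.ncard : ℝ) * ∏ t, (R t ^ e * Y ^ (M t + 1) * (P * Q) ^ e.choose 2)
      ≤ 𝒜.ncard * (c0 ^ m * ∏ t, ((V t).card : ℝ)) :=
        mul_le_mul_of_nonneg_left hprod (Nat.cast_nonneg _)
    _ = c0 ^ m * ((𝒜.ncard * ∏ t, (V t).card : ℕ) : ℝ) := by push_cast; ring
    _ ≤ c0 ^ m * ((Sm N d (H + C')).ncard : ℝ) := by
        refine mul_le_mul_of_nonneg_left ?_ (by positivity)
        exact_mod_cast hcount
    _ ≤ c0 ^ m * (2 * (H + C') + 1) ^ Nm N d :=
        mul_le_mul_of_nonneg_left hSm (by positivity)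
    _ ≤ c0 ^ m * ((2 * (1 + m * ((d + 1) * Clift N s A d)) + 1) * H) ^ Nm N d := by
        refine mul_le_mul_of_nonneg_left ?_ (by positivity)
        refine pow_le_pow_left₀ (by positivity) ?_ _
        have h1 : C' ≤ m * ((d + 1) * Clift N s A d) * H := by
          rw [hC']
          have h2 : (g : ℝ) ≤ m := by exact_mod_cast hgm
          have h3 := Clift_nonneg N s A d
          calc (g : ℝ) * ((d + 1) * (Clift N s A d * H))
              ≤ m * ((d + 1) * (Clift N s A d * H)) :=
                mul_le_mul_of_nonneg_right h2 (by positivity)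
            _ = _ := by ring
        nlinarith
    _ = Ccnt N s m d A * H ^ Nm N d := by
        rw [mul_pow, Ccnt]; ring

end Pool.Agent.Helper54.BP
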