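import Mathlib

set_option autoImplicit false

/-!
# Fixed divisors of integral polynomials, and products over embeddings
-/

namespace Pool.Agent.Helper54.BP

open Polynomial

/-- the product of the first factorials -/
def sf : ℕ → ℤ
  | 0 => 1
  | m + 1 => (m + 1).factorial * sf m

theorem sf_pos (m : ℕ) : 0 < sf m := by
  induction m with
  | zero => simp [sf]
  | succ m ih =>
    rw [sf]
    have : (0 : ℤ) < (m + 1).factorial := by exact_mod_cast Nat.factorial_pos _
    positivity

open Finset fwdDiff in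
theorem dvd_factorial_coeff (P : ℤ[X]) (m : ℕ) (hP : P.natDegree ≤ m) (D : ℤ)
    (h : ∀ t : ℤ, D ∣ P.eval t) : D ∣ m.factorial * P.coeff m := by
  rcases hP.lt_or_eq with hlt | heq
  · rw [coeff_eq_zero_of_natDegree_lt hlt, mul_zero]; exact dvd_zero _
  · have h1 := congrFun (Polynomial.fwdDiff_iter_degree_eq_factorial P) 0
    rw [fwdDiff_iter_eq_sum_shift] at h1
    have h2 : D ∣ ∑ k ∈ range (P.natDegree + 1),
        ((-1 : ℤ) ^ (P.natDegree - k) * P.natDegree.choose k) • P.eval (0 + k • (1 : ℤ)) := by
      refine Finset.dvd_sum fun k _ => ?_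
      rw [smul_eq_mul]
      exact (h _).mul_left _
    rw [h1] at h2
    subst heq
    have h3 : (P.leadingCoeff • (P.natDegree.factorial : ℤ → ℤ)) 0 =
        P.natDegree.factorial * P.coeff P.natDegree := by
      simp [mul_comm, Pi.smul_apply]
    rw [h3] at h2
    exact h2

theorem dvd_coeff_of_values : ∀ (m : ℕ) (P : ℤ[X]), P.natDegree ≤ m → ∀ D : ℤ,
    (∀ t : ℤ, D ∣ P.eval t) → ∀ r, D ∣ sf m * P.coeff r := by
  intro m
  induction m with
  | zero =>
    intro P hP D h r
    rcases Nat.eq_zero_or_pos r with rfl | hr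
    · have := h 0
      rw [sf, one_mul, coeff_zero_eq_eval_zero]
      exact this
    · rw [coeff_eq_zero_of_natDegree_lt (by omega), mul_zero]; exact dvd_zero _
  | succ m ih =>
    intro P hP D h r
    have h1 := dvd_factorial_coeff P (m + 1) hP D h
    set P2 : ℤ[X] := C ((m + 1).factorial : ℤ) * P -
      C (((m + 1).factorial : ℤ) * P.coeff (m + 1)) * X ^ (m + 1) with hP2
    have hdeg : P2.natDegree ≤ m := by
      rw [natDegree_le_iff_coeff_eq_zero]
      intro j hj
      rw [hP2, coeff_sub, coeff_C_mul, coeff_C_mul, coeff_X_pow]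
      rcases Nat.lt_or_ge (m + 1) j with hj2 | hj2
      · rw [coeff_eq_zero_of_natDegree_lt (by omega), if_neg (by omega)]; simp
      · have : j = m + 1 := by omega
        subst this
        simp
    have h2 := ih P2 hdeg D (by
      intro t
      rw [hP2, eval_sub, eval_mul, eval_mul, eval_C, eval_C, eval_pow, eval_X]
      exact dvd_sub ((h t).mul_left _) (h1.mul_right _)) r
    rw [hP2, coeff_sub, coeff_C_mul, coeff_C_mul, coeff_X_pow] at h2
    by_cases hr : r = m + 1
    · subst hr
      rw [sf, mul_assoc, mul_left_comm]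
      exact h1.mul_left _
    · rw [if_neg hr, mul_zero, sub_zero, ← mul_assoc, mul_comm (sf m)] at h2
      rw [sf]
      exact h2

/-- products over the embeddings of functions of the value at `θ` -/
theorem prod_embeddings_pow {K : Type} [Field K] [NumberField K] (θ : K) {M : Type} [CommMonoid M]
    (F : ℂ → M) :
    ∏ σ : K →ₐ[ℚ] ℂ, F (σ θ) =
      (∏ τ : IntermediateField.adjoin ℚ {θ} →ₐ[ℚ] ℂ,
        F (τ (IntermediateField.AdjoinSimple.gen ℚ θ))) ^
          Module.finrank (IntermediateField.adjoin ℚ {θ}) K := by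
  classical
  set L := IntermediateField.adjoin ℚ {θ} with hL
  rw [Fintype.prod_equiv algHomEquivSigma (fun σ : K →ₐ[ℚ] ℂ => _)
    fun σ => F (σ.1 (IntermediateField.AdjoinSimple.gen ℚ θ)),
    ← Finset.univ_sigma_univ, Finset.prod_sigma, ← Finset.prod_pow]
  · refine Finset.prod_congr rfl fun σ _ => ?_
    let : Algebra L ℂ := σ.toRingHom.toAlgebra
    simp_rw [Finset.prod_const]
    congr
    exact AlgHom.card L K ℂ
  · intro σ
    rfl

/-- the minimal polynomial as a product over the embeddings of `ℚ(θ)` -/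
theorem minpoly_eq_prod {K : Type} [Field K] [NumberField K] (θ : K) :
    (minpoly ℚ θ).map (algebraMap ℚ ℂ) =
      ∏ τ : IntermediateField.adjoin ℚ {θ} →ₐ[ℚ] ℂ,
        (X - C (τ (IntermediateField.AdjoinSimple.gen ℚ θ))) := by
  classical
  set L := IntermediateField.adjoin ℚ {θ} with hL
  have hint : IsIntegral ℚ θ := Algebra.IsIntegral.isIntegral θ
  have hinj : Function.Injective
      (fun τ : L →ₐ[ℚ] ℂ => τ (IntermediateField.AdjoinSimple.gen ℚ θ)) := by
    intro τ τ' h
    refine (IntermediateField.adjoin.powerBasis hint).algHom_ext ?_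
    rw [IntermediateField.adjoin.powerBasis_gen]
    exact h
  have hdvd : (∏ τ : L →ₐ[ℚ] ℂ, (X - C (τ (IntermediateField.AdjoinSimple.gen ℚ θ)))) ∣
      (minpoly ℚ θ).map (algebraMap ℚ ℂ) := by
    refine Finset.prod_dvd_of_coprime ?_ ?_
    · intro τ _ τ' _ hne
      exact Polynomial.pairwise_coprime_X_sub_C hinj hne
    · intro τ _
      rw [dvd_iff_isRoot, IsRoot.def, eval_map_algebraMap]
      have h1 : aeval (IntermediateField.AdjoinSimple.gen ℚ θ) (minpoly ℚ θ) = 0 := by
        have h2 := IntermediateField.minpoly_gen ℚ θ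
        rw [← h2]; exact minpoly.aeval _ _
      rw [aeval_algHom_apply, h1, map_zero]
  refine Polynomial.eq_of_monic_of_dvd_of_natDegree_le ?_ ?_ hdvd ?_
  · exact monic_prod_of_monic _ _ fun τ _ => monic_X_sub_C _
  · exact (minpoly.monic hint).map _
  · rw [natDegree_map, natDegree_prod_of_monic _ _ fun τ _ => monic_X_sub_C _]
    simp only [natDegree_X_sub_C, Finset.sum_const, smul_eq_mul, mul_one, Finset.card_univ]
    rw [AlgHom.card, ← IntermediateField.adjoin.finrank hint]

end Pool.Agent.Helper54.BP
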