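import Pool.Agent.Helper54.BP.Cnt
import Pool.Agent.Helper54.BP.Fix

set_option autoImplicit false

/-!
# The height of a point and its reduced data
-/

namespace Pool.Agent.Helper54.BP

open Polynomial NumberField

theorem prod_places {K : Type} [Field K] [NumberField K] (F : InfinitePlace K → ℝ) :
    ∏ σ : K →ₐ[ℚ] ℂ, F (InfinitePlace.mk σ.toRingHom) = ∏ v : InfinitePlace K, F v ^ v.mult := by
  classical
  rw [Fintype.prod_equiv (RingHom.equivRatAlgHom K ℂ).symm
    (fun σ : K →ₐ[ℚ] ℂ => F (InfinitePlace.mk σ.toRingHom)) (fun φ => F (InfinitePlace.mk φ))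
    (fun σ => rfl)]
  rw [← Finset.prod_fiberwise Finset.univ InfinitePlace.mk (fun φ => F (InfinitePlace.mk φ))]
  refine Finset.prod_congr rfl fun v _ => ?_
  rw [Finset.prod_congr rfl (g := fun _ => F v) (fun φ hφ => by
    rw [(Finset.mem_filter.1 hφ).2]), Finset.prod_const, InfinitePlace.card_filter_mk_eq]

theorem emb_prod {K : Type} [Field K] [NumberField K] {N : ℕ} (ξ : Fin N → 𝓞 K)
    (hξ : ξ ≠ 0) :
    ∏ σ : K →ₐ[ℚ] ℂ, (⨆ i, ‖σ (ξ i : K)‖) =
      Height.mulHeight (fun i => (ξ i : K)) * (Ideal.absNorm (Ideal.span (Set.range ξ)) : ℝ) := by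
  have hx : (fun i => (ξ i : K)) ≠ 0 := by
    intro h
    apply hξ
    funext i
    exact RingOfIntegers.coe_injective (congrFun h i)
  have h1 := prod_places (K := K) (fun v => ⨆ i, v (ξ i : K))
  have h2 : ∏ σ : K →ₐ[ℚ] ℂ, (⨆ i, ‖σ (ξ i : K)‖) =
      ∏ σ : K →ₐ[ℚ] ℂ, (⨆ i, (InfinitePlace.mk σ.toRingHom) (ξ i : K)) := by
    rfl
  rw [h2, h1, NumberField.mulHeight_eq hx]
  have h3 := NumberField.absNorm_mul_finprod_finitePlace_eq_one hξ
  rw [mul_assoc, mul_comm (∏ᶠ v : FinitePlace K, ⨆ i, v (ξ i : K)), h3, mul_one]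

/-- the constant in Cramer's rule -/
def CC (s : ℕ) : ℝ := s * s.factorial * 2 ^ (s * s)

theorem cramer {K : Type} [Field K] [NumberField K] {N s : ℕ} {x : Fin N → K} {α : Fin s → K}
    {b : Fin s → Fin N → ℤ} {I : Fin s → Fin N} (h : RD x α b I) (σ : K →ₐ[ℚ] ℂ) (k : Fin s) :
    ‖σ (α k)‖ * nn (b k) ≤ CC s * ⨆ i, ‖σ (x i)‖ := by
  classical
  set S := ⨆ i, ‖σ (x i)‖ with hS
  have hle : ∀ i, ‖σ (x i)‖ ≤ S := fun i =>
    le_ciSup (f := fun i => ‖σ (x i)‖) (Set.finite_range _).bddAbove i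
  set M : Matrix (Fin s) (Fin s) ℤ := Matrix.of fun k l => b k (I l) with hM
  have hb1 : ∀ k, (1 : ℤ) ≤ nn (b k) := fun k => by exact_mod_cast h.one_le k
  have hD0 : (0 : ℤ) < |M.det| := by
    have h1 : (1 : ℤ) ≤ ∏ k, (nn (b k) : ℤ) := by
      calc (1 : ℤ) = ∏ k : Fin s, 1 := by simp
        _ ≤ _ := Finset.prod_le_prod (fun _ _ => by norm_num) (fun k _ => hb1 k)
    have h2 := h.hI
    rw [dt] at h2
    by_contra hcon
    have h3 : |M.det| = 0 := le_antisymm (not_lt.1 hcon) (abs_nonneg _)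
    rw [h3, mul_zero] at h2
    omega
  -- Cramer's rule
  have h1 : (M.det : K) * α k = ∑ l, x (I l) * (M.adjugate l k : K) := by
    have h2 : ∀ k', ∑ l, (M k' l : K) * (M.adjugate l k : K) =
        if k' = k then (M.det : K) else 0 := by
      intro k'
      have h3 : (M * M.adjugate) k' k = (M.det • (1 : Matrix (Fin s) (Fin s) ℤ)) k' k := by
        rw [Matrix.mul_adjugate]
      rw [Matrix.mul_apply, Matrix.smul_apply, Matrix.one_apply] at h3
      have h4 := congrArg (Int.cast : ℤ → K) h3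
      push_cast at h4
      rw [h4]
      split_ifs <;> simp
    calc (M.det : K) * α k = ∑ k', α k' * (if k' = k then (M.det : K) else 0) := by
          simp [mul_comm]
      _ = ∑ k', ∑ l, α k' * ((M k' l : K) * (M.adjugate l k : K)) := by
          refine Finset.sum_congr rfl fun k' _ => ?_
          rw [← h2, Finset.mul_sum]
      _ = ∑ l, x (I l) * (M.adjugate l k : K) := by
          rw [Finset.sum_comm]
          refine Finset.sum_congr rfl fun l _ => ?_
          rw [h.hx, Finset.sum_mul]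
          refine Finset.sum_congr rfl fun k' _ => ?_
          simp only [hM, Matrix.of_apply]
          ring
  have h2 : ((|M.det| : ℤ) : ℝ) * ‖σ (α k)‖ ≤ ∑ l, S * ((|M.adjugate l k| : ℤ) : ℝ) := by
    have h3 : ‖σ ((M.det : K) * α k)‖ = ((|M.det| : ℤ) : ℝ) * ‖σ (α k)‖ := by
      rw [map_mul, map_intCast, norm_mul, Complex.norm_intCast, Int.cast_abs]
    rw [← h3, h1, map_sum]
    refine (norm_sum_le _ _).trans (Finset.sum_le_sum fun l _ => ?_)
    rw [map_mul, map_intCast, norm_mul, Complex.norm_intCast, Int.cast_abs]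
    exact mul_le_mul_of_nonneg_right (hle _) (abs_nonneg _)
  have hS0 : 0 ≤ S := Real.iSup_nonneg fun i => norm_nonneg _
  have hadj : ∀ l, ((|M.adjugate l k| : ℤ) : ℝ) * nn (b k) ≤
      s.factorial * (2 ^ (s * s) * ((|M.det| : ℤ) : ℝ)) := by
    intro l
    have h1 := abs_adj_le M (fun k => (nn (b k) : ℤ)) (fun k l => by
      simp only [hM, Matrix.of_apply]; exact abs_le_nn _ _) hb1 l k
    have h2 : |M.adjugate l k| * (nn (b k) : ℤ) ≤ s.factorial * (2 ^ (s * s) * |M.det|) :=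
      h1.trans (mul_le_mul_of_nonneg_left h.hI (by positivity))
    exact_mod_cast h2
  have hDr : (0 : ℝ) < ((|M.det| : ℤ) : ℝ) := by exact_mod_cast hD0
  refine le_of_mul_le_mul_left ?_ hDr
  calc ((|M.det| : ℤ) : ℝ) * (‖σ (α k)‖ * nn (b k))
      = (((|M.det| : ℤ) : ℝ) * ‖σ (α k)‖) * nn (b k) := by ring
    _ ≤ (∑ l, S * ((|M.adjugate l k| : ℤ) : ℝ)) * nn (b k) :=
        mul_le_mul_of_nonneg_right h2 (Nat.cast_nonneg _)
    _ = ∑ l, S * (((|M.adjugate l k| : ℤ) : ℝ) * nn (b k)) := by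
        rw [Finset.sum_mul]; exact Finset.sum_congr rfl fun l _ => by ring
    _ ≤ ∑ l : Fin s, S * (s.factorial * (2 ^ (s * s) * ((|M.det| : ℤ) : ℝ))) :=
        Finset.sum_le_sum fun l _ => mul_le_mul_of_nonneg_left (hadj l) hS0
    _ = ((|M.det| : ℤ) : ℝ) * (CC s * S) := by
        rw [Finset.sum_const, Finset.card_univ, Fintype.card_fin, nsmul_eq_mul, CC]; ring

/-- the elements of the basis are integral and in the ideal of the coordinates -/
theorem RD.exists_int {K : Type} [Field K] [NumberField K] {N s : ℕ} {ξ : Fin N → 𝓞 K}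
    {α : Fin s → K} {b : Fin s → Fin N → ℤ} {I : Fin s → Fin N}
    (h : RD (fun i => (ξ i : K)) α b I) (k : Fin s) :
    ∃ a : 𝓞 K, (a : K) = α k ∧ a ∈ Ideal.span (Set.range ξ) := by
  obtain ⟨u, hu⟩ := h.hu
  refine ⟨∑ i, (u k i : 𝓞 K) * ξ i, ?_, ?_⟩
  · have h1 : ((∑ i, (u k i : 𝓞 K) * ξ i : 𝓞 K) : K) = ∑ i, (u k i : K) * (ξ i : K) := by
      push_cast
      rfl
    rw [h1]
    calc ∑ i, (u k i : K) * (ξ i : K) = ∑ i, ∑ l, (u k i : K) * ((b l i : K) * α l) := by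
          refine Finset.sum_congr rfl fun i _ => ?_
          rw [h.hx, Finset.mul_sum]
      _ = ∑ l, ((∑ i, u k i * b l i : ℤ) : K) * α l := by
          rw [Finset.sum_comm]
          refine Finset.sum_congr rfl fun l _ => ?_
          push_cast
          rw [Finset.sum_mul]
          exact Finset.sum_congr rfl fun i _ => by ring
      _ = α k := by
          simp only [hu]
          simp
  · exact Ideal.sum_mem _ fun i _ => Ideal.mul_mem_left _ _ (Ideal.subset_span ⟨i, rfl⟩)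

/-- the norm of a nonzero element of the ideal -/
theorem absNorm_le {K : Type} [Field K] [NumberField K] {J : Ideal (𝓞 K)} {a : 𝓞 K}
    (ha : a ∈ J) (ha0 : a ≠ 0) :
    (Ideal.absNorm J : ℝ) ≤ ∏ σ : K →ₐ[ℚ] ℂ, ‖σ (a : K)‖ := by
  have h1 := Ideal.absNorm_dvd_norm_of_mem ha
  have h2 : Algebra.norm ℤ a ≠ 0 := Algebra.norm_ne_zero_iff.2 ha0
  have h3 : (Ideal.absNorm J : ℤ) ≤ |Algebra.norm ℤ a| :=
    Int.le_of_dvd (abs_pos.2 h2) ((dvd_abs _ _).2 h1)
  have h4 : ((|Algebra.norm ℤ a| : ℤ) : ℝ) = ∏ σ : K →ₐ[ℚ] ℂ, ‖σ (a : K)‖ := by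
    rw [← norm_prod, ← Algebra.norm_eq_prod_embeddings ℚ ℂ (a : K), ← Algebra.coe_norm_int a]
    simp
  rw [← h4]
  exact_mod_cast h3

theorem CC_nonneg (s : ℕ) : 0 ≤ CC s := by unfold CC; positivity

/-- first height bound, integral coordinates -/
theorem hgt1_int {K : Type} [Field K] [NumberField K] {N s : ℕ} {ξ : Fin N → 𝓞 K} (hξ : ξ ≠ 0)
    {α : Fin s → K} {b : Fin s → Fin N → ℤ} {I : Fin s → Fin N}
    (h : RD (fun i => (ξ i : K)) α b I) (k : Fin s) (hk : α k ≠ 0) :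
    (nn (b k) : ℝ) ^ Module.finrank ℚ K ≤
      CC s ^ Module.finrank ℚ K * Height.mulHeight (fun i => (ξ i : K)) := by
  obtain ⟨a, ha, haI⟩ := h.exists_int k
  have ha0 : a ≠ 0 := by
    rintro rfl
    apply hk
    rw [← ha]; simp
  have h1 := absNorm_le haI ha0
  rw [ha] at h1
  have hN0 : (0 : ℝ) < (Ideal.absNorm (Ideal.span (Set.range ξ)) : ℝ) := by
    have h2 : Ideal.absNorm (Ideal.span (Set.range ξ)) ≠ 0 := by
      rw [Ne, Ideal.absNorm_eq_zero_iff]
      rintro hbot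
      rw [hbot] at haI
      exact ha0 haI
    exact_mod_cast Nat.pos_of_ne_zero h2
  have hcard : Fintype.card (K →ₐ[ℚ] ℂ) = Module.finrank ℚ K := AlgHom.card ℚ K ℂ
  refine le_of_mul_le_mul_right ?_ hN0
  calc (nn (b k) : ℝ) ^ Module.finrank ℚ K * (Ideal.absNorm (Ideal.span (Set.range ξ)) : ℝ)
      ≤ (nn (b k) : ℝ) ^ Module.finrank ℚ K * ∏ σ : K →ₐ[ℚ] ℂ, ‖σ (α k)‖ :=
        mul_le_mul_of_nonneg_left h1 (by positivity)
    _ = ∏ σ : K →ₐ[ℚ] ℂ, (‖σ (α k)‖ * nn (b k)) := by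
        rw [Finset.prod_mul_distrib, Finset.prod_const, Finset.card_univ, hcard, mul_comm]
    _ ≤ ∏ σ : K →ₐ[ℚ] ℂ, (CC s * ⨆ i, ‖σ (ξ i : K)‖) :=
        Finset.prod_le_prod (fun σ _ => by positivity) (fun σ _ => cramer h σ k)
    _ = CC s ^ Module.finrank ℚ K * (Height.mulHeight (fun i => (ξ i : K)) *
          (Ideal.absNorm (Ideal.span (Set.range ξ)) : ℝ)) := by
        rw [Finset.prod_mul_distrib, Finset.prod_const, Finset.card_univ, hcard, emb_prod ξ hξ]
    _ = _ := by ring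

/-- the Mahler measure of a product of linear polynomials -/
theorem mahler_prod {ι : Type} [Fintype ι] (p q : ι → ℂ) (hp : ∀ i, p i ≠ 0) :
    (∏ i, (C (p i) * X - C (q i))).mahlerMeasure = ∏ i, max ‖p i‖ ‖q i‖ := by
  classical
  have h1 : ∀ S : Finset ι, (∏ i ∈ S, (C (p i) * X - C (q i))).mahlerMeasure =
      ∏ i ∈ S, max ‖p i‖ ‖q i‖ := by
    intro S
    induction S using Finset.induction_on with
    | empty => simp
    | insert i S hi ih =>
      rw [Finset.prod_insert hi, Finset.prod_insert hi, mahlerMeasure_mul, ih]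
      congr 1
      rw [sub_eq_add_neg, ← C_neg, mahlerMeasure_C_mul_X_add_C (hp i), norm_neg]
  exact h1 Finset.univ

theorem natDegree_eq_finrank {K : Type} [Field K] [NumberField K] {θ : K} {f : ℤ[X]}
    (hirr : Irreducible (f.map (Int.castRingHom ℚ))) (hroot : aeval θ f = 0) :
    Module.finrank ℚ (IntermediateField.adjoin ℚ {θ}) = f.natDegree ∧
      f.map (Int.castRingHom ℚ) = C (f.leadingCoeff : ℚ) * minpoly ℚ θ := by
  have hroot' : aeval θ (f.map (Int.castRingHom ℚ)) = 0 := by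
    rw [← hroot, aeval_def, eval₂_map, aeval_def]
    congr 1
    exact RingHom.ext_int _ _
  have h1 := minpoly.eq_of_irreducible hirr hroot'
  have h0 : (f.map (Int.castRingHom ℚ)).leadingCoeff ≠ 0 := leadingCoeff_ne_zero.2 hirr.ne_zero
  have hlead : (f.map (Int.castRingHom ℚ)).leadingCoeff = (f.leadingCoeff : ℚ) := by
    rw [leadingCoeff_map_of_injective (RingHom.injective_int (Int.castRingHom ℚ))]
    rfl
  constructor
  · rw [IntermediateField.adjoin.finrank (Algebra.IsIntegral.isIntegral θ), ← h1,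
      natDegree_mul_C (inv_ne_zero h0),
      natDegree_map_eq_of_injective (RingHom.injective_int (Int.castRingHom ℚ))]
  · rw [← h1, hlead, mul_comm, mul_assoc, ← C_mul, inv_mul_cancel₀ (by rw [← hlead]; exact h0),
      C_1, mul_one]

theorem hgt2_int {K : Type} [Field K] [NumberField K] {N s : ℕ} {ξ : Fin N → 𝓞 K} (hξ : ξ ≠ 0)
    {α : Fin s → K} {b : Fin s → Fin N → ℤ} {I : Fin s → Fin N}
    (h : RD (fun i => (ξ i : K)) α b I) (k l : Fin s) (hl : α l ≠ 0)
    {f : ℤ[X]} (hf : f.IsPrimitive) (hirr : Irreducible (f.map (Int.castRingHom ℚ)))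
    (hroot : aeval (α k / α l) f = 0) {g : ℕ} (hg : f.natDegree * g = Module.finrank ℚ K)
    (r : ℕ) (hr : r ≤ f.natDegree) :
    (|(f.coeff r : ℝ)| * (nn (b l) : ℝ) ^ r * (nn (b k) : ℝ) ^ (f.natDegree - r)) ^ g ≤
      2 ^ Module.finrank ℚ K * sf (Module.finrank ℚ K) * CC s ^ Module.finrank ℚ K *
        Height.mulHeight (fun i => (ξ i : K)) := by
  classical
  obtain ⟨p, hp, hpJ⟩ := h.exists_int l
  obtain ⟨q, hq, hqJ⟩ := h.exists_int k
  set J := Ideal.span (Set.range ξ) with hJ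
  set m := Module.finrank ℚ K with hm
  set θ : K := α k / α l with hθ
  have hp0 : (p : K) ≠ 0 := by rw [hp]; exact hl
  have hσp : ∀ σ : K →ₐ[ℚ] ℂ, σ (p : K) ≠ 0 := fun σ => by
    rw [Ne, map_eq_zero]; exact hp0
  obtain ⟨hfin, hmin⟩ := natDegree_eq_finrank hirr hroot
  have hm0 : 0 < m := Module.finrank_pos
  have he0 : 0 < f.natDegree := by
    rcases Nat.eq_zero_or_pos f.natDegree with h0 | h0
    · rw [h0, zero_mul] at hg; omega
    · exact h0
  have hgE : g = Module.finrank (IntermediateField.adjoin ℚ {θ}) K := by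
    have h1 := Module.finrank_mul_finrank ℚ (IntermediateField.adjoin ℚ {θ}) K
    rw [hfin, ← hm, ← hg] at h1
    exact (Nat.eq_of_mul_eq_mul_left he0 h1).symm
  set a : ℤ := f.leadingCoeff with ha
  have ha0 : a ≠ 0 := leadingCoeff_ne_zero.2 hf.ne_zero
  set Np : ℤ := Algebra.norm ℤ p with hNp
  have hNp0 : Np ≠ 0 := Algebra.norm_ne_zero_iff.2 (by
    rintro rfl; simp at hp0)
  have hnorm : ∀ z : 𝓞 K, ∏ σ : K →ₐ[ℚ] ℂ, σ (z : K) = ((Algebra.norm ℤ z : ℤ) : ℂ) := by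
    intro z
    rw [← Algebra.norm_eq_prod_embeddings ℚ ℂ (z : K), ← Algebra.coe_norm_int z]
    simp
  set Pp : ℂ[X] := ∏ σ : K →ₐ[ℚ] ℂ, (C (σ (p : K)) * X - C (σ (q : K))) with hPp
  -- (a)
  have hid : C ((a : ℂ) ^ g) * Pp = C (Np : ℂ) * (f.map (Int.castRingHom ℂ)) ^ g := by
    have h1 : f.map (Int.castRingHom ℂ) = C (a : ℂ) * (minpoly ℚ θ).map (algebraMap ℚ ℂ) := by
      have h2 := congrArg (Polynomial.map (algebraMap ℚ ℂ)) hmin
      rw [Polynomial.map_mul, map_C, Polynomial.map_map] at h2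
      have e1 : (algebraMap ℚ ℂ).comp (Int.castRingHom ℚ) = Int.castRingHom ℂ :=
        RingHom.ext_int _ _
      rw [e1] at h2
      rw [h2]
      simp
    have h2 := prod_embeddings_pow θ (fun z => (X - C z : ℂ[X]))
    rw [← minpoly_eq_prod, ← hgE] at h2
    have h3 : Pp = C (Np : ℂ) * ∏ σ : K →ₐ[ℚ] ℂ, (X - C (σ θ)) := by
      rw [← hnorm p, map_prod, ← Finset.prod_mul_distrib]
      refine Finset.prod_congr rfl fun σ _ => ?_
      rw [mul_sub, ← C_mul, ← map_mul]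
      congr 3
      rw [hθ, hp, hq, mul_div_cancel₀ _ hl]
    rw [h3, h2, h1, mul_pow, ← C_pow]
    ring
  -- (b)
  have heval : ∀ t : ℤ, a ^ g * Algebra.norm ℤ ((t : 𝓞 K) * p - q) =
      Np * (f.eval t) ^ g := by
    intro t
    have h1 := congrArg (eval (t : ℂ)) hid
    rw [eval_mul, eval_mul, eval_pow, eval_C, eval_C] at h1
    have h2 : eval (t : ℂ) Pp = ((Algebra.norm ℤ ((t : 𝓞 K) * p - q) : ℤ) : ℂ) := by
      rw [← hnorm, hPp, eval_prod]
      refine Finset.prod_congr rfl fun σ _ => ?_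
      have e1 : (((t : 𝓞 K) * p - q : 𝓞 K) : K) = (t : K) * (p : K) - (q : K) := by
        change algebraMap (𝓞 K) K _ = _
        rw [map_sub, map_mul, map_intCast]
      rw [e1, map_sub, map_mul, map_intCast]
      simp only [eval_sub, eval_mul, eval_C, eval_X]
      ring
    have h3 : eval (t : ℂ) (f.map (Int.castRingHom ℂ)) = ((f.eval t : ℤ) : ℂ) := by
      rw [eval_intCast_map]; simp
    rw [h2, h3] at h1
    exact_mod_cast h1
  -- (c)
  have hdiv : a ^ g * (Ideal.absNorm J : ℤ) ∣ sf m * Np := by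
    have h1 : ∀ t : ℤ, a ^ g * (Ideal.absNorm J : ℤ) ∣ (C Np * f ^ g).eval t := by
      intro t
      rw [eval_mul, eval_C, eval_pow, ← heval]
      refine mul_dvd_mul_left _ (Ideal.absNorm_dvd_norm_of_mem ?_)
      exact Ideal.sub_mem _ (Ideal.mul_mem_left _ _ hpJ) hqJ
    have h2 := dvd_coeff_of_values m (C Np * f ^ g) (by
      refine (natDegree_C_mul_le _ _).trans ?_
      rw [natDegree_pow, mul_comm, hg]) _ h1
    have h3 : C (a ^ g * (Ideal.absNorm J : ℤ)) ∣ C (sf m * Np) * f ^ g := by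
      rw [C_dvd_iff_dvd_coeff]
      intro r
      have := h2 r
      rw [coeff_C_mul] at this ⊢
      rwa [mul_assoc]
    have h4 := (dvd_content_iff_C_dvd).2 h3
    have h5 : ∀ n : ℕ, (f ^ n).content = 1 := by
      intro n
      induction n with
      | zero => simp
      | succ n ih => rw [pow_succ, content_mul, ih, hf.content_eq_one, mul_one]
    rw [content_C_mul, h5, mul_one] at h4
    exact (dvd_normalize_iff).1 h4
  have hdiv' : |(a : ℝ)| ^ g * (Ideal.absNorm J : ℝ) ≤ sf m * |(Np : ℝ)| := by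
    have h1 : |a ^ g * (Ideal.absNorm J : ℤ)| ≤ |sf m * Np| :=
      Int.le_of_dvd (abs_pos.2 (mul_ne_zero (sf_pos m).ne' hNp0)) ((abs_dvd_abs _ _).2 hdiv)
    rw [abs_mul, abs_mul, abs_pow, abs_of_pos (sf_pos m), Nat.abs_cast] at h1
    exact_mod_cast h1
  -- (d)
  set ρ : ℝ := (nn (b l) : ℝ) / nn (b k) with hρ
  have hBl := h.one_le l
  have hBk := h.one_le k
  have hρ0 : 0 < ρ := div_pos (by linarith) (by linarith)
  have hmah : |(a : ℝ)| ^ g * ∏ σ : K →ₐ[ℚ] ℂ, max (‖σ (p : K)‖ * ρ) ‖σ (q : K)‖ =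
      |(Np : ℝ)| * (scl ρ f).mahlerMeasure ^ g := by
    have h1 := congrArg (fun P : ℂ[X] => (P.comp (C (ρ : ℂ) * X)).mahlerMeasure) hid
    simp only [mul_comp, C_comp, pow_comp, mahlerMeasure_mul, mahlerMeasure_const] at h1
    have h2 : (Pp.comp (C (ρ : ℂ) * X)).mahlerMeasure =
        ∏ σ : K →ₐ[ℚ] ℂ, max (‖σ (p : K)‖ * ρ) ‖σ (q : K)‖ := by
      have h3 : Pp.comp (C (ρ : ℂ) * X) =
          ∏ σ : K →ₐ[ℚ] ℂ, (C (σ (p : K) * ρ) * X - C (σ (q : K))) := by
        rw [hPp, prod_comp]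
        refine Finset.prod_congr rfl fun σ _ => ?_
        simp only [sub_comp, mul_comp, C_comp, X_comp, C_mul]
        ring
      rw [h3, mahler_prod _ _ (fun σ => mul_ne_zero (hσp σ) (by exact_mod_cast hρ0.ne'))]
      refine Finset.prod_congr rfl fun σ _ => ?_
      rw [norm_mul, Complex.norm_real, Real.norm_of_nonneg hρ0.le]
    have h3 : ∀ (P : ℂ[X]) (n : ℕ), (P ^ n).mahlerMeasure = P.mahlerMeasure ^ n := by
      intro P n
      induction n with
      | zero => simp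
      | succ n ih => rw [pow_succ, mahlerMeasure_mul, ih, pow_succ]
    rw [h2, h3, norm_pow, Complex.norm_intCast, Complex.norm_intCast] at h1
    exact h1
  -- (e), (f)
  have hcard : Fintype.card (K →ₐ[ℚ] ℂ) = m := AlgHom.card ℚ K ℂ
  have hM0 : 0 ≤ (scl ρ f).mahlerMeasure := (scl ρ f).mahlerMeasure_nonneg
  have hcoef : |(f.coeff r : ℝ)| * ρ ^ r ≤ 2 ^ f.natDegree * (scl ρ f).mahlerMeasure := by
    rw [← norm_coeff_scl hρ0.le]
    refine (norm_coeff_le_choose_mul_mahlerMeasure r _).trans ?_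
    refine mul_le_mul_of_nonneg_right ?_ hM0
    calc (((scl ρ f).natDegree.choose r : ℕ) : ℝ) ≤ ((2 ^ (scl ρ f).natDegree : ℕ) : ℝ) := by
          exact_mod_cast Nat.choose_le_two_pow _ _
      _ = (2 : ℝ) ^ (scl ρ f).natDegree := by push_cast; rfl
      _ ≤ 2 ^ f.natDegree := pow_le_pow_right₀ (by norm_num) (natDegree_scl f)
  have hNpR : 0 < |(Np : ℝ)| := abs_pos.2 (by exact_mod_cast hNp0)
  refine le_of_mul_le_mul_left ?_ hNpR
  have hsup := emb_prod ξ hξ
  have hbound : ∏ σ : K →ₐ[ℚ] ℂ, (max (‖σ (p : K)‖ * ρ) ‖σ (q : K)‖ * nn (b k)) ≤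
      ∏ σ : K →ₐ[ℚ] ℂ, (CC s * ⨆ i, ‖σ (ξ i : K)‖) := by
    refine Finset.prod_le_prod (fun σ _ => by positivity) fun σ _ => ?_
    rw [max_mul_of_nonneg _ _ (by linarith : (0 : ℝ) ≤ nn (b k))]
    refine max_le ?_ ?_
    · have h1 : ‖σ (p : K)‖ * ρ * nn (b k) = ‖σ (α l)‖ * nn (b l) := by
        rw [hρ, hp]; field_simp
      rw [h1]
      exact cramer h σ l
    · rw [hq]; exact cramer h σ k
  rw [Finset.prod_mul_distrib, Finset.prod_const, Finset.card_univ, hcard,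
    Finset.prod_mul_distrib, Finset.prod_const, Finset.card_univ, hcard, hsup] at hbound
  have hH0 : 0 ≤ Height.mulHeight (fun i => (ξ i : K)) := (Height.mulHeight_pos _).le
  calc |(Np : ℝ)| * (|(f.coeff r : ℝ)| * (nn (b l) : ℝ) ^ r *
        (nn (b k) : ℝ) ^ (f.natDegree - r)) ^ g
      = |(Np : ℝ)| * ((|(f.coeff r : ℝ)| * ρ ^ r) * (nn (b k) : ℝ) ^ f.natDegree) ^ g := by
        congr 2
        have h1 : (nn (b k) : ℝ) ^ f.natDegree =
            (nn (b k) : ℝ) ^ r * (nn (b k) : ℝ) ^ (f.natDegree - r) := by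
          rw [← pow_add]; congr 1; omega
        rw [h1, hρ, div_pow]
        field_simp
    _ ≤ |(Np : ℝ)| * ((2 ^ f.natDegree * (scl ρ f).mahlerMeasure) *
          (nn (b k) : ℝ) ^ f.natDegree) ^ g := by
        gcongr
    _ = 2 ^ m * ((|(Np : ℝ)| * (scl ρ f).mahlerMeasure ^ g) * (nn (b k) : ℝ) ^ m) := by
        rw [mul_pow, mul_pow, ← pow_mul, ← pow_mul, hg]; ring
    _ = 2 ^ m * (|(a : ℝ)| ^ g * ((∏ σ : K →ₐ[ℚ] ℂ, max (‖σ (p : K)‖ * ρ) ‖σ (q : K)‖) *
          (nn (b k) : ℝ) ^ m)) := by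
        rw [← hmah]; ring
    _ ≤ 2 ^ m * (|(a : ℝ)| ^ g * (CC s ^ m * (Height.mulHeight (fun i => (ξ i : K)) *
          (Ideal.absNorm J : ℝ)))) := by
        gcongr
    _ = 2 ^ m * (CC s ^ m * Height.mulHeight (fun i => (ξ i : K))) *
          (|(a : ℝ)| ^ g * (Ideal.absNorm J : ℝ)) := by ring
    _ ≤ 2 ^ m * (CC s ^ m * Height.mulHeight (fun i => (ξ i : K))) *
          (sf m * |(Np : ℝ)|) := by
        have := CC_nonneg s
        gcongr
    _ = _ := by ring

end Pool.Agent.Helper54.BP
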