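import Mathlib

set_option autoImplicit false

/-!
# The inequality between the weights, in logarithmic form
-/

namespace Pool.Agent.Helper54.BP

theorem sum_fin_val (m : ℕ) : ∑ l : Fin (m + 1), ((l : ℕ) : ℝ) = m * (m + 1) / 2 := by
  rw [Fin.sum_univ_eq_sum_range (fun l => (l : ℝ)) (m + 1)]
  induction m with
  | zero => simp
  | succ m ih =>
    rw [Finset.sum_range_succ, ih]; push_cast; ring

theorem sum_fin_val' (m : ℕ) : ∑ l : Fin (m + 1), ((m : ℝ) - ((l : ℕ) : ℝ)) = m * (m + 1) / 2 := by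
  rw [Finset.sum_sub_distrib, sum_fin_val, Finset.sum_const, Finset.card_univ, Fintype.card_fin,
    nsmul_eq_mul]
  push_cast; ring

/-- the core of the inequality -/
theorem core_ineq {s : ℕ} {m d ν q η : ℝ} (hs1 : (1 : ℝ) ≤ s) (hsm : (s : ℝ) ≤ m) (hνd : ν ≤ d)
    (hν : 0 ≤ ν) (hq : 0 ≤ q)
    (ζ c : Fin s → ℝ) (hζ0 : ∀ k, 0 ≤ ζ k) (hζη : ∀ k, ζ k ≤ η) (j0 : Fin s)
    (hj0 : ∀ k, ζ j0 ≤ ζ k) (A T : ℝ) (hc : ∀ k, c k + q ≤ A) (hT : ∑ k, c k ≤ T)
    (h1 : 2 * (m - 1) * q + T ≤ m * d) (hA : A ≤ d) :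
    ν * ∑ k, (η - ζ k) + q * ∑ k ∈ Finset.univ.erase j0, (ζ j0 + ζ k) + ∑ k, c k * ζ k ≤
      m * d * η := by
  classical
  set lam := ζ j0 with hlam
  set μ := η - lam with hμ
  have hμ0 : 0 ≤ μ := by have := hζη j0; linarith
  have hlam0 : 0 ≤ lam := hζ0 j0
  have hd0 : 0 ≤ d := hν.trans hνd
  -- split off `j0`
  have e1 : ∀ (F : Fin s → ℝ), ∑ k, F k = F j0 + ∑ k ∈ Finset.univ.erase j0, F k := fun F =>
    (Finset.add_sum_erase Finset.univ F (Finset.mem_univ j0)).symm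
  have hcard : ((Finset.univ.erase j0 : Finset (Fin s)).card : ℝ) = s - 1 := by
    rw [Finset.card_erase_of_mem (Finset.mem_univ _), Finset.card_univ, Fintype.card_fin]
    have : 1 ≤ s := by exact_mod_cast hs1
    push_cast [Nat.cast_sub this]
    ring
  -- rewrite the left-hand side
  have e2 : ν * ∑ k, (η - ζ k) + q * ∑ k ∈ Finset.univ.erase j0, (lam + ζ k) + ∑ k, c k * ζ k =
      lam * (2 * (s - 1) * q + ∑ k, c k) + μ * (ν * s) +
        ∑ k ∈ Finset.univ.erase j0, (ζ k - lam) * (c k + q - ν) := by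
    have h2 : ∑ k, (η - ζ k) = s * μ - ∑ k ∈ Finset.univ.erase j0, (ζ k - lam) := by
      rw [e1]
      have h3 : ∑ k ∈ Finset.univ.erase j0, (η - ζ k) = (s - 1) * μ -
          ∑ k ∈ Finset.univ.erase j0, (ζ k - lam) := by
        rw [← hcard, ← nsmul_eq_mul, ← Finset.sum_const, ← Finset.sum_sub_distrib]
        refine Finset.sum_congr rfl fun k _ => ?_
        rw [hμ]; ring
      rw [h3]; ring
    have h4 : ∑ k ∈ Finset.univ.erase j0, (lam + ζ k) = (s - 1) * (2 * lam) +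
        ∑ k ∈ Finset.univ.erase j0, (ζ k - lam) := by
      rw [← hcard, ← nsmul_eq_mul, ← Finset.sum_const, ← Finset.sum_add_distrib]
      refine Finset.sum_congr rfl fun k _ => ?_
      ring
    have h5 : ∑ k, c k * ζ k = lam * ∑ k, c k +
        ∑ k ∈ Finset.univ.erase j0, (ζ k - lam) * c k := by
      have h6 : ∑ k, c k * ζ k = ∑ k, (lam * c k) + ∑ k, (ζ k - lam) * c k := by
        rw [← Finset.sum_add_distrib]
        exact Finset.sum_congr rfl fun k _ => by ring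
      rw [h6, ← Finset.mul_sum, e1 (fun k => (ζ k - lam) * c k)]
      simp [hlam]
    have h7 : ∑ k ∈ Finset.univ.erase j0, (ζ k - lam) * (c k + q - ν) =
        ∑ k ∈ Finset.univ.erase j0, (ζ k - lam) * c k +
          (q - ν) * ∑ k ∈ Finset.univ.erase j0, (ζ k - lam) := by
      rw [Finset.mul_sum, ← Finset.sum_add_distrib]
      exact Finset.sum_congr rfl fun k _ => by ring
    rw [h2, h4, h5, h7]
    ring
  rw [e2]
  -- estimate
  have h3 : ∑ k ∈ Finset.univ.erase j0, (ζ k - lam) * (c k + q - ν) ≤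
      (s - 1) * (μ * max 0 (A - ν)) := by
    rw [← hcard, ← nsmul_eq_mul, ← Finset.sum_const]
    refine Finset.sum_le_sum fun k _ => ?_
    have h4 : 0 ≤ ζ k - lam := by have := hj0 k; linarith
    have h5 : ζ k - lam ≤ μ := by have := hζη k; linarith
    calc (ζ k - lam) * (c k + q - ν) ≤ (ζ k - lam) * max 0 (A - ν) :=
          mul_le_mul_of_nonneg_left (le_max_of_le_right (by have := hc k; linarith)) h4
      _ ≤ μ * max 0 (A - ν) := mul_le_mul_of_nonneg_right h5 (le_max_left _ _)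
  have h4 : 2 * ((s : ℝ) - 1) * q + ∑ k, c k ≤ m * d := by
    have : 2 * ((s : ℝ) - 1) * q ≤ 2 * (m - 1) * q := by
      have : (s : ℝ) - 1 ≤ m - 1 := by linarith
      nlinarith
    linarith
  have h5 : ν * s + (s - 1) * max 0 (A - ν) ≤ m * d := by
    rcases le_total 0 (A - ν) with h | h
    · rw [max_eq_right h]
      have h6 : ν * s + (s - 1) * (A - ν) = ν + (s - 1) * A := by ring
      rw [h6]
      have h7 : ((s : ℝ) - 1) * A ≤ (s - 1) * d := mul_le_mul_of_nonneg_left hA (by linarith)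
      nlinarith
    · rw [max_eq_left h, mul_zero, add_zero]
      nlinarith
  have h8 : η = lam + μ := by rw [hμ]; ring
  calc lam * (2 * (s - 1) * q + ∑ k, c k) + μ * (ν * s) +
        ∑ k ∈ Finset.univ.erase j0, (ζ k - lam) * (c k + q - ν)
      ≤ lam * (m * d) + μ * (ν * s) + (s - 1) * (μ * max 0 (A - ν)) := by
        have := mul_le_mul_of_nonneg_left h4 hlam0
        linarith
    _ = lam * (m * d) + μ * (ν * s + (s - 1) * max 0 (A - ν)) := by ring
    _ ≤ lam * (m * d) + μ * (m * d) := by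
        have := mul_le_mul_of_nonneg_left h5 hμ0
        linarith
    _ = m * d * η := by rw [h8]; ring

theorem arith1 {e g m : ℝ} (h : e * g = m) (he : 1 ≤ e) (hg : 1 ≤ g) :
    e * (g * (g - 1)) + 2 * (g * (e * (e - 1) / 2)) ≤ m * (m - 1) := by
  have h4 : 0 ≤ (e - 1) * (g - 1) := mul_nonneg (by linarith) (by linarith)
  have h5 : 0 ≤ e * g := mul_nonneg (by linarith) (by linarith)
  have h6 : e + g - 2 ≤ e * g - 1 := by linarith [h4]
  calc e * (g * (g - 1)) + 2 * (g * (e * (e - 1) / 2)) = (e * g) * (e + g - 2) := by ring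
    _ ≤ (e * g) * (e * g - 1) := mul_le_mul_of_nonneg_left h6 h5
    _ = m * (m - 1) := by rw [h]

theorem arith2 {e g m : ℝ} (h : e * g = m) (he : 1 ≤ e) (hg : 1 ≤ g) :
    g * (e * (e - 1) / 2) ≤ m * (m - 1) / 2 := by
  have h6 : e ≤ m := by rw [← h]; nlinarith
  have h7 : 0 ≤ m := by linarith
  have h5 : g * (e * (e - 1) / 2) = m * (e - 1) / 2 := by rw [← h]; ring
  rw [h5]
  have : m * (e - 1) ≤ m * (m - 1) := mul_le_mul_of_nonneg_left (by linarith) h7
  linarith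

theorem arith3 {e g m : ℝ} (h : e * g = m) (he : 2 ≤ e) (hg : 1 ≤ g) :
    e * (g * (g - 1)) ≤ m * (m - 1) / 2 := by
  have h7 : 2 * (g - 1) ≤ m - 1 := by rw [← h]; nlinarith
  have h8 : 0 ≤ m := by rw [← h]; positivity
  have h5 : e * (g * (g - 1)) = m * (g - 1) := by rw [← h]; ring
  rw [h5]
  have : m * (2 * (g - 1)) ≤ m * (m - 1) := mul_le_mul_of_nonneg_left h7 h8
  linarith

theorem arith4 {m d q : ℝ} (hm2 : 2 ≤ m) (hd2 : m ^ 2 + m ≤ d + 1)
    (hq : 2 * q = m * (m + 1) + (m + 1) / m) :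
    2 * (m - 1) * q + m * (m - 1) ≤ m * d ∧ m * (m - 1) / 2 + q ≤ d := by
  have hm0 : (0 : ℝ) < m := by linarith
  have hfrac : (m + 1) / m ≤ 3 / 2 := by
    rw [div_le_div_iff₀ hm0 (by norm_num)]; linarith
  have hfrac2 : (m - 1) * ((m + 1) / m) ≤ m := by
    rw [← mul_div_assoc, div_le_iff₀ hm0]; nlinarith
  constructor
  · have h9 : 2 * (m - 1) * q = (m - 1) * (2 * q) := by ring
    rw [h9, hq]
    have h10 : (m - 1) * (m * (m + 1) + (m + 1) / m) + m * (m - 1) =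
      m * ((m - 1) * (m + 2)) + (m - 1) * ((m + 1) / m) := by ring
    rw [h10]
    have h11 : m * ((m - 1) * (m + 2)) + m = m * (m ^ 2 + m - 1) := by ring
    have h12 : m * (m ^ 2 + m - 1) ≤ m * d :=
      mul_le_mul_of_nonneg_left (by linarith) hm0.le
    linarith
  · have h1 : q = (m * (m + 1) + (m + 1) / m) / 2 := by linarith
    rw [h1]
    nlinarith

theorem c_le {s g : ℕ} {e m : ℝ} (heg : e * g = m) (he : 2 ≤ e) (hg : (1 : ℝ) ≤ g) {i j : Fin s}
    (hij : i ≠ j) (a : Fin g → Fin s → ℕ) (ha : ∀ t, a t i = 0 ∧ a t j = 0)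
    (hsumat : ∀ t, ∑ k, (a t k : ℝ) ≤ g - 1) (k : Fin s) :
    e * ∑ t, (a t k : ℝ) + g * (e * (e - 1) / 2) * ((if k = i then 1 else 0) +
      (if k = j then 1 else 0)) ≤ m * (m - 1) / 2 := by
  classical
  have hsumk : ∑ t : Fin g, (a t k : ℝ) ≤ g * (g - 1) := by
    calc ∑ t : Fin g, (a t k : ℝ) ≤ ∑ t : Fin g, ((g : ℝ) - 1) := by
          refine Finset.sum_le_sum fun t _ => le_trans ?_ (hsumat t)
          exact Finset.single_le_sum (f := fun k => (a t k : ℝ))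
            (fun _ _ => Nat.cast_nonneg _) (Finset.mem_univ k)
      _ = _ := by rw [Finset.sum_const, Finset.card_univ, Fintype.card_fin, nsmul_eq_mul]
  by_cases hki : k = i
  · have h2 : ∑ t : Fin g, (a t k : ℝ) = 0 :=
      Finset.sum_eq_zero fun t _ => by rw [hki, (ha t).1]; simp
    have hkj : k ≠ j := fun h => hij (hki.symm.trans h)
    rw [h2, if_pos hki, if_neg hkj, mul_zero, zero_add, add_zero, mul_one]
    exact arith2 heg (by linarith) hg
  by_cases hkj : k = j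
  · have h2 : ∑ t : Fin g, (a t k : ℝ) = 0 :=
      Finset.sum_eq_zero fun t _ => by rw [hkj, (ha t).2]; simp
    rw [h2, if_pos hkj, if_neg hki, mul_zero, zero_add, zero_add, mul_one]
    exact arith2 heg (by linarith) hg
  · rw [if_neg hki, if_neg hkj, add_zero, mul_zero, add_zero]
    calc e * ∑ t : Fin g, (a t k : ℝ) ≤ e * (g * (g - 1)) :=
          mul_le_mul_of_nonneg_left hsumk (by linarith)
      _ ≤ m * (m - 1) / 2 := arith3 heg he hg

theorem c_sum {s g : ℕ} {e m : ℝ} (heg : e * g = m) (he : 1 ≤ e) (hg : (1 : ℝ) ≤ g) (i j : Fin s)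
    (a : Fin g → Fin s → ℕ) (hsumat : ∀ t, ∑ k, (a t k : ℝ) ≤ g - 1) :
    ∑ k, (e * ∑ t, (a t k : ℝ) + g * (e * (e - 1) / 2) * ((if k = i then 1 else 0) +
      (if k = j then 1 else 0))) ≤ m * (m - 1) := by
  classical
  have h1 : ∑ k, (e * ∑ t, (a t k : ℝ) + g * (e * (e - 1) / 2) * ((if k = i then 1 else 0) +
      (if k = j then 1 else 0))) = e * ∑ t, ∑ k, (a t k : ℝ) + 2 * (g * (e * (e - 1) / 2)) := by
    rw [Finset.sum_add_distrib]
    congr 1
    · rw [← Finset.mul_sum, Finset.sum_comm]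
    · rw [← Finset.mul_sum, Finset.sum_add_distrib]
      simp only [Finset.sum_ite_eq', Finset.mem_univ, if_true]
      ring
  have h2 : ∑ t : Fin g, ∑ k, (a t k : ℝ) ≤ g * (g - 1) := by
    calc ∑ t : Fin g, ∑ k, (a t k : ℝ) ≤ ∑ t : Fin g, ((g : ℝ) - 1) :=
          Finset.sum_le_sum fun t _ => hsumat t
      _ = _ := by rw [Finset.sum_const, Finset.card_univ, Fintype.card_fin, nsmul_eq_mul]
  rw [h1]
  have h3 : e * ∑ t : Fin g, ∑ k, (a t k : ℝ) ≤ e * (g * (g - 1)) :=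
    mul_le_mul_of_nonneg_left h2 (by linarith)
  have := arith1 heg he hg
  linarith

theorem rhs_eq {s g d e : ℕ} {m : ℝ} (heg : (e : ℝ) * g = m) (β : Fin s → ℝ) (η : ℝ)
    (i j : Fin s) (a : Fin g → Fin s → ℕ) (hdeg : ∀ t, ∑ k, a t k + e ≤ d) :
    ∑ t, ((e : ℝ) * (∑ k, (a t k : ℝ) * β k) +
      ((d - ∑ k, a t k - e + 1 : ℕ) : ℝ) * (e * η) + (e.choose 2 : ℝ) * (β i + β j)) =
      m * d * η - ∑ k, (e * ∑ t, (a t k : ℝ) + g * (e * (e - 1) / 2) *
        ((if k = i then 1 else 0) + (if k = j then 1 else 0))) * (η - β k) := by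
  classical
  have hchoose : (e.choose 2 : ℝ) = e * (e - 1) / 2 := Nat.cast_choose_two ℝ e
  have h1 : ∀ t, ((e : ℝ) * (∑ k, (a t k : ℝ) * β k) +
      ((d - ∑ k, a t k - e + 1 : ℕ) : ℝ) * (e * η) + (e.choose 2 : ℝ) * (β i + β j)) =
      d * e * η - e * ∑ k, (a t k : ℝ) * (η - β k) -
        (e * (e - 1) / 2 : ℝ) * ((η - β i) + (η - β j)) := by
    intro t
    have h2 : ((d - ∑ k, a t k - e + 1 : ℕ) : ℝ) = d - ∑ k, (a t k : ℝ) - e + 1 := by
      have h3 := hdeg t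
      have h4 : d - ∑ k, a t k - e = d - (∑ k, a t k + e) := by omega
      rw [h4]
      push_cast [Nat.cast_sub h3]
      ring
    have h5 : ∑ k, (a t k : ℝ) * (η - β k) =
        (∑ k, (a t k : ℝ)) * η - ∑ k, (a t k : ℝ) * β k := by
      simp only [mul_sub, Finset.sum_sub_distrib]
      rw [Finset.sum_mul]
    rw [h2, h5, hchoose]
    ring
  simp only [h1]
  rw [Finset.sum_sub_distrib, Finset.sum_sub_distrib, Finset.sum_const, Finset.sum_const,
    Finset.card_univ, Fintype.card_fin, nsmul_eq_mul, nsmul_eq_mul]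
  have h7 : ∀ i0 : Fin s, ∑ k, (if k = i0 then (1 : ℝ) else 0) * (η - β k) = η - β i0 := by
    intro i0
    rw [Finset.sum_eq_single i0]
    · simp
    · intro k _ hk; simp [hk]
    · simp
  have h6 : ∑ k, (e * ∑ t, (a t k : ℝ) + g * (e * (e - 1) / 2) *
        ((if k = i then 1 else 0) + (if k = j then 1 else 0))) * (η - β k) =
      ∑ t, e * ∑ k, (a t k : ℝ) * (η - β k) +
      g * ((e * (e - 1) / 2 : ℝ) * ((η - β i) + (η - β j))) := by
    have h8 : ∀ k, (e * ∑ t, (a t k : ℝ) + g * (e * (e - 1) / 2) *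
        ((if k = i then 1 else 0) + (if k = j then 1 else 0))) * (η - β k) =
        (∑ t, (e : ℝ) * ((a t k : ℝ) * (η - β k))) + g * (e * (e - 1) / 2) *
          ((if k = i then (1 : ℝ) else 0) * (η - β k) +
            (if k = j then (1 : ℝ) else 0) * (η - β k)) := by
      intro k
      rw [← Finset.mul_sum, ← Finset.sum_mul]
      ring
    rw [Finset.sum_congr rfl fun k _ => h8 k, Finset.sum_add_distrib, ← Finset.mul_sum,
      Finset.sum_add_distrib, h7, h7, Finset.sum_comm]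
    simp only [← Finset.mul_sum]
    ring
  rw [h6, ← heg]
  ring

theorem weight_core1 {s m d n : ℕ} (hd : n + 2 ≤ d) (hsm : s ≤ m)
    (β : Fin s → ℝ) (η : ℝ) (hβ0 : ∀ k, 0 ≤ β k) (hβη : ∀ k, β k ≤ η)
    (j0 : Fin s) (i j : Fin s) (e g : ℕ) (heg : e * g = m)
    (hm : m = 1) (a : Fin g → Fin s → ℕ) (ha : ∀ t, a t i = 0 ∧ a t j = 0 ∧ ∑ k, a t k ≤ g - 1)
    (ω : Fin s → Fin (m + 1) → ℝ) :
    ((n : ℝ) + 2) * ∑ k, β k +
      (1 + 1 / (m : ℝ) ^ 2) * ∑ k ∈ Finset.univ.erase j0, ∑ l, ω k l ≤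
    ∑ t, ((e : ℝ) * (∑ k, (a t k : ℝ) * β k) +
      ((d - ∑ k, a t k - e + 1 : ℕ) : ℝ) * (e * η) + (e.choose 2 : ℝ) * (β i + β j)) := by
  classical
  have hs1 : 1 ≤ s := Nat.one_le_iff_ne_zero.2 (by rintro rfl; exact j0.elim0)
  subst hm
  have hs : s = 1 := by omega
  subst hs
  have he : e = 1 := Nat.eq_one_of_mul_eq_one_right heg
  have hg : g = 1 := Nat.eq_one_of_mul_eq_one_left heg
  subst he
  subst hg
  have hj : ∀ k : Fin 1, k = j0 := fun k => Subsingleton.elim _ _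
  have h1 : (Finset.univ.erase j0 : Finset (Fin 1)) = ∅ := by
    ext k; simp [hj k]
  rw [h1]
  have h2 : ∀ t k, a t k = 0 := by
    intro t k
    have h3 := (ha t).2.2
    have h4 : a t k ≤ ∑ k, a t k := Finset.single_le_sum (fun _ _ => Nat.zero_le _)
      (Finset.mem_univ k)
    omega
  have h3 : ∑ k, β k = β j0 := by
    rw [Fin.sum_univ_one]
    congr 1
    exact Subsingleton.elim _ _
  have hdR : (n : ℝ) + 2 ≤ d := by exact_mod_cast hd
  have h5 : d - 0 - 1 + 1 = d := by omega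
  rw [h3]
  simp only [Finset.sum_empty, mul_zero, add_zero, h2, Nat.cast_zero, zero_mul,
    Finset.sum_const_zero, Finset.univ_unique, Finset.sum_const, Finset.card_singleton,
    one_smul, Nat.cast_one, one_mul, zero_add, h5, Nat.choose_succ_self]
  have h6 := hβη j0
  have h7 := hβ0 j0
  calc ((n : ℝ) + 2) * β j0 ≤ d * β j0 := mul_le_mul_of_nonneg_right hdR h7
    _ ≤ d * η := mul_le_mul_of_nonneg_left h6 (by positivity)

theorem weight_core {s m d n : ℕ} (hsm : s ≤ m) (hd : n + 2 ≤ d)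
    (hd2 : m ^ 2 + m ≤ d + 1) (β : Fin s → ℝ) (η : ℝ) (hβ0 : ∀ k, 0 ≤ β k) (hβη : ∀ k, β k ≤ η)
    (j0 : Fin s) (hj0 : ∀ k, β k ≤ β j0) (i j : Fin s) (e g : ℕ) (heg : e * g = m)
    (hm : m = 1 ∨ (2 ≤ e ∧ i ≠ j))
    (a : Fin g → Fin s → ℕ) (ha : ∀ t, a t i = 0 ∧ a t j = 0 ∧ ∑ k, a t k ≤ g - 1)
    (ω : Fin s → Fin (m + 1) → ℝ)
    (hω : ∀ k, k ≠ j0 → ∀ l, ω k l ≤ (l : ℕ) * (η - β j0) + ((m : ℝ) - (l : ℕ)) * (η - β k)) :
    ((n : ℝ) + 2) * ∑ k, β k +
      (1 + 1 / (m : ℝ) ^ 2) * ∑ k ∈ Finset.univ.erase j0, ∑ l, ω k l ≤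
    ∑ t, ((e : ℝ) * (∑ k, (a t k : ℝ) * β k) +
      ((d - ∑ k, a t k - e + 1 : ℕ) : ℝ) * (e * η) + (e.choose 2 : ℝ) * (β i + β j)) := by
  classical
  rcases hm with hm | ⟨he2, hij⟩
  · exact weight_core1 hd hsm β η hβ0 hβη j0 i j e g heg hm a ha ω
  have hs1 : 1 ≤ s := Nat.one_le_iff_ne_zero.2 (by rintro rfl; exact j0.elim0)
  have hm1 : 1 ≤ m := hs1.trans hsm
  have hg1 : 1 ≤ g := by
    rcases Nat.eq_zero_or_pos g with h | h
    · rw [h, mul_zero] at heg; omega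
    · exact h
  have hegR : (e : ℝ) * g = m := by exact_mod_cast heg
  have hgR : (1 : ℝ) ≤ g := by exact_mod_cast hg1
  have hmd : m ≤ d := by nlinarith
  have hdeg : ∀ t, ∑ k, a t k + e ≤ d := by
    intro t
    have h1 := (ha t).2.2
    have h2 : e + (g - 1) ≤ e * g := by
      obtain ⟨g', hg'⟩ : ∃ g', g = g' + 1 := ⟨g - 1, by omega⟩
      obtain ⟨e', he'⟩ : ∃ e', e = e' + 1 := ⟨e - 1, by omega⟩
      rw [hg', he']
      simp only [Nat.add_sub_cancel]
      nlinarith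
    omega
  rw [rhs_eq hegR β η i j a hdeg]
  have he2R : (2 : ℝ) ≤ e := by exact_mod_cast he2
  have hm2R : (2 : ℝ) ≤ m := by rw [← hegR]; nlinarith
  -- the left-hand side
  have hL : ∑ k ∈ Finset.univ.erase j0, ∑ l, ω k l ≤
      ∑ k ∈ Finset.univ.erase j0, ((m : ℝ) * (m + 1) / 2) * ((η - β j0) + (η - β k)) := by
    refine Finset.sum_le_sum fun k hk => ?_
    have hk' := Finset.ne_of_mem_erase hk
    calc ∑ l, ω k l
        ≤ ∑ l : Fin (m + 1), (((l : ℕ) : ℝ) * (η - β j0) + ((m : ℝ) - (l : ℕ)) * (η - β k)) :=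
          Finset.sum_le_sum fun l _ => hω k hk' l
      _ = ((m : ℝ) * (m + 1) / 2) * ((η - β j0) + (η - β k)) := by
          rw [Finset.sum_add_distrib, ← Finset.sum_mul, ← Finset.sum_mul, sum_fin_val,
            sum_fin_val']
          ring
  obtain ⟨q, hq⟩ : ∃ q : ℝ, q = (1 + 1 / (m : ℝ) ^ 2) * (m * (m + 1) / 2) := ⟨_, rfl⟩
  have hq0 : 0 ≤ q := by rw [hq]; positivity
  have hqval : 2 * q = m * (m + 1) + (m + 1) / m := by
    rw [hq]; field_simp
  have hsumat : ∀ t, ∑ k, (a t k : ℝ) ≤ g - 1 := by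
    intro t
    have h1 := (ha t).2.2
    have h2 : ((∑ k, a t k : ℕ) : ℝ) ≤ ((g - 1 : ℕ) : ℝ) := by exact_mod_cast h1
    push_cast [Nat.cast_sub hg1] at h2
    exact h2
  have hd2R : (m : ℝ) ^ 2 + m ≤ d + 1 := by exact_mod_cast hd2
  have hdR : (n : ℝ) + 2 ≤ d := by exact_mod_cast hd
  have hsR : (1 : ℝ) ≤ s := by exact_mod_cast hs1
  have hsmR : (s : ℝ) ≤ m := by exact_mod_cast hsm
  have h4 := arith4 hm2R hd2R hqval
  have hcore := core_ineq (s := s) (m := m) (d := d) (ν := (n : ℝ) + 2) (q := q) (η := η)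
    hsR hsmR hdR (by positivity) hq0 (fun k => η - β k)
    (fun k => e * ∑ t, (a t k : ℝ) + g * (e * (e - 1) / 2) *
        ((if k = i then 1 else 0) + (if k = j then 1 else 0)))
    (fun k => sub_nonneg.2 (hβη k)) (fun k => sub_le_self _ (hβ0 k)) j0
    (fun k => sub_le_sub_left (hj0 k) _) (m * (m - 1) / 2 + q) (m * (m - 1))
    (fun k => add_le_add_left
      (c_le hegR he2R hgR hij a (fun t => ⟨(ha t).1, (ha t).2.1⟩) hsumat k) _)
    (c_sum hegR (by linarith) hgR i j a hsumat) h4.1 h4.2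
  have h12 : ∑ k, (η - (η - β k)) = ∑ k, β k := Finset.sum_congr rfl fun k _ => by ring
  simp only [h12] at hcore
  have h13 : (1 + 1 / (m : ℝ) ^ 2) * ∑ k ∈ Finset.univ.erase j0, ∑ l, ω k l ≤
      q * ∑ k ∈ Finset.univ.erase j0, ((η - β j0) + (η - β k)) := by
    calc (1 + 1 / (m : ℝ) ^ 2) * ∑ k ∈ Finset.univ.erase j0, ∑ l, ω k l
        ≤ (1 + 1 / (m : ℝ) ^ 2) * ∑ k ∈ Finset.univ.erase j0,
          ((m : ℝ) * (m + 1) / 2) * ((η - β j0) + (η - β k)) :=
          mul_le_mul_of_nonneg_left hL (by positivity)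
      _ = _ := by rw [← Finset.mul_sum, hq]; ring
  linarith

end Pool.Agent.Helper54.BP
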