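import Pool.Agent.Helper54.BP.Lin

set_option autoImplicit false

/-!
# Lifting of monomials on the lattice spanned by a point
-/

namespace Pool.Agent.Helper54.BP

open MvPolynomial

/-- forms of degree `d` with coefficients of absolute value at most `B` -/
def Small {N : ℕ} (d : ℕ) (B : ℝ) (F : MvPolynomial (Fin N) ℤ) : Prop :=
  F.IsHomogeneous d ∧ ∀ γ, |((F.coeff γ : ℤ) : ℝ)| ≤ B

theorem Small.add {N d : ℕ} {B B' : ℝ} {F G : MvPolynomial (Fin N) ℤ} (hF : Small d B F)
    (hG : Small d B' G) : Small d (B + B') (F + G) := by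
  refine ⟨hF.1.add hG.1, fun γ => ?_⟩
  rw [coeff_add]
  push_cast
  exact (abs_add_le _ _).trans (add_le_add (hF.2 γ) (hG.2 γ))

theorem Small.mono {N d : ℕ} {B B' : ℝ} {F : MvPolynomial (Fin N) ℤ} (hF : Small d B F)
    (h : B ≤ B') : Small d B' F :=
  ⟨hF.1, fun γ => (hF.2 γ).trans h⟩

theorem Small.sum {N d : ℕ} {κ : Type*} (S : Finset κ) {B : ℝ} (F : κ → MvPolynomial (Fin N) ℤ)
    (hF : ∀ i ∈ S, Small d B (F i)) : Small d (S.card * B) (∑ i ∈ S, F i) := by
  refine ⟨IsHomogeneous.sum _ _ _ fun i hi => (hF i hi).1, fun γ => ?_⟩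
  rw [coeff_sum]
  push_cast
  refine (Finset.abs_sum_le_sum_abs _ _).trans ?_
  calc ∑ i ∈ S, |(((F i).coeff γ : ℤ) : ℝ)| ≤ ∑ i ∈ S, B := Finset.sum_le_sum fun i hi => (hF i hi).2 γ
    _ = S.card * B := by rw [Finset.sum_const, nsmul_eq_mul]

theorem Small.X_mul {N d : ℕ} {B : ℝ} {F : MvPolynomial (Fin N) ℤ} (hB : 0 ≤ B)
    (hF : Small d B F) (i : Fin N) : Small (d + 1) B (X i * F) := by
  refine ⟨?_, fun γ => ?_⟩
  · rw [add_comm]; exact (isHomogeneous_X ℤ i).mul hF.1
  · rw [coeff_X_mul']
    split_ifs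
    · exact hF.2 _
    · simpa using hB

/-- the constant of `lin`, at least one -/
noncomputable def C1 (N s : ℕ) (A : ℝ) : ℝ := max 1 (Clin N s A)

/-- the constant of `lift` -/
noncomputable def Clift (N s : ℕ) (A : ℝ) : ℕ → ℝ
  | 0 => 1
  | d + 1 => N * Clift N s A d * C1 N s A

theorem Clift_nonneg (N s : ℕ) (A : ℝ) (d : ℕ) : 0 ≤ Clift N s A d := by
  induction d with
  | zero => simp [Clift]
  | succ d ih =>
    rw [Clift]
    have : 0 ≤ C1 N s A := le_trans zero_le_one (le_max_left _ _)
    positivity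

theorem lift {N s : ℕ} {K : Type} [CommRing K] (x : Fin N → K) (α : Fin s → K)
    (b u : Fin s → Fin N → ℤ)
    (hx : ∀ i, x i = ∑ k, (b k i : K) * α k)
    (hu : ∀ k l, ∑ i, u k i * b l i = if k = l then 1 else 0)
    (I : Fin s → Fin N)
    (hI : (∏ k, (nn (b k) : ℤ)) ≤ 2 ^ (s * s) * |(Matrix.of fun k l => b k (I l)).det|)
    (A : ℝ) (hA : 0 ≤ A) : ∀ (d : ℕ) (ε : Fin s → ℕ), ∑ k, ε k = d → ∀ (R : ℝ) (c : ℤ), 0 ≤ R →
    ((|(Matrix.of fun k l => b k (I l)).det| : ℤ) : ℝ) ≤ A * R →
    (|c| : ℝ) ≤ R * ∏ k, (nn (b k) : ℝ) ^ ε k →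
    ∃ F : MvPolynomial (Fin N) ℤ, Small d (Clift N s A d * R) F ∧
      aeval x F = c * ∏ k, α k ^ ε k := by
  have hb1 : ∀ k, (1 : ℝ) ≤ nn (b k) := by
    intro k
    have : b k ≠ 0 := by
      intro h0
      have := hu k k
      simp [h0] at this
    exact_mod_cast nn_pos this
  have hC1 : 1 ≤ C1 N s A := le_max_left _ _
  intro d
  induction d with
  | zero =>
    intro ε hε R c hR hD hc
    have h0 : ∀ k, ε k = 0 := by
      intro k
      have := Finset.sum_eq_zero_iff.1 hε k (Finset.mem_univ k)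
      exact this
    refine ⟨C c, ⟨isHomogeneous_C _ _, fun γ => ?_⟩, ?_⟩
    · simp only [h0, pow_zero, Finset.prod_const_one, mul_one] at hc
      rw [coeff_C, Clift, one_mul]
      split_ifs
      · exact hc
      · simpa using hR
    · simp [h0]
  | succ d ih =>
    intro ε hε R c hR hD hc
    obtain ⟨k, hk⟩ : ∃ k, ε k ≠ 0 := by
      by_contra hcon
      push Not at hcon
      simp [hcon] at hε
    set ε' : Fin s → ℕ := Function.update ε k (ε k - 1) with hε'
    have hsum' : ∑ l, ε' l = d := by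
      have h1 := Finset.sum_update_of_mem (Finset.mem_univ k) ε (ε k - 1)
      have h2 := Finset.add_sum_erase Finset.univ ε (Finset.mem_univ k)
      rw [Finset.sdiff_singleton_eq_erase] at h1
      rw [hε', h1]
      omega
    have hprod : ∀ {M : Type} [CommMonoid M] (g : Fin s → M),
        ∏ l, g l ^ ε l = (∏ l, g l ^ ε' l) * g k := by
      intro M _ g
      rw [← Finset.mul_prod_erase Finset.univ (fun l => g l ^ ε l) (Finset.mem_univ k),
        ← Finset.mul_prod_erase Finset.univ (fun l => g l ^ ε' l) (Finset.mem_univ k)]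
      have h1 : ∏ l ∈ Finset.univ.erase k, g l ^ ε' l = ∏ l ∈ Finset.univ.erase k, g l ^ ε l := by
        refine Finset.prod_congr rfl fun l hl => ?_
        rw [hε', Function.update_of_ne (Finset.ne_of_mem_erase hl)]
      rw [h1, hε', Function.update_self]
      have h2 : g k ^ ε k = g k ^ (ε k - 1) * g k := by
        rw [← pow_succ]; congr 1; omega
      rw [h2]
      simp only [mul_assoc, mul_comm]
    have hB1 : (1 : ℝ) ≤ ∏ l, (nn (b l) : ℝ) ^ ε' l := by
      calc (1 : ℝ) = ∏ l : Fin s, 1 := by simp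
        _ ≤ _ := Finset.prod_le_prod (fun _ _ => by norm_num) (fun l _ => one_le_pow₀ (hb1 l))
    set P : ℝ := ∏ l, (nn (b l) : ℝ) ^ ε' l with hP
    obtain ⟨v, hv1, hv2⟩ := lin b u hu I hI A (R * P) hA (by positivity)
      (hD.trans (by
        have : R ≤ R * P := le_mul_of_one_le_right hR hB1
        nlinarith)) k c (by
        rw [hprod] at hc
        calc (|c| : ℝ) ≤ R * (P * nn (b k)) := hc
          _ = _ := by ring)
    have hval : ∑ i, (v i : K) * x i = c * α k := by
      calc ∑ i, (v i : K) * x i = ∑ i, ∑ l, (v i : K) * ((b l i : K) * α l) := by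
            refine Finset.sum_congr rfl fun i _ => ?_
            rw [hx, Finset.mul_sum]
        _ = ∑ l, ((∑ i, v i * b l i : ℤ) : K) * α l := by
            rw [Finset.sum_comm]
            refine Finset.sum_congr rfl fun l _ => ?_
            push_cast
            rw [Finset.sum_mul]
            exact Finset.sum_congr rfl fun i _ => by ring
        _ = c * α k := by
            rw [Finset.sum_eq_single k]
            · rw [hv1, if_pos rfl]
            · intro l _ hl
              rw [hv1, if_neg hl]; simp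
            · simp
    choose F hF1 hF2 using fun i => ih ε' hsum' (C1 N s A * R) (v i) (by positivity)
      (hD.trans (by
        have : R ≤ C1 N s A * R := le_mul_of_one_le_left hR hC1
        nlinarith)) (by
        calc (|v i| : ℝ) ≤ Clin N s A * (R * P) := hv2 i
          _ ≤ C1 N s A * (R * P) :=
            mul_le_mul_of_nonneg_right (le_max_right _ _) (by positivity)
          _ = C1 N s A * R * P := by ring)
    refine ⟨∑ i, X i * F i, ?_, ?_⟩
    · have h1 := Small.sum (Finset.univ : Finset (Fin N)) (fun i => X i * F i)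
        (fun i _ => (hF1 i).X_mul (mul_nonneg (Clift_nonneg N s A d) (by positivity)) i)
      refine h1.mono (le_of_eq ?_)
      rw [Finset.card_univ, Fintype.card_fin, Clift]
      ring
    · rw [map_sum, hprod]
      simp only [map_mul, aeval_X, hF2]
      calc ∑ i, x i * ((v i : K) * ∏ l, α l ^ ε' l)
          = (∑ i, (v i : K) * x i) * ∏ l, α l ^ ε' l := by
            rw [Finset.sum_mul]
            exact Finset.sum_congr rfl fun i _ => by ring
        _ = _ := by rw [hval]; ring

end Pool.Agent.Helper54.BP
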