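import Pool.Agent.Helper54.BP.Red

set_option autoImplicit false

/-!
# Integral solutions of the linear system given by a reduced basis
-/

namespace Pool.Agent.Helper54.BP

open Matrix

theorem abs_det_le {s : ℕ} (M : Matrix (Fin s) (Fin s) ℤ) (r : Fin s → ℤ)
    (hr : ∀ k l, |M k l| ≤ r k) : |M.det| ≤ s.factorial * ∏ k, r k := by
  rw [Matrix.det_apply]
  refine (Finset.abs_sum_le_sum_abs _ _).trans ?_
  have h : ∀ σ ∈ (Finset.univ : Finset (Equiv.Perm (Fin s))),
      |Equiv.Perm.sign σ • ∏ i, M (σ i) i| ≤ ∏ k, r k := by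
    intro σ _
    rw [Units.smul_def, smul_eq_mul, abs_mul, Int.abs_eq_natAbs, Int.units_natAbs, Nat.cast_one,
      one_mul, Finset.abs_prod, ← Equiv.prod_comp σ r]
    exact Finset.prod_le_prod (fun i _ => abs_nonneg _) (fun i _ => hr _ _)
  refine (Finset.sum_le_sum h).trans ?_
  rw [Finset.sum_const, Finset.card_univ, Fintype.card_perm, Fintype.card_fin, nsmul_eq_mul]

theorem abs_adj_le {s : ℕ} (M : Matrix (Fin s) (Fin s) ℤ) (r : Fin s → ℤ)
    (hr : ∀ k l, |M k l| ≤ r k) (hr0 : ∀ k, 1 ≤ r k) (l k : Fin s) :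
    |M.adjugate l k| * r k ≤ s.factorial * ∏ k, r k := by
  rw [Matrix.adjugate_apply]
  have h := abs_det_le (M.updateRow k (Pi.single l 1)) (Function.update r k 1) (by
    intro k' l'
    by_cases h : k' = k
    · subst h
      rw [Matrix.updateRow_self, Function.update_self]
      by_cases h2 : l' = l
      · subst h2; simp
      · simp [Pi.single_eq_of_ne h2]
    · rw [Matrix.updateRow_ne h, Function.update_of_ne h]
      exact hr _ _)
  have h2 : (∏ k', Function.update r k 1 k') * r k = ∏ k, r k := by
    rw [Finset.prod_update_of_mem (Finset.mem_univ k), one_mul, mul_comm,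
      ← Finset.mul_prod_erase Finset.univ r (Finset.mem_univ k)]
    congr 1
    rw [Finset.sdiff_singleton_eq_erase]
  calc |(M.updateRow k (Pi.single l 1)).det| * r k
      ≤ (s.factorial * ∏ k', Function.update r k 1 k') * r k :=
        mul_le_mul_of_nonneg_right h (by linarith [hr0 k])
    _ = s.factorial * ∏ k, r k := by rw [mul_assoc, h2]

/-- the constant of `lin` -/
def Clin (N s : ℕ) (A : ℝ) : ℝ := s * s.factorial * 2 ^ (s * s) * (1 + N * A) + A

/-- The linear lemma: every small linear form on the lattice with the reduced basis `b` is the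
restriction of a small linear form. -/
theorem lin {N s : ℕ} (b u : Fin s → Fin N → ℤ)
    (hu : ∀ k l, ∑ i, u k i * b l i = if k = l then 1 else 0)
    (I : Fin s → Fin N)
    (hI : (∏ k, (nn (b k) : ℤ)) ≤ 2 ^ (s * s) * |(Matrix.of fun k l => b k (I l)).det|)
    (A R : ℝ) (hA : 0 ≤ A) (hR : 0 ≤ R)
    (hD : ((|(Matrix.of fun k l => b k (I l)).det| : ℤ) : ℝ) ≤ A * R) (k0 : Fin s) (c : ℤ)
    (hc : (|c| : ℝ) ≤ R * nn (b k0)) :
    ∃ v : Fin N → ℤ, (∀ k, ∑ i, v i * b k i = if k = k0 then c else 0) ∧
      ∀ i, (|v i| : ℝ) ≤ Clin N s A * R := by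
  classical
  set M : Matrix (Fin s) (Fin s) ℤ := Matrix.of fun k l => b k (I l) with hM
  set D : ℤ := M.det with hDdef
  have hb1 : ∀ k, (1 : ℤ) ≤ nn (b k) := by
    intro k
    have : b k ≠ 0 := by
      intro h0
      have := hu k k
      simp [h0] at this
    exact_mod_cast nn_pos this
  have hD0 : 0 < |D| := by
    have h1 : (1 : ℤ) ≤ ∏ k, (nn (b k) : ℤ) := by
      calc (1 : ℤ) = ∏ k : Fin s, 1 := by simp
        _ ≤ _ := Finset.prod_le_prod (fun _ _ => by norm_num) (fun k _ => hb1 k)
    by_contra hcon
    have h2 : |D| = 0 := le_antisymm (not_lt.1 hcon) (abs_nonneg _)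
    rw [h2, mul_zero] at hI
    omega
  have hDne : D ≠ 0 := abs_pos.1 hD0
  have hinj : Function.Injective I := by
    intro l l' hll
    by_contra hne
    exact hDne (Matrix.det_zero_of_column_eq hne (fun k => by simp [hM, hll]))
  -- the reduction vectors
  set η : Fin N → Fin s → ℤ := fun i l => ∑ k, M.adjugate l k * b k i with hη
  have hηb : ∀ i k, ∑ l, η i l * b k (I l) = D * b k i := by
    intro i k
    have h1 : (M * M.adjugate) = D • (1 : Matrix (Fin s) (Fin s) ℤ) := Matrix.mul_adjugate M
    have h2 : (M *ᵥ (M.adjugate *ᵥ fun k => b k i)) k = D * b k i := by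
      rw [Matrix.mulVec_mulVec, h1, Matrix.smul_mulVec, Matrix.one_mulVec]
      rfl
    rw [← h2]
    simp only [Matrix.mulVec, dotProduct]
    refine Finset.sum_congr rfl fun l _ => ?_
    rw [mul_comm]
    rfl
  set v0 : Fin N → ℤ := fun i => c * u k0 i with hv0
  set q : Fin N → ℤ := fun i => if i ∈ Set.range I then 0 else v0 i / D with hq
  set v : Fin N → ℤ := fun j => v0 j - D * q j + ∑ l, (if j = I l then ∑ i, q i * η i l else 0)
    with hv
  have hvb : ∀ k, ∑ i, v i * b k i = if k = k0 then c else 0 := by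
    intro k
    have h1 : ∑ i, v0 i * b k i = if k = k0 then c else 0 := by
      simp only [hv0, mul_assoc]
      rw [← Finset.mul_sum, hu]
      by_cases h : k = k0
      · subst h; simp
      · rw [if_neg h, if_neg (Ne.symm h), mul_zero]
    have h2 : ∑ j, (∑ l, (if j = I l then ∑ i, q i * η i l else 0)) * b k j =
        ∑ i, D * q i * b k i := by
      calc ∑ j, (∑ l, (if j = I l then ∑ i, q i * η i l else 0)) * b k j
          = ∑ l, ∑ j, (if j = I l then (∑ i, q i * η i l) * b k j else 0) := by
            rw [Finset.sum_comm]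
            refine Finset.sum_congr rfl fun j _ => ?_
            rw [Finset.sum_mul]
            refine Finset.sum_congr rfl fun l _ => ?_
            split_ifs <;> simp
        _ = ∑ l, (∑ i, q i * η i l) * b k (I l) := by
            refine Finset.sum_congr rfl fun l _ => ?_
            rw [Finset.sum_ite_eq' Finset.univ (I l)]
            simp
        _ = ∑ i, q i * ∑ l, η i l * b k (I l) := by
            simp only [Finset.sum_mul, Finset.mul_sum]
            rw [Finset.sum_comm]
            refine Finset.sum_congr rfl fun i _ => Finset.sum_congr rfl fun l _ => by ring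
        _ = ∑ i, D * q i * b k i := by
            refine Finset.sum_congr rfl fun i _ => ?_
            rw [hηb]; ring
    calc ∑ i, v i * b k i = ∑ i, v0 i * b k i - ∑ i, D * q i * b k i +
          ∑ j, (∑ l, (if j = I l then ∑ i, q i * η i l else 0)) * b k j := by
          rw [← Finset.sum_sub_distrib, ← Finset.sum_add_distrib]
          refine Finset.sum_congr rfl fun i _ => ?_
          simp only [hv]; ring
      _ = _ := by rw [h2, h1]; ring
  -- the coordinates outside of the range of `I`
  have hout : ∀ j, j ∉ Set.range I → |v j| ≤ |D| := by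
    intro j hj
    have h1 : v j = v0 j % D := by
      simp only [hv, hq, if_neg hj]
      have h2 : ∑ l, (if j = I l then ∑ i, (if i ∈ Set.range I then 0 else v0 i / D) * η i l
          else 0) = 0 := by
        refine Finset.sum_eq_zero fun l _ => ?_
        rw [if_neg]
        rintro rfl
        exact hj ⟨l, rfl⟩
      rw [h2, add_zero]
      have := Int.emod_add_mul_ediv (v0 j) D
      linarith
    rw [h1, abs_of_nonneg (Int.emod_nonneg _ hDne)]
    exact (Int.emod_lt_abs _ hDne).le
  refine ⟨v, hvb, fun j => ?_⟩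
  by_cases hj : j ∈ Set.range I
  · obtain ⟨l0, rfl⟩ := hj
    set ξ : Fin s → ℤ := fun l => v (I l) with hξ
    set c' : Fin s → ℤ := fun k => (if k = k0 then c else 0) -
      ∑ i ∈ Finset.univ.filter (fun i => i ∉ Set.range I), v i * b k i with hc'
    have hMξ : M *ᵥ ξ = c' := by
      funext k
      have h1 := hvb k
      rw [← Finset.sum_filter_add_sum_filter_not Finset.univ (fun i => i ∈ Set.range I)] at h1
      have h2 : ∑ i ∈ Finset.univ.filter (fun i => i ∈ Set.range I), v i * b k i =
          ∑ l, v (I l) * b k (I l) := by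
        rw [← Finset.sum_image (s := Finset.univ) (g := I) (f := fun i => v i * b k i)
          (fun l _ l' _ h => hinj h)]
        congr 1
        ext i
        simp
      rw [h2] at h1
      simp only [hc', Matrix.mulVec, dotProduct, hξ]
      rw [← h1]
      simp only [hM, Matrix.of_apply, add_sub_cancel_right]
      exact Finset.sum_congr rfl fun l _ => mul_comm _ _
    have hDξ : D * ξ l0 = ∑ k, M.adjugate l0 k * c' k := by
      have h1 : M.adjugate *ᵥ (M *ᵥ ξ) = D • ξ := by
        rw [Matrix.mulVec_mulVec, Matrix.adjugate_mul, Matrix.smul_mulVec, Matrix.one_mulVec]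
      rw [hMξ] at h1
      have h2 := congrFun h1 l0
      simp only [Pi.smul_apply, smul_eq_mul] at h2
      rw [← h2]
      rfl
    have hc'b : ∀ k, ((|c' k| : ℤ) : ℝ) ≤ R * (1 + N * A) * nn (b k) := by
      intro k
      have h1 : (|(if k = k0 then c else 0 : ℤ)| : ℝ) ≤ R * nn (b k) := by
        split_ifs with h
        · subst h; exact hc
        · simp only [Int.cast_zero, abs_zero]; positivity
      have h2 : ((|∑ i ∈ Finset.univ.filter (fun i => i ∉ Set.range I), v i * b k i| : ℤ) : ℝ) ≤
          N * A * R * nn (b k) := by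
        have h3 : |∑ i ∈ Finset.univ.filter (fun i => i ∉ Set.range I), v i * b k i| ≤
            N * (|D| * nn (b k)) := by
          refine (Finset.abs_sum_le_sum_abs _ _).trans ?_
          calc ∑ i ∈ Finset.univ.filter (fun i => i ∉ Set.range I), |v i * b k i|
              ≤ ∑ i ∈ Finset.univ.filter (fun i => i ∉ Set.range I), |D| * nn (b k) := by
                refine Finset.sum_le_sum fun i hi => ?_
                rw [abs_mul]
                exact mul_le_mul (hout i (Finset.mem_filter.1 hi).2) (abs_le_nn _ _)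
                  (abs_nonneg _) (abs_nonneg _)
            _ ≤ ∑ i : Fin N, |D| * nn (b k) :=
                Finset.sum_le_sum_of_subset_of_nonneg (Finset.filter_subset _ _)
                  (fun _ _ _ => by positivity)
            _ = N * (|D| * nn (b k)) := by
                rw [Finset.sum_const, Finset.card_univ, Fintype.card_fin, nsmul_eq_mul]
        calc ((|∑ i ∈ Finset.univ.filter (fun i => i ∉ Set.range I), v i * b k i| : ℤ) : ℝ)
            ≤ ((N * (|D| * nn (b k)) : ℤ) : ℝ) := by exact_mod_cast h3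
          _ = N * (((|D| : ℤ) : ℝ) * nn (b k)) := by push_cast; ring
          _ ≤ N * (A * R * nn (b k)) := by gcongr
          _ = N * A * R * nn (b k) := by ring
      have h4 : ((|c' k| : ℤ) : ℝ) ≤ ((|(if k = k0 then c else 0 : ℤ)| : ℤ) : ℝ) +
          ((|∑ i ∈ Finset.univ.filter (fun i => i ∉ Set.range I), v i * b k i| : ℤ) : ℝ) := by
        exact_mod_cast abs_sub _ _
      have h5 : ((|(if k = k0 then c else 0 : ℤ)| : ℤ) : ℝ) ≤ R * nn (b k) := by
        rw [Int.cast_abs]; exact h1
      calc ((|c' k| : ℤ) : ℝ) ≤ R * nn (b k) + N * A * R * nn (b k) := by linarith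
        _ = _ := by ring
    have hadj : ∀ k, ((|M.adjugate l0 k| : ℤ) : ℝ) * nn (b k) ≤
        s.factorial * (2 ^ (s * s) * ((|D| : ℤ) : ℝ)) := by
      intro k
      have h1 := abs_adj_le M (fun k => (nn (b k) : ℤ)) (fun k l => by
        simp only [hM, Matrix.of_apply]; exact abs_le_nn _ _) hb1 l0 k
      have h2 : |M.adjugate l0 k| * (nn (b k) : ℤ) ≤ s.factorial * (2 ^ (s * s) * |D|) :=
        h1.trans (mul_le_mul_of_nonneg_left hI (by positivity))
      exact_mod_cast h2
    have hmain : ((|D| : ℤ) : ℝ) * (|ξ l0| : ℝ) ≤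
        ((|D| : ℤ) : ℝ) * (s * s.factorial * 2 ^ (s * s) * (1 + N * A) * R) := by
      have h1 : ((|D| : ℤ) : ℝ) * (|ξ l0| : ℝ) = ((|∑ k, M.adjugate l0 k * c' k| : ℤ) : ℝ) := by
        rw [← hDξ, abs_mul]; push_cast; ring
      rw [h1]
      have h2 : ((|∑ k, M.adjugate l0 k * c' k| : ℤ) : ℝ) ≤
          ∑ k, ((|M.adjugate l0 k| : ℤ) : ℝ) * ((|c' k| : ℤ) : ℝ) := by
        have := Finset.abs_sum_le_sum_abs (fun k => M.adjugate l0 k * c' k) Finset.univ
        simp only [abs_mul] at this
        exact_mod_cast this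
      refine h2.trans ?_
      calc ∑ k, ((|M.adjugate l0 k| : ℤ) : ℝ) * ((|c' k| : ℤ) : ℝ)
          ≤ ∑ k : Fin s, (s.factorial * (2 ^ (s * s) * ((|D| : ℤ) : ℝ))) * (R * (1 + N * A)) := by
            refine Finset.sum_le_sum fun k _ => ?_
            calc ((|M.adjugate l0 k| : ℤ) : ℝ) * ((|c' k| : ℤ) : ℝ)
                ≤ ((|M.adjugate l0 k| : ℤ) : ℝ) * (R * (1 + N * A) * nn (b k)) :=
                  mul_le_mul_of_nonneg_left (hc'b k) (by exact_mod_cast abs_nonneg _)
              _ = (((|M.adjugate l0 k| : ℤ) : ℝ) * nn (b k)) * (R * (1 + N * A)) := by ring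
              _ ≤ _ := mul_le_mul_of_nonneg_right (hadj k) (by positivity)
        _ = _ := by
            rw [Finset.sum_const, Finset.card_univ, Fintype.card_fin, nsmul_eq_mul]; ring
    have hDr : (0 : ℝ) < ((|D| : ℤ) : ℝ) := by exact_mod_cast hD0
    have h6 := le_of_mul_le_mul_left hmain hDr
    calc (|v (I l0)| : ℝ) ≤ s * s.factorial * 2 ^ (s * s) * (1 + N * A) * R := h6
      _ ≤ Clin N s A * R := by
          unfold Clin
          have : 0 ≤ A * R := by positivity
          nlinarith
  · have h1 := hout j hj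
    have h2 : (|v j| : ℝ) ≤ ((|D| : ℤ) : ℝ) := by exact_mod_cast h1
    calc (|v j| : ℝ) ≤ A * R := h2.trans hD
      _ ≤ Clin N s A * R := by
          unfold Clin
          have : 0 ≤ s * s.factorial * 2 ^ (s * s) * (1 + N * A) * R := by positivity
          nlinarith

end Pool.Agent.Helper54.BP
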