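import Pool.Agent.Helper54.BP.Cnt

set_option autoImplicit false

/-!
# The number of forms vanishing at a fixed point: lower bound
-/

namespace Pool.Agent.Helper54.BP

open MvPolynomial

theorem mem_antidiag {N d : ℕ} (γ : Fin N →₀ ℕ) :
    γ ∈ Finset.finsuppAntidiag (Finset.univ : Finset (Fin N)) d ↔ γ.degree = d := by
  rw [Finset.mem_finsuppAntidiag]
  constructor
  · rintro ⟨h, -⟩
    rw [Finsupp.degree_eq_sum]; exact h
  · intro h
    refine ⟨?_, Finset.subset_univ _⟩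
    rw [← h, Finsupp.degree_eq_sum]

theorem card_Sm_ge (N d : ℕ) {B : ℝ} (hB : 0 ≤ B) :
    B ^ Nm N d ≤ ((Sm N d B).ncard : ℝ) := by
  classical
  set T : Finset (Fin N →₀ ℕ) := Finset.finsuppAntidiag (Finset.univ : Finset (Fin N)) d with hT
  have hcardT : T.card = Nm N d := by
    rw [hT, Finset.card_finsuppAntidiag_nat_eq_choose, Finset.card_univ, Fintype.card_fin, Nm]
  set S : Finset (T → ℤ) := Fintype.piFinset fun _ : T => Finset.Icc (-⌊B⌋) ⌊B⌋ with hS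
  set ψ : (T → ℤ) → MvPolynomial (Fin N) ℤ :=
    fun c => ∑ γ : T, monomial (γ : Fin N →₀ ℕ) (c γ) with hψ
  have hcoeff : ∀ c γ, coeff γ (ψ c) = if h : γ ∈ T then c ⟨γ, h⟩ else 0 := by
    intro c γ
    simp only [hψ, coeff_sum, coeff_monomial]
    split_ifs with h
    · rw [Finset.sum_eq_single ⟨γ, h⟩]
      · simp
      · intro δ _ hδ
        rw [if_neg]
        intro h2
        exact hδ (Subtype.ext h2)
      · intro h2; exact absurd (Finset.mem_univ _) h2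
    · refine Finset.sum_eq_zero fun δ _ => ?_
      rw [if_neg]
      intro h2
      exact h (h2 ▸ δ.2)
  have hmem : ∀ c ∈ S, ψ c ∈ Sm N d B := by
    intro c hc
    rw [hS, Fintype.mem_piFinset] at hc
    constructor
    · rw [hψ]
      refine IsHomogeneous.sum _ _ _ fun γ _ => isHomogeneous_monomial _ ?_
      exact (mem_antidiag _).1 γ.2
    · intro γ
      rw [hcoeff]
      split_ifs with h
      · have := hc ⟨γ, h⟩
        rw [Finset.mem_Icc, neg_le, Int.le_floor, Int.le_floor] at this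
        rw [abs_le]
        push_cast at this
        constructor <;> linarith [this.1, this.2]
      · simpa using hB
  have hinj : Set.InjOn ψ S := by
    intro c _ c' _ h
    funext γ
    have h2 := congrArg (coeff (γ : Fin N →₀ ℕ)) h
    rw [hcoeff, hcoeff, dif_pos γ.2, dif_pos γ.2] at h2
    exact h2
  have h1 : S.card ≤ (Sm N d B).ncard := by
    rw [← Set.ncard_coe_finset]
    exact Set.ncard_le_ncard_of_injOn ψ (fun c hc => hmem c hc) hinj (Sm_aux N d hB).1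
  have hbase : B ≤ ((Finset.Icc (-⌊B⌋) ⌊B⌋).card : ℝ) := by
    rw [Int.card_Icc]
    have h0 : 0 ≤ ⌊B⌋ := Int.floor_nonneg.2 hB
    have h3 : ((⌊B⌋ + 1 - -⌊B⌋).toNat : ℤ) = 2 * ⌊B⌋ + 1 := by
      rw [Int.toNat_of_nonneg (by omega)]; ring
    have h4 : (((⌊B⌋ + 1 - -⌊B⌋).toNat : ℤ) : ℝ) = 2 * ⌊B⌋ + 1 := by rw [h3]; push_cast; ring
    have h5 : (((⌊B⌋ + 1 - -⌊B⌋).toNat : ℕ) : ℝ) = 2 * ⌊B⌋ + 1 := by exact_mod_cast h4
    rw [h5]
    have := Int.lt_floor_add_one B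
    have : (0 : ℝ) ≤ ⌊B⌋ := by exact_mod_cast h0
    linarith
  have h3 : S.card = (Finset.Icc (-⌊B⌋) ⌊B⌋).card ^ Nm N d := by
    rw [hS, Fintype.card_piFinset, Finset.prod_const, Finset.card_univ, Fintype.card_coe, hcardT]
  calc B ^ Nm N d ≤ ((Finset.Icc (-⌊B⌋) ⌊B⌋).card : ℝ) ^ Nm N d :=
        pow_le_pow_left₀ hB hbase _
    _ = (S.card : ℝ) := by rw [h3]; push_cast; rfl
    _ ≤ _ := by exact_mod_cast h1

/-- the values at a point in coordinates -/
theorem coords {K : Type} [Field K] [NumberField K] {N : ℕ} (d : ℕ) (x : Fin N → K) :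
    ∃ z : (Fin N →₀ ℕ) → Fin (Module.finrank ℚ K) → ℤ, ∀ F : MvPolynomial (Fin N) ℤ,
      F.IsHomogeneous d →
      (∀ r, ∑ γ ∈ Finset.finsuppAntidiag (Finset.univ : Finset (Fin N)) d,
        coeff γ F * z γ r = 0) → aeval x F = 0 := by
  classical
  obtain ⟨T, hT⟩ : ∃ T, T = Finset.finsuppAntidiag (Finset.univ : Finset (Fin N)) d := ⟨_, rfl⟩
  rw [← hT]
  let ω := Module.finBasis ℚ K
  obtain ⟨mon, hmon⟩ : ∃ mon : (Fin N →₀ ℕ) → K, ∀ γ, mon γ = ∏ i ∈ γ.support, x i ^ γ i :=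
    ⟨_, fun _ => rfl⟩
  obtain ⟨D, hD⟩ := IsLocalization.exist_integer_multiples_of_finite (nonZeroDivisors ℤ)
    (fun p : T × Fin (Module.finrank ℚ K) => ω.repr (mon p.1) p.2)
  choose z hz using hD
  have hD0 : ((D : ℤ) : ℚ) ≠ 0 := by exact_mod_cast nonZeroDivisors.ne_zero D.2
  refine ⟨fun γ r => if h : γ ∈ T then z (⟨γ, h⟩, r) else 0, fun F hF h => ?_⟩
  have hz' : ∀ γ ∈ T, ∀ r, (((if h : γ ∈ T then z (⟨γ, h⟩, r) else 0 : ℤ)) : ℚ) =
      ((D : ℤ) : ℚ) * ω.repr (mon γ) r := by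
    intro γ hγ r
    rw [dif_pos hγ]
    have h8 : (algebraMap ℤ ℚ) (z (⟨γ, hγ⟩, r)) = (D : ℤ) • ω.repr (mon γ) r := hz (⟨γ, hγ⟩, r)
    rw [zsmul_eq_mul] at h8
    exact h8
  have h1 : aeval x F = ∑ γ ∈ T, ((coeff γ F : ℤ) : K) * mon γ := by
    rw [aeval_def, eval₂_eq]
    have h2 : F.support ⊆ T := by
      intro γ hγ
      rw [hT, mem_antidiag]
      by_contra h3
      exact mem_support_iff.1 hγ (hF.coeff_eq_zero h3)
    rw [Finset.sum_subset h2 (fun γ _ hγ => by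
      rw [notMem_support_iff.1 hγ]; simp)]
    refine Finset.sum_congr rfl fun γ _ => ?_
    rw [hmon]; rfl
  rw [h1]
  apply ω.repr.injective
  rw [map_zero]
  ext r
  have h2 := h r
  have h3 : ω.repr (∑ γ ∈ T, ((coeff γ F : ℤ) : K) * mon γ) r =
      ∑ γ ∈ T, ((coeff γ F : ℤ) : ℚ) * ω.repr (mon γ) r := by
    rw [map_sum, Finsupp.finsetSum_apply]
    refine Finset.sum_congr rfl fun γ _ => ?_
    have h4 : ((coeff γ F : ℤ) : K) * mon γ = ((coeff γ F : ℤ) : ℚ) • mon γ := by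
      rw [Algebra.smul_def]; simp
    rw [h4, map_smul]
    rfl
  rw [h3]
  have h4 : ((D : ℤ) : ℚ) * ∑ γ ∈ T, ((coeff γ F : ℤ) : ℚ) * ω.repr (mon γ) r = 0 := by
    have h5 : ∀ γ ∈ T, ((D : ℤ) : ℚ) * (((coeff γ F : ℤ) : ℚ) * ω.repr (mon γ) r) =
        ((coeff γ F * (if h : γ ∈ T then z (⟨γ, h⟩, r) else 0) : ℤ) : ℚ) := by
      intro γ hγ
      rw [Int.cast_mul, hz' γ hγ r]; ring
    rw [Finset.mul_sum, Finset.sum_congr rfl h5, ← Int.cast_sum, h2, Int.cast_zero]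
  simpa using (mul_eq_zero.1 h4).resolve_left hD0

theorem card_Icc_le {B : ℝ} (hB : 0 ≤ B) : ((Finset.Icc (-⌊B⌋) ⌊B⌋).card : ℝ) ≤ 2 * B + 1 := by
  rw [Int.card_Icc]
  have h0 : 0 ≤ ⌊B⌋ := Int.floor_nonneg.2 hB
  have h3 : ((⌊B⌋ + 1 - -⌊B⌋).toNat : ℤ) = 2 * ⌊B⌋ + 1 := by
    rw [Int.toNat_of_nonneg (by omega)]; ring
  have h4 : (((⌊B⌋ + 1 - -⌊B⌋).toNat : ℤ) : ℝ) = 2 * ⌊B⌋ + 1 := by rw [h3]; push_cast; ring
  have h5 : (((⌊B⌋ + 1 - -⌊B⌋).toNat : ℕ) : ℝ) = 2 * ⌊B⌋ + 1 := by exact_mod_cast h4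
  rw [h5]
  have := Int.floor_le B
  linarith

theorem pigeon {N d m : ℕ} (z : (Fin N →₀ ℕ) → Fin m → ℤ) (P : MvPolynomial (Fin N) ℤ → Prop)
    (hP : ∀ F : MvPolynomial (Fin N) ℤ, F.IsHomogeneous d →
      (∀ r, ∑ γ ∈ Finset.finsuppAntidiag (Finset.univ : Finset (Fin N)) d,
        coeff γ F * z γ r = 0) → P F) :
    ∃ L : ℝ, 0 ≤ L ∧ ∀ H : ℝ, 1 ≤ H →
      (H / 2) ^ Nm N d ≤ ((Sm N d H ∩ {F | P F}).ncard : ℝ) * ((L + 1) * H) ^ m := by
  classical
  obtain ⟨T, hT⟩ : ∃ T, T = Finset.finsuppAntidiag (Finset.univ : Finset (Fin N)) d := ⟨_, rfl⟩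
  rw [← hT] at hP
  obtain ⟨φ, hφ⟩ : ∃ φ : MvPolynomial (Fin N) ℤ → (Fin m → ℤ),
    ∀ F r, φ F r = ∑ γ ∈ T, coeff γ F * z γ r := ⟨fun F r => _, fun _ _ => rfl⟩
  have hφsub : ∀ F G, φ (F - G) = φ F - φ G := by
    intro F G
    funext r
    rw [Pi.sub_apply, hφ, hφ, hφ, ← Finset.sum_sub_distrib]
    refine Finset.sum_congr rfl fun γ _ => ?_
    rw [coeff_sub]; ring
  obtain ⟨L, hL0, hL⟩ : ∃ L : ℝ, 0 ≤ L ∧ ∀ r, ∑ γ ∈ T, |(z γ r : ℝ)| ≤ L := by
    refine ⟨∑ r, ∑ γ ∈ T, |(z γ r : ℝ)|, Finset.sum_nonneg fun r _ =>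
      Finset.sum_nonneg fun γ _ => abs_nonneg _, fun r => ?_⟩
    exact Finset.single_le_sum (f := fun r => ∑ γ ∈ T, |(z γ r : ℝ)|)
      (fun r _ => Finset.sum_nonneg fun γ _ => abs_nonneg _) (Finset.mem_univ r)
  have hφle : ∀ (B : ℝ), 0 ≤ B → ∀ F ∈ Sm N d B, ∀ r, |((φ F r : ℤ) : ℝ)| ≤ L * B := by
    intro B hB F hF r
    rw [hφ, Int.cast_sum]
    refine (Finset.abs_sum_le_sum_abs _ _).trans ?_
    calc ∑ γ ∈ T, |((coeff γ F * z γ r : ℤ) : ℝ)| ≤ ∑ γ ∈ T, |(z γ r : ℝ)| * B := by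
          refine Finset.sum_le_sum fun γ _ => ?_
          rw [Int.cast_mul, abs_mul, mul_comm]
          exact mul_le_mul_of_nonneg_left (hF.2 γ) (abs_nonneg _)
      _ ≤ L * B := by
          rw [← Finset.sum_mul]
          exact mul_le_mul_of_nonneg_right (hL r) hB
  refine ⟨L, hL0, fun H hH => ?_⟩
  have hH0 : 0 < H := by linarith
  have hH2 : 0 ≤ H / 2 := by linarith
  have hfin := (Sm_aux N d hH2).1
  have hfinH := (Sm_aux N d hH0.le).1
  have hfinA : (Sm N d H ∩ {F | P F}).Finite := hfinH.subset Set.inter_subset_left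
  obtain ⟨S, hS⟩ : ∃ S : Finset (MvPolynomial (Fin N) ℤ), S = hfin.toFinset := ⟨_, rfl⟩
  have hmemS : ∀ F, F ∈ S ↔ F ∈ Sm N d (H / 2) := fun F => by
    rw [hS, Set.Finite.mem_toFinset]
  obtain ⟨BX, hBX⟩ : ∃ BX : Finset (Fin m → ℤ), BX =
    Fintype.piFinset fun _ => Finset.Icc (-⌊L * (H / 2)⌋) ⌊L * (H / 2)⌋ := ⟨_, rfl⟩
  have hmaps : ∀ F ∈ S, φ F ∈ BX := by
    intro F hF
    rw [hmemS] at hF
    rw [hBX, Fintype.mem_piFinset]
    intro r
    have := hφle (H / 2) hH2 F hF r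
    rw [abs_le] at this
    rw [Finset.mem_Icc, neg_le, Int.le_floor, Int.le_floor]
    push_cast
    constructor <;> linarith [this.1, this.2]
  have hfib : ∀ v ∈ BX, (S.filter fun F => φ F = v).card ≤ (Sm N d H ∩ {F | P F}).ncard := by
    intro v _
    rcases Finset.eq_empty_or_nonempty (S.filter fun F => φ F = v) with h0 | ⟨G, hG⟩
    · rw [h0]; simp
    rw [Finset.mem_filter, hmemS] at hG
    rw [← Set.ncard_coe_finset]
    refine Set.ncard_le_ncard_of_injOn (fun F => F - G) ?_ ?_ hfinA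
    · intro F hF
      rw [Finset.mem_coe, Finset.mem_filter, hmemS] at hF
      have hS : F - G ∈ Sm N d H := by
        constructor
        · exact hF.1.1.sub hG.1.1
        · intro γ
          rw [coeff_sub]
          push_cast
          have h1 := hF.1.2 γ
          have h2 := hG.1.2 γ
          rw [abs_le] at h1 h2 ⊢
          constructor <;> linarith [h1.1, h1.2, h2.1, h2.2]
      refine ⟨hS, hP _ hS.1 fun r => ?_⟩
      rw [← hφ, hφsub, hF.2, hG.2, sub_self]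
      rfl
    · intro F _ F' _ h
      exact sub_left_injective h
  have hcount := Finset.card_le_mul_card_image_of_maps_to hmaps _ hfib
  have hcardBX : (BX.card : ℝ) ≤ ((L + 1) * H) ^ m := by
    rw [hBX, Fintype.card_piFinset, Finset.prod_const, Finset.card_univ, Fintype.card_fin,
      Nat.cast_pow]
    refine pow_le_pow_left₀ (Nat.cast_nonneg _) ?_ m
    have := card_Icc_le (B := L * (H / 2)) (by positivity)
    linarith
  have hcardS : (H / 2) ^ Nm N d ≤ (S.card : ℝ) := by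
    have := card_Sm_ge N d hH2
    rwa [Set.ncard_eq_toFinset_card _ hfin, ← hS] at this
  refine hcardS.trans ?_
  calc (S.card : ℝ) ≤ (((Sm N d H ∩ {F | P F}).ncard * BX.card : ℕ) : ℝ) := by
        exact_mod_cast hcount
    _ = ((Sm N d H ∩ {F | P F}).ncard : ℝ) * BX.card := by push_cast; ring
    _ ≤ _ := mul_le_mul_of_nonneg_left hcardBX (Nat.cast_nonneg _)

/-- **The forms which vanish at a fixed point.** -/
theorem fiber {K : Type} [Field K] [NumberField K] {N m : ℕ} (d : ℕ)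
    (hm : Module.finrank ℚ K = m) (x : Fin N → K) :
    ∃ c : ℝ, 0 < c ∧ ∀ H : ℝ, 1 ≤ H →
      c * H ^ Nm N d ≤ ((Sm N d H ∩ {F | aeval x F = 0}).ncard : ℝ) * H ^ m := by
  subst hm
  obtain ⟨z, hz⟩ := coords d x
  obtain ⟨L, hL0, hL⟩ := pigeon z (fun F => aeval x F = 0) hz
  refine ⟨(1 / 2) ^ Nm N d / (L + 1) ^ Module.finrank ℚ K, by positivity, fun H hH => ?_⟩
  have h1 := hL H hH
  have h2 : (H / 2) ^ Nm N d = (1 / 2) ^ Nm N d * H ^ Nm N d := by
    rw [← mul_pow]; congr 1; ring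
  rw [h2, mul_pow] at h1
  rw [div_mul_eq_mul_div, div_le_iff₀ (by positivity)]
  linarith

theorem field_aux {K : Type} [Field K] [inst : Algebra ℚ K] {m : ℕ}
    (hfd : FiniteDimensional ℚ K) (hfin : Module.finrank ℚ K = m) (θ : K)
    (hθ : IntermediateField.adjoin ℚ {θ} = ⊤) :
    ∃ (K : Type) (_ : Field K) (_ : NumberField K) (θ : K),
      Module.finrank ℚ K = m ∧ IntermediateField.adjoin ℚ {θ} = ⊤ := by
  have hc : CharZero K := charZero_of_injective_algebraMap (algebraMap ℚ K).injective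
  have h : inst = DivisionRing.toRatAlgebra := Subsingleton.elim _ _
  subst h
  exact ⟨K, inferInstance, { to_charZero := hc, to_finiteDimensional := hfd }, θ, hfin, hθ⟩

/-- there are number fields of every degree, with a generator -/
theorem exists_field (m : ℕ) (hm : 1 ≤ m) : ∃ (K : Type) (_ : Field K) (_ : NumberField K) (θ : K),
    Module.finrank ℚ K = m ∧ IntermediateField.adjoin ℚ {θ} = ⊤ := by
  classical
  obtain ⟨f, hf⟩ : ∃ f : Polynomial ℤ, f = Polynomial.X ^ m - Polynomial.C 2 := ⟨_, rfl⟩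
  have hdeg : f.natDegree = m := by rw [hf]; exact Polynomial.natDegree_X_pow_sub_C
  have hmonic : f.Monic := by rw [hf]; exact Polynomial.monic_X_pow_sub_C _ (by omega)
  have hirr : Irreducible f := by
    refine Polynomial.IsEisensteinAt.irreducible (𝓟 := Ideal.span {(2 : ℤ)}) ?_ ?_
      hmonic.isPrimitive (by omega)
    · refine ⟨?_, ?_, ?_⟩
      · rw [hmonic.leadingCoeff, Ideal.mem_span_singleton]
        norm_num
      · intro k hk
        rw [hdeg] at hk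
        rw [hf, Polynomial.coeff_sub, Polynomial.coeff_X_pow, if_neg (by omega), Polynomial.coeff_C,
          Ideal.mem_span_singleton]
        split_ifs <;> norm_num
      · rw [hf, Polynomial.coeff_sub, Polynomial.coeff_X_pow, if_neg (by omega),
          Polynomial.coeff_C_zero, Ideal.span_singleton_pow, Ideal.mem_span_singleton]
        norm_num
    · rw [Ideal.span_singleton_prime (by norm_num)]
      exact Int.prime_two
  have hirrQ : Irreducible (f.map (algebraMap ℤ ℚ)) :=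
    (hmonic.irreducible_iff_irreducible_map_fraction_map (K := ℚ)).1 hirr
  obtain ⟨g, hg⟩ : ∃ g, g = f.map (algebraMap ℤ ℚ) := ⟨_, rfl⟩
  rw [← hg] at hirrQ
  have : Fact (Irreducible g) := ⟨hirrQ⟩
  have hg0 : g ≠ 0 := hirrQ.ne_zero
  let pb := AdjoinRoot.powerBasis hg0
  refine field_aux (K := AdjoinRoot g) pb.finite ?_ (AdjoinRoot.root g)
    (IntermediateField.adjoin_eq_top_of_algebra _ _ (AdjoinRoot.adjoinRoot_eq_top (f := g)))
  rw [pb.finrank, AdjoinRoot.powerBasis_dim, hg, hmonic.natDegree_map, hdeg]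

end Pool.Agent.Helper54.BP
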