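import Pool.Agent.Helper54.BP.Sum
import Pool.Agent.Helper54.BP.Low

set_option autoImplicit false

/-!
# Both bounds
-/

namespace Pool.Agent.Helper54.BP

open MvPolynomial

/-- the nonzero forms with a point of degree `m` and height at most `X` -/
def Bad (n d m : ℕ) (H X : ℝ) : Set (MvPolynomial (Fin (n + 1)) ℤ) :=
  {F | (F ≠ 0 ∧ F.IsHomogeneous d ∧ ∀ γ, |((coeff γ F : ℤ) : ℝ)| ≤ H) ∧ HasPt n m X F}

theorem Bad_subset (n d m : ℕ) (H X : ℝ) : Bad n d m H X ⊆ Sm (n + 1) d H ∩ {F | HasPt n m X F} :=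
  fun _ hF => ⟨⟨hF.1.2.1, hF.1.2.2⟩, hF.2⟩

theorem Bad_finite (n d m : ℕ) {H : ℝ} (hH : 0 ≤ H) (X : ℝ) : (Bad n d m H X).Finite :=
  ((Sm_aux (n + 1) d hH).1.subset Set.inter_subset_left).subset (Bad_subset n d m H X)

theorem lt_choose {n m d : ℕ} (hn : 1 ≤ n) (hmd : m ^ 2 + m ≤ d + 1) :
    m + 1 ≤ (n + d).choose d ∨ m = 0 := by
  rcases Nat.eq_zero_or_pos m with h | h
  · exact Or.inr h
  left
  have h1 : (1 + d).choose d ≤ (n + d).choose d := Nat.choose_le_choose d (by omega)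
  have h2 : (1 + d).choose d = d + 1 := by rw [Nat.add_comm, Nat.choose_succ_self_right]
  nlinarith

theorem upper {n m d : ℕ} (hn : 1 ≤ n) (hm : 1 ≤ m) (hd : n + 2 ≤ d) (hmd : m ^ 2 + m ≤ d + 1)
    {A : ℝ} (hA : 0 ≤ A) : ∃ C : ℝ, 0 ≤ C ∧ ∀ H : ℝ, 1 ≤ H →
      ((Bad n d m H (A * H)).ncard : ℝ) ≤ C * H ^ ((n + d).choose d - m) := by
  obtain ⟨C, hC0, hC⟩ := count_upper (n := n) hd hmd hm hA
  refine ⟨C, hC0, fun H hH => ?_⟩
  have hH0 : 0 < H := by linarith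
  have h1 := hC H hH
  have h2 : Nm (n + 1) d = (n + d).choose d := by
    unfold Nm; congr 1; omega
  have h3 : m ≤ (n + d).choose d := by
    rcases lt_choose hn hmd with h | h <;> omega
  have h4 : H ^ Nm (n + 1) d = H ^ ((n + d).choose d - m) * H ^ m := by
    rw [h2, ← pow_add]; congr 1; omega
  have h5 : ((Bad n d m H (A * H)).ncard : ℝ) ≤
      ((Sm (n + 1) d H ∩ {F | HasPt n m (A * H) F}).ncard : ℝ) := by
    exact_mod_cast Set.ncard_le_ncard (Bad_subset n d m H (A * H))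
      ((Sm_aux (n + 1) d hH0.le).1.subset Set.inter_subset_left)
  rw [h4, ← mul_assoc] at h1
  exact h5.trans (le_of_mul_le_mul_right h1 (pow_pos hH0 m))

theorem lower {n m d : ℕ} (hn : 1 ≤ n) (hm : 1 ≤ m) (hmd : m ^ 2 + m ≤ d + 1)
    {A : ℝ} (hA : 0 < A) : ∃ c H₀ : ℝ, 0 < c ∧ ∀ H : ℝ, H₀ ≤ H →
      c * H ^ ((n + d).choose d - m) ≤ ((Bad n d m H (A * H)).ncard : ℝ) := by
  classical
  obtain ⟨K, i1, i2, θ, hfin, hθ⟩ := exists_field m hm
  set x : Fin (n + 1) → K := fun i => if (i : ℕ) = 0 then 1 else if (i : ℕ) = 1 then θ else 0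
    with hx
  have hx0 : x ⟨0, by omega⟩ = 1 := by simp [hx]
  have hx1 : x ⟨1, by omega⟩ = θ := by simp [hx]
  have hxne : x ≠ 0 := by
    intro h
    have := congrFun h ⟨0, by omega⟩
    rw [hx0] at this
    exact one_ne_zero this
  have hgen : IntermediateField.adjoin ℚ {z : K | ∃ i j, z = x i / x j} = ⊤ := by
    rw [eq_top_iff, ← hθ, IntermediateField.adjoin_le_iff, Set.singleton_subset_iff]
    refine IntermediateField.subset_adjoin _ _ ⟨⟨1, by omega⟩, ⟨0, by omega⟩, ?_⟩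
    rw [hx0, hx1, div_one]
  obtain ⟨c, hc0, hc⟩ := fiber d hfin x
  have h2 : Nm (n + 1) d = (n + d).choose d := by
    unfold Nm; congr 1; omega
  have h3 : m + 1 ≤ (n + d).choose d := by
    rcases lt_choose hn hmd with h | h <;> omega
  refine ⟨c / 2, max 1 (max (Height.mulHeight x / A) (2 / c)), by positivity, fun H hH => ?_⟩
  have hH1 : 1 ≤ H := (le_max_left _ _).trans hH
  have hHA : Height.mulHeight x / A ≤ H := (le_max_left _ _).trans ((le_max_right _ _).trans hH)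
  have hHc : 2 / c ≤ H := (le_max_right _ _).trans ((le_max_right _ _).trans hH)
  have hH0 : 0 < H := by linarith
  have hAH : Height.mulHeight x ≤ A * H := by
    rw [div_le_iff₀ hA] at hHA; linarith
  have h4 : H ^ Nm (n + 1) d = H ^ ((n + d).choose d - m) * H ^ m := by
    rw [h2, ← pow_add]; congr 1; omega
  have h1 := hc H hH1
  rw [h4, ← mul_assoc] at h1
  have h5 := le_of_mul_le_mul_right h1 (pow_pos hH0 m)
  have hfinS := (Sm_aux (n + 1) d hH0.le).1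
  have h6 : (Sm (n + 1) d H ∩ {F | aeval x F = 0}).ncard ≤ (Bad n d m H (A * H)).ncard + 1 := by
    have h7 : Sm (n + 1) d H ∩ {F | aeval x F = 0} ⊆ insert 0 (Bad n d m H (A * H)) := by
      rintro F ⟨hF, hF2⟩
      by_cases h0 : F = 0
      · exact Or.inl h0
      · exact Or.inr ⟨⟨h0, hF.1, hF.2⟩, K, i1, i2, x, hxne, hfin, hgen, hAH, hF2⟩
    exact (Set.ncard_le_ncard h7 ((Bad_finite n d m hH0.le _).insert 0)).trans
      (Set.ncard_insert_le _ _)
  have h7 : ((Sm (n + 1) d H ∩ {F | aeval x F = 0}).ncard : ℝ) ≤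
      ((Bad n d m H (A * H)).ncard : ℝ) + 1 := by exact_mod_cast h6
  have h8 : 2 ≤ c * H ^ ((n + d).choose d - m) := by
    have h9 : H ≤ H ^ ((n + d).choose d - m) := le_self_pow₀ hH1 (by omega)
    calc (2 : ℝ) = c * (2 / c) := by field_simp
      _ ≤ c * H := mul_le_mul_of_nonneg_left hHc hc0.le
      _ ≤ _ := mul_le_mul_of_nonneg_left h9 hc0.le
  linarith

/-- the number of all forms -/
theorem card_forms (n d : ℕ) : ∀ H : ℝ, 2 ≤ H →
    H ^ (n + d).choose d / 2 ≤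
      (({F : MvPolynomial (Fin (n + 1)) ℤ | F ≠ 0 ∧ F.IsHomogeneous d ∧
        ∀ γ, |((coeff γ F : ℤ) : ℝ)| ≤ H}).ncard : ℝ) ∧
    (({F : MvPolynomial (Fin (n + 1)) ℤ | F ≠ 0 ∧ F.IsHomogeneous d ∧
        ∀ γ, |((coeff γ F : ℤ) : ℝ)| ≤ H}).ncard : ℝ) ≤ 3 ^ (n + d).choose d *
          H ^ (n + d).choose d := by
  classical
  intro H hH
  have hH0 : 0 ≤ H := by linarith
  have h2 : Nm (n + 1) d = (n + d).choose d := by
    unfold Nm; congr 1; omega
  obtain ⟨hfin, hle⟩ := Sm_aux (n + 1) d hH0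
  have hge := card_Sm_ge (n + 1) d hH0
  rw [h2] at hle hge
  set S := {F : MvPolynomial (Fin (n + 1)) ℤ | F ≠ 0 ∧ F.IsHomogeneous d ∧
        ∀ γ, |((coeff γ F : ℤ) : ℝ)| ≤ H} with hS
  have hsub : S ⊆ Sm (n + 1) d H := fun F hF => ⟨hF.2.1, hF.2.2⟩
  have hsub2 : Sm (n + 1) d H ⊆ insert 0 S := by
    intro F hF
    by_cases h0 : F = 0
    · exact Or.inl h0
    · exact Or.inr ⟨h0, hF.1, hF.2⟩
  have h3 : ((Sm (n + 1) d H).ncard : ℝ) ≤ (S.ncard : ℝ) + 1 := by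
    have := (Set.ncard_le_ncard hsub2 ((hfin.subset hsub).insert 0)).trans
      (Set.ncard_insert_le _ _)
    exact_mod_cast this
  have hM : 1 ≤ (n + d).choose d := Nat.choose_pos (by omega)
  constructor
  · have h4 : 2 ≤ H ^ (n + d).choose d := by
      calc (2 : ℝ) ≤ H := hH
        _ ≤ _ := le_self_pow₀ (by linarith) (by omega)
    linarith
  · calc (S.ncard : ℝ) ≤ ((Sm (n + 1) d H).ncard : ℝ) := by
          exact_mod_cast Set.ncard_le_ncard hsub hfin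
      _ ≤ (2 * H + 1) ^ (n + d).choose d := hle
      _ ≤ (3 * H) ^ (n + d).choose d := pow_le_pow_left₀ (by linarith) (by linarith) _
      _ = _ := by rw [mul_pow]

theorem exact_order {n m d : ℕ} (hn : 1 ≤ n) (hm : 1 ≤ m) (hd : n + 2 ≤ d)
    (hmd : m ^ 2 + m ≤ d + 1) {A : ℝ} (hA : 0 < A) :
    ∃ c C H₀ : ℝ, 0 < c ∧ 0 < C ∧ ∀ H : ℝ, H₀ ≤ H →
      c / H ^ m * (({F : MvPolynomial (Fin (n + 1)) ℤ | F ≠ 0 ∧ F.IsHomogeneous d ∧
        ∀ γ, |((coeff γ F : ℤ) : ℝ)| ≤ H}).ncard : ℝ) ≤ ((Bad n d m H (A * H)).ncard : ℝ) ∧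
      ((Bad n d m H (A * H)).ncard : ℝ) ≤
      C / H ^ m * (({F : MvPolynomial (Fin (n + 1)) ℤ | F ≠ 0 ∧ F.IsHomogeneous d ∧
        ∀ γ, |((coeff γ F : ℤ) : ℝ)| ≤ H}).ncard : ℝ) := by
  obtain ⟨c, H₁, hc0, hc⟩ := lower (d := d) hn hm hmd hA
  obtain ⟨C, hC0, hC⟩ := upper hn hm hd hmd hA.le
  have hM : m + 1 ≤ (n + d).choose d := by
    rcases lt_choose hn hmd with h | h <;> omega
  refine ⟨c / 3 ^ (n + d).choose d, 2 * C + 1, max 2 H₁, by positivity, by positivity,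
    fun H hH => ?_⟩
  have hH2 : 2 ≤ H := (le_max_left _ _).trans hH
  have hH0 : 0 < H := by linarith
  have hlow := hc H ((le_max_right _ _).trans hH)
  have hup := hC H (by linarith)
  obtain ⟨h1, h2⟩ := card_forms n d H hH2
  have hpm : 0 < H ^ m := pow_pos hH0 m
  have hsplit : H ^ (n + d).choose d = H ^ ((n + d).choose d - m) * H ^ m := by
    rw [← pow_add]; congr 1; omega
  rw [hsplit] at h1 h2
  constructor
  · refine le_trans ?_ hlow
    calc c / 3 ^ (n + d).choose d / H ^ m * _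
        ≤ c / 3 ^ (n + d).choose d / H ^ m *
          (3 ^ (n + d).choose d * (H ^ ((n + d).choose d - m) * H ^ m)) :=
          mul_le_mul_of_nonneg_left h2 (by positivity)
      _ = _ := by field_simp
  · refine hup.trans ?_
    calc C * H ^ ((n + d).choose d - m)
        ≤ (2 * C + 1) * H ^ ((n + d).choose d - m) / 2 := by
          have : 0 < H ^ ((n + d).choose d - m) := pow_pos hH0 _
          nlinarith
      _ = (2 * C + 1) / H ^ m * (H ^ ((n + d).choose d - m) * H ^ m / 2) := by field_simp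
      _ ≤ _ := mul_le_mul_of_nonneg_left h1 (by positivity)

theorem exclusion {n r m d : ℕ} (hn : 1 ≤ n) (hr : 1 ≤ r) (hd : n + 2 ≤ d)
    (hmd : m ^ 2 + m ≤ d + 1) (hrm : r < m) {A : ℝ} (hA : 0 < A) :
    ∃ C H₀ : ℝ, 0 < C ∧ ∀ H : ℝ, H₀ ≤ H →
      ((Bad n d r H (A * H) ∩ {F | ∃ q, r < q ∧ q ≤ m ∧ HasPt n q (A * H) F}).ncard : ℝ) ≤
        C / H * ((Bad n d r H (A * H)).ncard : ℝ) := by
  classical
  have hrmd : r ^ 2 + r ≤ d + 1 := by nlinarith
  obtain ⟨c, H₁, hc0, hc⟩ := lower (d := d) hn hr hrmd hA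
  have hq : ∀ q ∈ Finset.Ioc r m, ∃ C : ℝ, 0 ≤ C ∧ ∀ H : ℝ, 1 ≤ H →
      ((Bad n d q H (A * H)).ncard : ℝ) ≤ C * H ^ ((n + d).choose d - q) := by
    intro q hq
    rw [Finset.mem_Ioc] at hq
    exact upper hn (by omega) hd (by nlinarith [hq.1, hq.2]) hA.le
  choose! C hC0 hC using hq
  have hS0 : 0 ≤ ∑ q ∈ Finset.Ioc r m, C q := Finset.sum_nonneg hC0
  refine ⟨(∑ q ∈ Finset.Ioc r m, C q + 1) / c, max 1 H₁, by positivity, fun H hH => ?_⟩
  have hH1 : 1 ≤ H := (le_max_left _ _).trans hH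
  have hH0 : 0 < H := by linarith
  have hlow := hc H ((le_max_right _ _).trans hH)
  have hMr : r + 1 ≤ (n + d).choose d := by
    rcases lt_choose hn hrmd with h | h <;> omega
  have h1 : (Bad n d r H (A * H) ∩ {F | ∃ q, r < q ∧ q ≤ m ∧ HasPt n q (A * H) F}).ncard ≤
      ∑ q ∈ Finset.Ioc r m, (Bad n d q H (A * H)).ncard := by
    have h2 : Bad n d r H (A * H) ∩ {F | ∃ q, r < q ∧ q ≤ m ∧ HasPt n q (A * H) F} ⊆
        ⋃ q ∈ Finset.Ioc r m, Bad n d q H (A * H) := by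
      rintro F ⟨hF, q, hq1, hq2, hF2⟩
      simp only [Set.mem_iUnion]
      exact ⟨q, Finset.mem_Ioc.2 ⟨hq1, hq2⟩, hF.1, hF2⟩
    refine (Set.ncard_le_ncard h2 ?_).trans (Finset.set_ncard_biUnion_le _ _)
    exact Set.Finite.biUnion (Finset.finite_toSet _) fun q _ => Bad_finite n d q hH0.le _
  have h2 : ((Bad n d r H (A * H) ∩ {F | ∃ q, r < q ∧ q ≤ m ∧ HasPt n q (A * H) F}).ncard : ℝ) ≤
      (∑ q ∈ Finset.Ioc r m, C q) * H ^ ((n + d).choose d - r - 1) := by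
    calc ((Bad n d r H (A * H) ∩ {F | ∃ q, r < q ∧ q ≤ m ∧ HasPt n q (A * H) F}).ncard : ℝ)
        ≤ ((∑ q ∈ Finset.Ioc r m, (Bad n d q H (A * H)).ncard : ℕ) : ℝ) := by exact_mod_cast h1
      _ = ∑ q ∈ Finset.Ioc r m, ((Bad n d q H (A * H)).ncard : ℝ) := by push_cast; rfl
      _ ≤ ∑ q ∈ Finset.Ioc r m, C q * H ^ ((n + d).choose d - r - 1) := by
          refine Finset.sum_le_sum fun q hq => (hC q hq H hH1).trans ?_
          rw [Finset.mem_Ioc] at hq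
          refine mul_le_mul_of_nonneg_left (pow_le_pow_right₀ hH1 (by omega))
            (hC0 q (Finset.mem_Ioc.2 hq))
      _ = _ := by rw [Finset.sum_mul]
  have h3 : H ^ ((n + d).choose d - r) = H ^ ((n + d).choose d - r - 1) * H := by
    rw [← pow_succ]; congr 1; omega
  rw [h3] at hlow
  refine h2.trans ?_
  have h4 : 0 < H ^ ((n + d).choose d - r - 1) := pow_pos hH0 _
  calc (∑ q ∈ Finset.Ioc r m, C q) * H ^ ((n + d).choose d - r - 1)
      ≤ (∑ q ∈ Finset.Ioc r m, C q + 1) * H ^ ((n + d).choose d - r - 1) :=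
        mul_le_mul_of_nonneg_right (by linarith) h4.le
    _ = (∑ q ∈ Finset.Ioc r m, C q + 1) / c / H *
        (c * (H ^ ((n + d).choose d - r - 1) * H)) := by field_simp
    _ ≤ _ := mul_le_mul_of_nonneg_left hlow (by positivity)

end Pool.Agent.Helper54.BP
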