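import Pool.Agent.Helper54.BP.Hgt

set_option autoImplicit false

/-!
# Reduced data of an algebraic point
-/

namespace Pool.Agent.Helper54.BP

open Polynomial NumberField

theorem RD.smul {K : Type} [CommRing K] {N s : ℕ} {x : Fin N → K} {α : Fin s → K}
    {b : Fin s → Fin N → ℤ} {I : Fin s → Fin N} (h : RD x α b I) (c : K) :
    RD (fun i => c * x i) (fun k => c * α k) b I := by
  refine ⟨fun i => ?_, h.hu, h.hI⟩
  rw [h.hx, Finset.mul_sum]
  exact Finset.sum_congr rfl fun k _ => by ring

theorem exists_integral {K : Type} [Field K] [NumberField K] {N : ℕ} (x : Fin N → K)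
    (hx : x ≠ 0) :
    ∃ (c : K) (ξ : Fin N → 𝓞 K), c ≠ 0 ∧ ξ ≠ 0 ∧ (∀ i, (ξ i : K) = c * x i) ∧
      Height.mulHeight (fun i => (ξ i : K)) = Height.mulHeight x := by
  obtain ⟨b, hb⟩ := IsLocalization.exist_integer_multiples_of_finite (nonZeroDivisors (𝓞 K)) x
  choose ξ hξ using hb
  have hb0 : ((b : 𝓞 K) : K) ≠ 0 := by
    intro h
    exact nonZeroDivisors.ne_zero b.2 (RingOfIntegers.coe_injective (by rw [map_zero]; exact h))
  have h1 : ∀ i, (ξ i : K) = ((b : 𝓞 K) : K) * x i := by
    intro i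
    have := hξ i
    rw [Algebra.smul_def] at this
    exact this
  refine ⟨((b : 𝓞 K) : K), ξ, hb0, ?_, h1, ?_⟩
  · rintro rfl
    apply hx
    funext i
    have := h1 i
    simp only [Pi.zero_apply, map_zero] at this
    have h2 := mul_eq_zero.1 this.symm
    exact h2.resolve_left hb0
  · have h2 : (fun i => (ξ i : K)) = ((b : 𝓞 K) : K) • x := by
      funext i
      rw [h1]; rfl
    rw [h2, Height.mulHeight_smul_eq_mulHeight x hb0]

theorem hgt1 {K : Type} [Field K] [NumberField K] {N s : ℕ} {x : Fin N → K} (hx : x ≠ 0)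
    {α : Fin s → K} {b : Fin s → Fin N → ℤ} {I : Fin s → Fin N}
    (h : RD x α b I) (k : Fin s) (hk : α k ≠ 0) :
    (nn (b k) : ℝ) ^ Module.finrank ℚ K ≤ CC s ^ Module.finrank ℚ K * Height.mulHeight x := by
  obtain ⟨c, ξ, hc, hξ, h1, h2⟩ := exists_integral x hx
  rw [← h2]
  have h3 : RD (fun i => (ξ i : K)) (fun k => c * α k) b I := by
    have := h.smul c
    simpa only [h1] using this
  exact hgt1_int hξ h3 k (mul_ne_zero hc hk)

theorem hgt2 {K : Type} [Field K] [NumberField K] {N s : ℕ} {x : Fin N → K} (hx : x ≠ 0)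
    {α : Fin s → K} {b : Fin s → Fin N → ℤ} {I : Fin s → Fin N}
    (h : RD x α b I) (k l : Fin s) (hl : α l ≠ 0)
    {f : ℤ[X]} (hf : f.IsPrimitive) (hirr : Irreducible (f.map (Int.castRingHom ℚ)))
    (hroot : aeval (α k / α l) f = 0) {g : ℕ} (hg : f.natDegree * g = Module.finrank ℚ K)
    (r : ℕ) (hr : r ≤ f.natDegree) :
    (|(f.coeff r : ℝ)| * (nn (b l) : ℝ) ^ r * (nn (b k) : ℝ) ^ (f.natDegree - r)) ^ g ≤
      2 ^ Module.finrank ℚ K * sf (Module.finrank ℚ K) * CC s ^ Module.finrank ℚ K *
        Height.mulHeight x := by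
  obtain ⟨c, ξ, hc, hξ, h1, h2⟩ := exists_integral x hx
  rw [← h2]
  have h3 : RD (fun i => (ξ i : K)) (fun k => c * α k) b I := by
    have := h.smul c
    simpa only [h1] using this
  exact hgt2_int hξ h3 k l (mul_ne_zero hc hl) hf hirr
    (by rw [mul_div_mul_left _ _ hc]; exact hroot) hg r hr

/-- **Every point has reduced data.** -/
theorem exists_RD {K : Type} [Field K] [CharZero K] {N : ℕ} (x : Fin N → K) :
    ∃ (s : ℕ) (α : Fin s → K) (b : Fin s → Fin N → ℤ) (I : Fin s → Fin N),
      RD x α b I ∧ LinearIndependent ℚ α := by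
  classical
  set Λ : Submodule ℤ K := Submodule.span ℤ (Set.range x) with hΛ
  have hfin : Module.Finite ℤ Λ := Module.Finite.span_of_finite ℤ (Set.finite_range x)
  have hfree : Module.Free ℤ Λ := inferInstance
  set s := Module.finrank ℤ Λ with hs
  let B := Module.finBasis ℤ Λ
  set α0 : Fin s → K := fun k => (B k : K) with hα0
  have hli0 : LinearIndependent ℤ α0 := B.linearIndependent.map' Λ.subtype (Submodule.ker_subtype Λ)
  set b0 : Fin s → Fin N → ℤ := fun k i => B.repr ⟨x i, Submodule.subset_span ⟨i, rfl⟩⟩ k with hb0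
  have hx0 : ∀ i, x i = ∑ k, (b0 k i : K) * α0 k := by
    intro i
    have h1 := B.sum_repr ⟨x i, Submodule.subset_span ⟨i, rfl⟩⟩
    have h2 := congrArg (Subtype.val) h1
    simp only [Submodule.coe_sum, Submodule.coe_smul] at h2
    rw [← h2]
    refine Finset.sum_congr rfl fun k _ => ?_
    rw [zsmul_eq_mul]
  have hu0 : ∀ k, ∃ u : Fin N → ℤ, ∑ i, (u i : K) * x i = α0 k := by
    intro k
    obtain ⟨u, hu⟩ := (Submodule.mem_span_range_iff_exists_fun ℤ).1 (B k).2
    refine ⟨u, ?_⟩
    change _ = (B k : K)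
    rw [← hu]
    exact Finset.sum_congr rfl fun i _ => by rw [zsmul_eq_mul]
  choose u0 hu0 using hu0
  have hdual : ∀ k l, ∑ i, u0 k i * b0 l i = if k = l then 1 else 0 := by
    intro k
    have h1 : ∑ l, (∑ i, u0 k i * b0 l i - (if k = l then 1 else 0)) • α0 l = 0 := by
      have h2 : ∑ l, (∑ i, u0 k i * b0 l i) • α0 l = α0 k := by
        rw [← hu0 k]
        have h3 : ∀ i, (u0 k i : K) * x i = ∑ l, (u0 k i : K) * ((b0 l i : K) * α0 l) := by
          intro i; rw [← Finset.mul_sum, ← hx0]
        simp only [h3]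
        rw [Finset.sum_comm]
        refine Finset.sum_congr rfl fun l _ => ?_
        rw [zsmul_eq_mul]
        push_cast
        rw [Finset.sum_mul]
        exact Finset.sum_congr rfl fun i _ => by ring
      simp only [sub_smul, Finset.sum_sub_distrib, h2]
      simp
    intro l
    have h2 := Fintype.linearIndependent_iff.1 hli0 _ h1 l
    linarith
  obtain ⟨c, ⟨U, W, hUW, hWU, hc⟩, I, hI⟩ := exists_reduced s (Matrix.of b0) (by
    intro c hc
    funext l
    have h1 : ∑ k, c k * (∑ i, u0 l i * b0 k i) = c l := by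
      simp only [hdual]
      simp
    rw [← h1]
    have h2 : ∑ k, c k * (∑ i, u0 l i * b0 k i) = ∑ i, u0 l i * ∑ k, c k * b0 k i := by
      simp only [Finset.mul_sum]
      rw [Finset.sum_comm]
      exact Finset.sum_congr rfl fun i _ => Finset.sum_congr rfl fun k _ => by ring
    rw [h2]
    refine Finset.sum_eq_zero fun i _ => ?_
    have := hc i
    simp only [Matrix.of_apply] at this
    rw [this, mul_zero])
  have hWc : W * c = Matrix.of b0 := by
    rw [hc, ← Matrix.mul_assoc, hWU, Matrix.one_mul]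
  refine ⟨s, fun k => ∑ l, α0 l * (W l k : K), c, I, ⟨?_, ?_, hI⟩, ?_⟩
  · intro i
    rw [hx0]
    have h1 : ∀ l, (b0 l i : K) = ∑ k, (W l k : K) * (c k i : K) := by
      intro l
      have h2 := congrFun (congrFun hWc l) i
      rw [Matrix.mul_apply] at h2
      have h3 := congrArg (Int.cast : ℤ → K) h2
      push_cast at h3
      rw [h3]; rfl
    calc ∑ k, (b0 k i : K) * α0 k = ∑ l, ∑ k, (W l k : K) * (c k i : K) * α0 l := by
          refine Finset.sum_congr rfl fun l _ => ?_
          rw [h1, Finset.sum_mul]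
      _ = ∑ k, (c k i : K) * ∑ l, α0 l * (W l k : K) := by
          rw [Finset.sum_comm]
          refine Finset.sum_congr rfl fun k _ => ?_
          rw [Finset.mul_sum]
          exact Finset.sum_congr rfl fun l _ => by ring
  · refine ⟨fun k i => ∑ t, u0 t i * W t k, fun k l => ?_⟩
    have h1 : ∑ i, (∑ t, u0 t i * W t k) * c l i = ∑ t, W t k * ∑ r, U l r * ∑ i, u0 t i * b0 r i := by
      have h2 : ∀ i, c l i = ∑ r, U l r * b0 r i := by
        intro i
        rw [hc, Matrix.mul_apply]; rfl
      simp only [h2, Finset.sum_mul_sum]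
      rw [Finset.sum_comm]
      refine Finset.sum_congr rfl fun t _ => ?_
      rw [Finset.sum_comm]
      simp only [Finset.mul_sum]
      refine Finset.sum_congr rfl fun r _ => Finset.sum_congr rfl fun i _ => by ring
    rw [h1]
    simp only [hdual]
    have h3 := congrFun (congrFun hUW l) k
    rw [Matrix.mul_apply, Matrix.one_apply] at h3
    have h4 : ∑ t, W t k * ∑ r, U l r * (if t = r then 1 else 0) = ∑ t, U l t * W t k := by
      refine Finset.sum_congr rfl fun t _ => ?_
      simp [mul_comm]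
    rw [h4, h3]
    by_cases hkl : k = l
    · subst hkl; simp
    · rw [if_neg hkl, if_neg (Ne.symm hkl)]
  · rw [← LinearIndependent.iff_fractionRing ℤ ℚ, Fintype.linearIndependent_iff]
    intro z hz
    have h1 : ∑ l, (∑ k, W l k * z k) • α0 l = 0 := by
      rw [← hz]
      simp only [zsmul_eq_mul, Finset.mul_sum]
      rw [Finset.sum_comm]
      refine Finset.sum_congr rfl fun l _ => ?_
      push_cast
      rw [Finset.sum_mul]
      exact Finset.sum_congr rfl fun k _ => by ring
    have h2 := Fintype.linearIndependent_iff.1 hli0 _ h1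
    have h3 : Matrix.mulVec W z = 0 := by
      funext l
      exact h2 l
    have h4 : z = 0 := by
      calc z = Matrix.mulVec (U * W) z := by rw [hUW, Matrix.one_mulVec]
        _ = 0 := by rw [← Matrix.mulVec_mulVec, h3, Matrix.mulVec_zero]
    intro k
    rw [h4]; rfl

/-- the primitive minimal polynomial -/
theorem exists_prim {K : Type} [Field K] [NumberField K] (θ : K) :
    ∃ f : ℤ[X], f.IsPrimitive ∧ Irreducible (f.map (Int.castRingHom ℚ)) ∧ aeval θ f = 0 := by
  have hint : IsIntegral ℚ θ := Algebra.IsIntegral.isIntegral θ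
  have hirr := minpoly.irreducible hint
  obtain ⟨b, hb, hQ⟩ := IsLocalization.integerNormalization_spec (nonZeroDivisors ℤ)
    (minpoly ℚ θ)
  set Q := IsLocalization.integerNormalization (nonZeroDivisors ℤ) (minpoly ℚ θ) with hQdef
  have hb0 : (b : ℚ) ≠ 0 := by exact_mod_cast nonZeroDivisors.ne_zero hb
  have hQ0 : Q ≠ 0 := by
    rw [hQdef, Ne, IsFractionRing.integerNormalization_eq_zero_iff]
    exact hirr.ne_zero
  have hc0 : (Q.content : ℚ) ≠ 0 := by
    have : Q.content ≠ 0 := by rw [Ne, content_eq_zero_iff]; exact hQ0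
    exact_mod_cast this
  have h1 : Q.primPart.map (Int.castRingHom ℚ) = C ((b : ℚ) / Q.content) * minpoly ℚ θ := by
    have h2 : C (Q.content : ℚ) * Q.primPart.map (Int.castRingHom ℚ) = C (b : ℚ) * minpoly ℚ θ := by
      have h3 := congrArg (Polynomial.map (Int.castRingHom ℚ)) Q.eq_C_content_mul_primPart
      rw [Polynomial.map_mul, map_C] at h3
      have h4 : Q.map (Int.castRingHom ℚ) = b • minpoly ℚ θ := hQ
      rw [h4] at h3
      have h5 : b • minpoly ℚ θ = C (b : ℚ) * minpoly ℚ θ := by
        rw [zsmul_eq_mul]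
        congr 1
      rw [← h5, h3]
      rfl
    calc Q.primPart.map (Int.castRingHom ℚ)
        = C ((Q.content : ℚ)⁻¹) * (C (Q.content : ℚ) * Q.primPart.map (Int.castRingHom ℚ)) := by
          rw [← mul_assoc, ← C_mul, inv_mul_cancel₀ hc0, C_1, one_mul]
      _ = C ((b : ℚ) / Q.content) * minpoly ℚ θ := by
          rw [h2, ← mul_assoc, ← C_mul]
          congr 2
          field_simp
  have hunit : IsUnit (C ((b : ℚ) / Q.content) : ℚ[X]) :=
    isUnit_C.2 (isUnit_iff_ne_zero.2 (div_ne_zero hb0 hc0))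
  refine ⟨Q.primPart, Q.isPrimitive_primPart, ?_, ?_⟩
  · rw [h1, irreducible_isUnit_mul hunit]
    exact hirr
  · have h2 : aeval θ (Q.primPart.map (Int.castRingHom ℚ)) = aeval θ Q.primPart := by
      rw [aeval_def, eval₂_map, aeval_def]
      congr 1
      exact RingHom.ext_int _ _
    rw [← h2, h1, map_mul, minpoly.aeval, mul_zero]

/-- the ratios of the elements of the basis generate the field -/
theorem RD.adjoin {K : Type} [Field K] [NumberField K] {N s : ℕ} {x : Fin N → K} {α : Fin s → K}
    {b : Fin s → Fin N → ℤ} {I : Fin s → Fin N} (h : RD x α b I)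
    (hgen : IntermediateField.adjoin ℚ {z : K | ∃ i j, z = x i / x j} = ⊤) (l : Fin s)
    (hl : α l ≠ 0) :
    IntermediateField.adjoin ℚ (Set.range fun k => α k / α l) = ⊤ := by
  rw [eq_top_iff, ← hgen, IntermediateField.adjoin_le_iff]
  rintro _ ⟨i, j, rfl⟩
  set L := IntermediateField.adjoin ℚ (Set.range fun k => α k / α l) with hL
  have h1 : ∀ i, x i / α l ∈ L := by
    intro i
    rw [h.hx, Finset.sum_div]
    refine sum_mem fun k _ => ?_
    rw [mul_div_assoc]
    exact mul_mem (intCast_mem _ _) (IntermediateField.subset_adjoin _ _ ⟨k, rfl⟩)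
  have h2 : x i / x j = (x i / α l) / (x j / α l) := by
    by_cases hj : x j = 0
    · rw [hj]; simp
    · field_simp
  rw [h2]
  exact div_mem (h1 i) (h1 j)

end Pool.Agent.Helper54.BP
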