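import Mathlib

set_option autoImplicit false

/-!
# Reduced bases of integral lattices
-/

namespace Pool.Agent.Helper54.BP

open Matrix

/-- The sup norm of an integral vector. -/
def nn {N : ℕ} (v : Fin N → ℤ) : ℕ := Finset.univ.sup fun i => (v i).natAbs

theorem le_nn {N : ℕ} (v : Fin N → ℤ) (i : Fin N) : (v i).natAbs ≤ nn v :=
  Finset.le_sup (f := fun i => (v i).natAbs) (Finset.mem_univ i)

theorem abs_le_nn {N : ℕ} (v : Fin N → ℤ) (i : Fin N) : |v i| ≤ nn v := by
  rw [Int.abs_eq_natAbs]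
  exact_mod_cast le_nn v i

theorem nn_le {N : ℕ} {v : Fin N → ℤ} {a : ℕ} (h : ∀ i, |v i| ≤ a) : nn v ≤ a := by
  refine Finset.sup_le fun i _ => ?_
  have := h i
  rw [Int.abs_eq_natAbs] at this
  exact_mod_cast this

theorem exists_nn {N : ℕ} (v : Fin N → ℤ) (hv : v ≠ 0) :
    ∃ i, |v i| = nn v ∧ v i ≠ 0 := by
  obtain ⟨j, hj⟩ := Function.ne_iff.1 hv
  have : Nonempty (Fin N) := ⟨j⟩
  obtain ⟨i, -, hi⟩ := Finset.exists_mem_eq_sup (Finset.univ : Finset (Fin N))
    Finset.univ_nonempty (fun i => (v i).natAbs)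
  refine ⟨i, ?_, ?_⟩
  · rw [Int.abs_eq_natAbs]
    exact_mod_cast hi.symm
  · intro h0
    have h1 := le_nn v j
    rw [nn, hi, h0] at h1
    simp only [Int.natAbs_zero, nonpos_iff_eq_zero, Int.natAbs_eq_zero] at h1
    exact hj h1

theorem nn_pos {N : ℕ} {v : Fin N → ℤ} (hv : v ≠ 0) : 1 ≤ nn v := by
  obtain ⟨i, h1, h2⟩ := exists_nn v hv
  have : (0 : ℤ) < |v i| := abs_pos.2 h2
  omega

/-- `c` is another basis of the lattice with basis `b` (the rows) -/
def Rel {s N : ℕ} (b c : Matrix (Fin s) (Fin N) ℤ) : Prop :=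
  ∃ U W : Matrix (Fin s) (Fin s) ℤ, U * W = 1 ∧ W * U = 1 ∧ c = U * b

theorem Rel.refl {s N : ℕ} (b : Matrix (Fin s) (Fin N) ℤ) : Rel b b :=
  ⟨1, 1, by simp, by simp, by simp⟩

theorem Rel.trans {s N : ℕ} {b c d : Matrix (Fin s) (Fin N) ℤ} (h1 : Rel b c) (h2 : Rel c d) :
    Rel b d := by
  obtain ⟨U, W, hUW, hWU, rfl⟩ := h1
  obtain ⟨U', W', hUW', hWU', rfl⟩ := h2
  refine ⟨U' * U, W * W', ?_, ?_, ?_⟩
  · rw [Matrix.mul_assoc, ← Matrix.mul_assoc U, hUW, Matrix.one_mul, hUW']
  · rw [Matrix.mul_assoc, ← Matrix.mul_assoc W', hWU', Matrix.one_mul, hWU]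
  · rw [Matrix.mul_assoc]

theorem Rel.perm {s N : ℕ} (b : Matrix (Fin s) (Fin N) ℤ) (σ : Equiv.Perm (Fin s)) :
    Rel b (b.submatrix σ id) := by
  refine ⟨(1 : Matrix (Fin s) (Fin s) ℤ).submatrix σ (Equiv.refl _),
    (1 : Matrix (Fin s) (Fin s) ℤ).submatrix σ.symm (Equiv.refl _), ?_, ?_, ?_⟩
  · rw [Matrix.one_submatrix_mul]
    ext i j
    change (1 : Matrix (Fin s) (Fin s) ℤ) (σ.symm (σ i)) j = _
    rw [Equiv.symm_apply_apply]
  · rw [Matrix.one_submatrix_mul]
    ext i j
    change (1 : Matrix (Fin s) (Fin s) ℤ) (σ (σ.symm i)) j = _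
    rw [Equiv.apply_symm_apply]
  · rw [Matrix.one_submatrix_mul]
    ext i j
    simp [Matrix.submatrix_apply]

/-- change of the basis which fixes the first vector -/
theorem Rel.lift {s N : ℕ} (b : Matrix (Fin (s + 1)) (Fin N) ℤ)
    {U W : Matrix (Fin s) (Fin s) ℤ} (hUW : U * W = 1) (hWU : W * U = 1) (q : Fin s → ℤ) :
    Rel b (Matrix.of (Fin.cons (b 0) fun k i => (∑ l, U k l * b l.succ i) - q k * b 0 i)) := by
  refine ⟨Matrix.of (Fin.cons (Fin.cons 1 0) fun k => Fin.cons (-q k) (U k)),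
    Matrix.of (Fin.cons (Fin.cons 1 0) fun k => Fin.cons (∑ l, W k l * q l) (W k)), ?_, ?_, ?_⟩
  · ext i j
    refine Fin.cases ?_ (fun i => ?_) i <;> refine Fin.cases ?_ (fun j => ?_) j
    · simp [Matrix.mul_apply, Fin.sum_univ_succ]
    · simp [Matrix.mul_apply, Fin.sum_univ_succ, Matrix.one_apply_ne (Fin.succ_ne_zero j).symm]
    · simp only [Matrix.mul_apply, Fin.sum_univ_succ, Matrix.of_apply, Fin.cons_succ, Fin.cons_zero,
        mul_one, Matrix.one_apply_ne (Fin.succ_ne_zero i)]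
      have h1 : ∀ k, ∑ l, U k l * ∑ r, W l r * q r = q k := by
        intro k
        have h2 := congrFun (congrArg (fun M => M *ᵥ q) hUW) k
        simp only [← Matrix.mulVec_mulVec, Matrix.one_mulVec] at h2
        rw [← h2]
        rfl
      rw [h1]; ring
    · simp only [Matrix.mul_apply, Fin.sum_univ_succ, Matrix.of_apply, Fin.cons_succ, Fin.cons_zero,
        Pi.zero_apply, mul_zero, zero_add]
      have h2 := congrFun (congrFun hUW i) j
      rw [Matrix.mul_apply] at h2
      rw [h2, Matrix.one_apply, Matrix.one_apply]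
      simp
  · ext i j
    refine Fin.cases ?_ (fun i => ?_) i <;> refine Fin.cases ?_ (fun j => ?_) j
    · simp [Matrix.mul_apply, Fin.sum_univ_succ]
    · simp [Matrix.mul_apply, Fin.sum_univ_succ, Matrix.one_apply_ne (Fin.succ_ne_zero j).symm]
    · simp only [Matrix.mul_apply, Fin.sum_univ_succ, Matrix.of_apply, Fin.cons_succ, Fin.cons_zero,
        mul_one, Matrix.one_apply_ne (Fin.succ_ne_zero i)]
      rw [← Finset.sum_add_distrib]
      exact Finset.sum_eq_zero fun l _ => by ring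
    · simp only [Matrix.mul_apply, Fin.sum_univ_succ, Matrix.of_apply, Fin.cons_succ, Fin.cons_zero,
        Pi.zero_apply, mul_zero, zero_add]
      have h2 := congrFun (congrFun hWU i) j
      rw [Matrix.mul_apply] at h2
      rw [h2, Matrix.one_apply, Matrix.one_apply]
      simp
  · ext i j
    refine Fin.cases ?_ (fun i => ?_) i
    · simp [Matrix.mul_apply, Fin.sum_univ_succ]
    · simp only [Matrix.mul_apply, Fin.sum_univ_succ, Matrix.of_apply, Fin.cons_succ, Fin.cons_zero]
      ring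

theorem exists_near (a b : ℤ) (hb : b ≠ 0) : ∃ q : ℤ, 2 * |a - q * b| ≤ |b| := by
  refine ⟨round ((a : ℚ) / b), ?_⟩
  have h1 := abs_sub_round ((a : ℚ) / b)
  have h2 : |(a : ℚ) - round ((a : ℚ) / b) * b| = |(a : ℚ) / b - round ((a : ℚ) / b)| * |(b : ℚ)| := by
    rw [← abs_mul]
    congr 1
    have : (b : ℚ) ≠ 0 := by exact_mod_cast hb
    field_simp
  have h3 : 2 * |(a : ℚ) - round ((a : ℚ) / b) * b| ≤ |(b : ℚ)| := by
    rw [h2]
    nlinarith [abs_nonneg (b : ℚ)]
  exact_mod_cast h3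

/-- the determinant identity behind the recursion -/
theorem det_pivot {s N : ℕ} (c : Matrix (Fin (s + 1)) (Fin N) ℤ) (i : Fin N) (hi : c 0 i ≠ 0)
    (I : Fin s → Fin N) :
    c 0 i ^ s * (c.submatrix id (Fin.cons i I)).det =
      c 0 i * (Matrix.of fun k l : Fin s =>
        c 0 i * c k.succ (I l) - c k.succ i * c 0 (I l)).det := by
  have key : ∀ (A : Matrix (Fin (s + 1)) (Fin (s + 1)) ℚ) (a : ℚ), A 0 0 = a → a ≠ 0 →
      a ^ s * A.det = a * (Matrix.of fun k l : Fin s => a * A k.succ l.succ -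
        A k.succ 0 * A 0 l.succ).det := by
    intro A a h0 ha
    set B : Matrix (Fin (s + 1)) (Fin (s + 1)) ℚ :=
      Matrix.of fun k l => A k l - (Fin.cons 0 (fun k => A k.succ 0 / a) : Fin (s + 1) → ℚ) k * A 0 l
      with hB
    have h1 : A.det = B.det := by
      refine Matrix.det_eq_of_forall_row_eq_smul_add_const
        (Fin.cons 0 (fun k => A k.succ 0 / a) : Fin (s + 1) → ℚ) 0 (by simp) ?_
      intro k l
      simp only [hB, Matrix.of_apply, Fin.cons_zero, zero_mul, sub_zero]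
      ring
    have h2 : B.det = a * (B.submatrix Fin.succ Fin.succ).det := by
      rw [Matrix.det_succ_column_zero, Fin.sum_univ_succ]
      have h3 : ∀ k : Fin s, B k.succ 0 = 0 := by
        intro k
        simp only [hB, Matrix.of_apply, Fin.cons_succ]
        rw [h0]; field_simp; ring
      simp only [h3, mul_zero, zero_mul, Finset.sum_const_zero, add_zero]
      have h4 : B 0 0 = a := by simp [hB, h0]
      rw [h4]
      simp
    have h5 : (Matrix.of fun k l : Fin s => a * A k.succ l.succ - A k.succ 0 * A 0 l.succ) =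
        a • (B.submatrix Fin.succ Fin.succ) := by
      ext k l
      simp only [hB, Matrix.of_apply, Matrix.smul_apply, Matrix.submatrix_apply, Fin.cons_succ,
        smul_eq_mul]
      field_simp
    rw [h5, Matrix.det_smul, Fintype.card_fin, h1, h2]
    ring
  have h := key ((c.submatrix id (Fin.cons i I)).map (Int.cast : ℤ → ℚ)) (c 0 i : ℚ)
    (by simp) (by exact_mod_cast hi)
  have e1 : ((c.submatrix id (Fin.cons i I)).map (Int.cast : ℤ → ℚ)).det =
      (((c.submatrix id (Fin.cons i I)).det : ℤ) : ℚ) := by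
    have := (Int.castRingHom ℚ).map_det (c.submatrix id (Fin.cons i I))
    simp only [RingHom.mapMatrix_apply, eq_intCast] at this
    rw [this]
    rfl
  have e2 : (Matrix.of fun k l : Fin s =>
      (c 0 i : ℚ) * ((c.submatrix id (Fin.cons i I)).map (Int.cast : ℤ → ℚ)) k.succ l.succ -
        ((c.submatrix id (Fin.cons i I)).map (Int.cast : ℤ → ℚ)) k.succ 0 *
        ((c.submatrix id (Fin.cons i I)).map (Int.cast : ℤ → ℚ)) 0 l.succ).det =
      (((Matrix.of fun k l : Fin s =>
        c 0 i * c k.succ (I l) - c k.succ i * c 0 (I l)).det : ℤ) : ℚ) := by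
    have := (Int.castRingHom ℚ).map_det (Matrix.of fun k l : Fin s =>
        c 0 i * c k.succ (I l) - c k.succ i * c 0 (I l))
    simp only [RingHom.mapMatrix_apply, eq_intCast] at this
    rw [this]
    congr 1
    ext k l
    simp
  rw [e1, e2] at h
  exact_mod_cast h

/-- **Existence of reduced bases.** -/
theorem exists_reduced {N : ℕ} : ∀ (s : ℕ) (b : Matrix (Fin s) (Fin N) ℤ),
    (∀ c : Fin s → ℤ, (∀ i, ∑ k, c k * b k i = 0) → c = 0) →
    ∃ c, Rel b c ∧ ∃ I : Fin s → Fin N,
      (∏ k, (nn (c k) : ℤ)) ≤ 2 ^ (s * s) * |(c.submatrix id I).det| := by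
  intro s
  induction s with
  | zero =>
    intro b _
    exact ⟨b, Rel.refl b, Fin.elim0, by simp⟩
  | succ s ih =>
    intro b hb
    classical
    have hex : ∃ t : ℕ, ∃ c, Rel b c ∧ nn (c 0) = t := ⟨_, b, Rel.refl b, rfl⟩
    obtain ⟨b1, hb1, ht⟩ := Nat.find_spec hex
    have hmin : ∀ c, Rel b1 c → ∀ k, nn (b1 0) ≤ nn (c k) := by
      intro c hc k
      rw [ht]
      refine Nat.find_min' hex ⟨c.submatrix (Equiv.swap 0 k) id,
        (hb1.trans hc).trans (Rel.perm c _), ?_⟩
      congr 1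
    -- independence
    have hind1 : ∀ c : Fin (s + 1) → ℤ, (∀ i, ∑ k, c k * b1 k i = 0) → c = 0 := by
      obtain ⟨U, W, hUW, hWU, rfl⟩ := hb1
      intro c hc
      have h1 : c ᵥ* U = 0 := by
        apply hb
        intro i
        have := hc i
        have h2 : (c ᵥ* (U * b)) i = 0 := this
        rw [← Matrix.vecMul_vecMul] at h2
        exact h2
      calc c = c ᵥ* (U * W) := by rw [hUW, Matrix.vecMul_one]
        _ = (c ᵥ* U) ᵥ* W := by rw [Matrix.vecMul_vecMul]
        _ = 0 := by rw [h1, Matrix.zero_vecMul]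
    have hb0 : b1 0 ≠ 0 := by
      intro h0
      have h1 := hind1 (Pi.single 0 1) (by
        intro i
        rw [Finset.sum_eq_single 0]
        · simp [h0]
        · intro k _ hk; simp [hk]
        · simp)
      have := congrFun h1 0
      simp at this
    obtain ⟨i, hi1, hi2⟩ := exists_nn (b1 0) hb0
    set b2 : Matrix (Fin s) (Fin N) ℤ :=
      Matrix.of fun k j => b1 0 i * b1 k.succ j - b1 k.succ i * b1 0 j with hb2
    obtain ⟨c2, ⟨U, W, hUW, hWU, hc2⟩, I, hI⟩ := ih b2 (by
      intro c hc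
      have h1 := hind1 (Fin.cons (-∑ k, c k * b1 k.succ i) fun k => b1 0 i * c k) (by
        intro j
        rw [Fin.sum_univ_succ]
        simp only [Fin.cons_zero, Fin.cons_succ]
        have h2 := hc j
        simp only [hb2, Matrix.of_apply] at h2
        rw [← h2, neg_mul, Finset.sum_mul, ← Finset.sum_neg_distrib, ← Finset.sum_add_distrib]
        refine Finset.sum_congr rfl fun k _ => ?_
        ring)
      funext k
      have h2 := congrFun h1 k.succ
      simp only [Fin.cons_succ, Pi.zero_apply, mul_eq_zero] at h2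
      rcases h2 with h2 | h2
      · exact absurd h2 hi2
      · exact h2)
    choose q hq using fun k : Fin s => exists_near (∑ l, U k l * b1 l.succ i) (b1 0 i) hi2
    set c : Matrix (Fin (s + 1)) (Fin N) ℤ :=
      Matrix.of (Fin.cons (b1 0) fun k j => (∑ l, U k l * b1 l.succ j) - q k * b1 0 j) with hc
    have hrel : Rel b1 c := Rel.lift b1 hUW hWU q
    have hc0 : c 0 = b1 0 := by rw [hc]; rfl
    have hcs : ∀ k j, c (Fin.succ k) j = (∑ l, U k l * b1 l.succ j) - q k * b1 0 j := by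
      intro k j
      simp [hc]
    have hc2' : ∀ k j, c2 k j = c 0 i * c k.succ j - c k.succ i * c 0 j := by
      intro k j
      rw [hc2, Matrix.mul_apply, hcs, hcs, hc0]
      simp only [hb2, Matrix.of_apply]
      have e1 : ∑ x, U k x * (b1 0 i * b1 x.succ j - b1 x.succ i * b1 0 j) =
          b1 0 i * (∑ x, U k x * b1 x.succ j) - (∑ x, U k x * b1 x.succ i) * b1 0 j := by
        rw [Finset.mul_sum, Finset.sum_mul, ← Finset.sum_sub_distrib]
        refine Finset.sum_congr rfl fun x _ => by ring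
      rw [e1]; ring
    -- sizes
    have hβ : (0 : ℤ) < nn (b1 0) := by
      have := abs_pos.2 hi2
      omega
    have hsize : ∀ k : Fin s, (nn (b1 0) : ℤ) * nn (c k.succ) ≤ 2 * nn (c2 k) := by
      intro k
      have h1 : (nn (b1 0) : ℤ) ≤ nn (c k.succ) := by exact_mod_cast hmin c hrel k.succ
      have hck : c k.succ ≠ 0 := by
        intro h0
        have : nn (c k.succ) = 0 := by rw [h0]; simp [nn]
        omega
      obtain ⟨j, hj, -⟩ := exists_nn (c k.succ) hck
      have h2 : |c2 k j| ≤ nn (c2 k) := abs_le_nn _ _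
      have h3 : 2 * |c k.succ i| ≤ nn (b1 0) := by
        rw [hcs, ← hi1]; exact hq k
      have h4 : |c 0 j| ≤ nn (b1 0) := by rw [hc0]; exact abs_le_nn _ _
      have h5 : |c 0 i| * |c k.succ j| ≤ |c2 k j| + |c k.succ i| * |c 0 j| := by
        rw [← abs_mul, ← abs_mul, hc2']
        have := abs_sub_abs_le_abs_sub (c 0 i * c k.succ j) (c k.succ i * c 0 j)
        linarith
      rw [hj, hc0, hi1] at h5
      have h6 : |c k.succ i| * |c 0 j| ≤ |c k.succ i| * nn (b1 0) :=
        mul_le_mul_of_nonneg_left h4 (abs_nonneg _)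
      rw [hc0] at h6
      nlinarith [abs_nonneg (c k.succ i)]
    refine ⟨c, hb1.trans hrel, Fin.cons i I, ?_⟩
    have hdet := det_pivot c i (by rw [hc0]; exact hi2) I
    have e3 : (Matrix.of fun k l : Fin s => c 0 i * c k.succ (I l) - c k.succ i * c 0 (I l)) =
        c2.submatrix id I := by
      ext k l
      simp [hc2']
    rw [e3] at hdet
    have habs := congrArg abs hdet
    rw [abs_mul, abs_mul, abs_pow, hc0, hi1] at habs
    -- β^s |det| = β |det'|
    rw [Fin.prod_univ_succ, hc0]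
    have h7 : (nn (b1 0) : ℤ) ^ s * ∏ k : Fin s, (nn (c k.succ) : ℤ) ≤
        2 ^ s * ∏ k, (nn (c2 k) : ℤ) := by
      calc (nn (b1 0) : ℤ) ^ s * ∏ k : Fin s, (nn (c k.succ) : ℤ)
          = ∏ k : Fin s, ((nn (b1 0) : ℤ) * nn (c k.succ)) := by
            rw [Finset.prod_mul_distrib, Finset.prod_const, Finset.card_univ, Fintype.card_fin]
        _ ≤ ∏ k : Fin s, (2 * (nn (c2 k) : ℤ)) :=
            Finset.prod_le_prod (fun k _ => by positivity) (fun k _ => hsize k)
        _ = _ := by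
            rw [Finset.prod_mul_distrib, Finset.prod_const, Finset.card_univ, Fintype.card_fin]
    have hβs : (0 : ℤ) < (nn (b1 0) : ℤ) ^ s := by positivity
    refine le_of_mul_le_mul_left ?_ hβs
    calc (nn (b1 0) : ℤ) ^ s * ((nn (b1 0) : ℤ) * ∏ k : Fin s, (nn (c k.succ) : ℤ))
        = (nn (b1 0) : ℤ) * ((nn (b1 0) : ℤ) ^ s * ∏ k : Fin s, (nn (c k.succ) : ℤ)) := by ring
      _ ≤ (nn (b1 0) : ℤ) * (2 ^ s * ∏ k, (nn (c2 k) : ℤ)) :=
          mul_le_mul_of_nonneg_left h7 hβ.le
      _ ≤ (nn (b1 0) : ℤ) * (2 ^ s * (2 ^ (s * s) * |(c2.submatrix id I).det|)) :=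
          mul_le_mul_of_nonneg_left (mul_le_mul_of_nonneg_left hI (by positivity)) hβ.le
      _ = 2 ^ (s * s + s) * ((nn (b1 0) : ℤ) * |(c2.submatrix id I).det|) := by
          rw [pow_add]; ring
      _ = 2 ^ (s * s + s) * ((nn (b1 0) : ℤ) ^ s * |(c.submatrix id (Fin.cons i I)).det|) := by
          rw [habs]
      _ ≤ 2 ^ ((s + 1) * (s + 1)) * ((nn (b1 0) : ℤ) ^ s *
            |(c.submatrix id (Fin.cons i I)).det|) := by
          refine mul_le_mul_of_nonneg_right ?_ (by positivity)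
          exact pow_le_pow_right₀ (by norm_num) (by nlinarith)
      _ = (nn (b1 0) : ℤ) ^ s * (2 ^ ((s + 1) * (s + 1)) *
            |(c.submatrix id (Fin.cons i I)).det|) := by ring

end Pool.Agent.Helper54.BP
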