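import Pool.Agent.Helper54.BP.Wt
import Pool.Agent.Helper54.BP.BS

set_option autoImplicit false

/-!
# Summation over all points
-/

namespace Pool.Agent.Helper54.BP

open Polynomial

/-- weight of a basis vector -/
noncomputable def wB {n : ℕ} (b : Fin (n + 1) → ℤ) : ℝ :=
  if b = 0 then 0 else ((nn b : ℝ) ^ (n + 2))⁻¹

/-- weight of a polynomial -/
noncomputable def wC {m : ℕ} (p : ℝ) (c : Fin (m + 1) → ℤ) : ℝ := ∏ l, (max 1 |(c l : ℝ)|) ^ (-p)

open Classical in
/-- weight of the polynomial number `k` -/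
noncomputable def wJ {s m : ℕ} (p : ℝ) (j0 k : Fin s) (c : Fin (m + 1) → ℤ) : ℝ :=
  if k = j0 then (if c = 0 then 1 else 0) else wC p c

theorem BS_wB (n : ℕ) : ∃ C, BS (wB : (Fin (n + 1) → ℤ) → ℝ) C := by
  have hn : (0 : ℝ) < n + 1 := by positivity
  have hp : 1 < ((n : ℝ) + 2) / (n + 1) := by rw [lt_div_iff₀ hn]; linarith
  refine ⟨_, (BS.pi (ι := Fin (n + 1)) fun _ => BS.int hp).mono (fun b => ?_) fun b => ?_⟩
  · unfold wB; split_ifs <;> positivity
  · unfold wB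
    split_ifs with hb
    · exact Finset.prod_nonneg fun i _ => Real.rpow_nonneg (le_trans zero_le_one (le_max_left _ _)) _
    · have h1 : (1 : ℝ) ≤ nn b := by exact_mod_cast nn_pos hb
      have h0 : (0 : ℝ) < nn b := by linarith
      have h2 : ((nn b : ℝ) ^ (n + 2))⁻¹ =
          ∏ _i : Fin (n + 1), (nn b : ℝ) ^ (-(((n : ℝ) + 2) / (n + 1))) := by
        rw [Finset.prod_const, Finset.card_univ, Fintype.card_fin, ← Real.rpow_natCast,
          ← Real.rpow_natCast, ← Real.rpow_neg h0.le, ← Real.rpow_mul h0.le]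
        congr 1
        push_cast
        field_simp
      rw [h2]
      refine Finset.prod_le_prod (fun i _ => Real.rpow_nonneg h0.le _) fun i _ => ?_
      refine Real.rpow_le_rpow_of_nonpos (lt_of_lt_of_le one_pos (le_max_left _ _)) ?_ ?_
      · refine max_le h1 ?_
        exact_mod_cast abs_le_nn b i
      · rw [neg_nonpos]; positivity

theorem BS_wC (m : ℕ) {p : ℝ} (hp : 1 < p) : ∃ C, BS (wC p : (Fin (m + 1) → ℤ) → ℝ) C :=
  ⟨_, BS.pi (ι := Fin (m + 1)) fun _ => BS.int hp⟩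

theorem BS_wJ {s : ℕ} (m : ℕ) {p : ℝ} (hp : 1 < p) (j0 : Fin s) :
    ∃ C : Fin s → ℝ, ∀ k, BS (wJ p j0 k : (Fin (m + 1) → ℤ) → ℝ) (C k) := by
  classical
  obtain ⟨C, hC⟩ := BS_wC m hp
  refine ⟨fun k => if k = j0 then 1 else C, fun k => ?_⟩
  simp only
  by_cases hk : k = j0
  · rw [if_pos hk]
    have : (wJ p j0 k : (Fin (m + 1) → ℤ) → ℝ) = fun c => if c = 0 then 1 else 0 := by
      funext c; rw [wJ, if_pos hk]
    rw [this]
    exact BS.single 0
  · rw [if_neg hk]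
    have : (wJ p j0 k : (Fin (m + 1) → ℤ) → ℝ) = wC p := by
      funext c; rw [wJ, if_neg hk]
    rw [this]
    exact hC

/-- the index set -/
abbrev Idx (s n m : ℕ) : Type :=
  (Fin s → Fin (n + 1) → ℤ) × ((Fin s → Fin (m + 1) → ℤ) × (Fin s → Fin (m + 1)))

/-- the weight of an index -/
noncomputable def wI {s n m : ℕ} (p : ℝ) (j0 : Fin s) (i : Idx s n m) : ℝ :=
  (∏ k, wB (i.1 k)) * ((∏ k, wJ p j0 k (i.2.1 k)) * 1)

theorem BS_wI (s n m : ℕ) {p : ℝ} (hp : 1 < p) (j0 : Fin s) :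
    ∃ C, BS (wI p j0 : Idx s n m → ℝ) C := by
  obtain ⟨C1, h1⟩ := BS_wB n
  obtain ⟨C2, h2⟩ := BS_wJ m hp j0
  exact ⟨_, (BS.pi (ι := Fin s) fun _ => h1).prod ((BS.pi h2).prod
    (BS.of_fintype (α := Fin s → Fin (m + 1))))⟩

/-- the ratios given by an index -/
noncomputable def th {s m : ℕ} (j0 : Fin s) (c : Fin s → Fin (m + 1) → ℤ)
    (ρ : Fin s → Fin (m + 1)) (k : Fin s) : ℂ :=
  if k = j0 then 1 else ((pol (c k)).map (Int.castRingHom ℂ)).roots.toList.getD (ρ k) 0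

/-- the forms of an index -/
def AA {s n m : ℕ} (d : ℕ) (H : ℝ) (j0 : Fin s) (i : Idx s n m) :
    Set (MvPolynomial (Fin (n + 1)) ℤ) :=
  Sm (n + 1) d H ∩
    {F | MvPolynomial.aeval (fun t => ∑ k, (i.1 k t : ℂ) * th j0 i.2.1 i.2.2 k) F = 0}

theorem aeval_smul_hom {K : Type} [CommRing K] {N d : ℕ} {F : MvPolynomial (Fin N) ℤ}
    (hF : F.IsHomogeneous d) (c : K) (x : Fin N → K) :
    MvPolynomial.aeval (fun i => c * x i) F = c ^ d * MvPolynomial.aeval x F := by
  rw [MvPolynomial.aeval_def, MvPolynomial.aeval_def, MvPolynomial.eval₂_eq, MvPolynomial.eval₂_eq,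
    Finset.mul_sum]
  refine Finset.sum_congr rfl fun γ hγ => ?_
  have h1 := hF (MvPolynomial.mem_support_iff.1 hγ)
  simp only [mul_pow, Finset.prod_mul_distrib]
  have h2 : ∏ i ∈ γ.support, c ^ γ i = c ^ d := by
    rw [Finset.prod_pow_eq_pow_sum]
    congr 1
    rw [← h1]
    simp [Finsupp.weight_apply, Finsupp.sum]
  rw [h2]
  ring

theorem aeval_transport {K : Type} [Field K] {N s d : ℕ} {x : Fin N → K} {α : Fin s → K}
    {b : Fin s → Fin N → ℤ} (hx : ∀ i, x i = ∑ k, (b k i : K) * α k) (j0 : Fin s)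
    (hj : α j0 ≠ 0) (σ : K →+* ℂ) (ϑ : Fin s → ℂ) (hϑ : ∀ k, ϑ k = σ (α k / α j0))
    {F : MvPolynomial (Fin N) ℤ} (hF : F.IsHomogeneous d) :
    MvPolynomial.aeval (fun t => ∑ k, (b k t : ℂ) * ϑ k) F = 0 ↔
      MvPolynomial.aeval x F = 0 := by
  have h1 : (fun t => ∑ k, (b k t : ℂ) * ϑ k) = fun t => σ ((α j0)⁻¹) * σ (x t) := by
    funext t
    rw [← map_mul, hx, Finset.mul_sum, map_sum]
    refine Finset.sum_congr rfl fun k _ => ?_
    rw [hϑ, ← map_intCast σ, ← map_mul]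
    congr 1
    rw [div_eq_mul_inv]; ring
  rw [h1, aeval_smul_hom hF]
  have h2 : σ ((α j0)⁻¹) ^ d ≠ 0 := pow_ne_zero _ (by
    rw [Ne, map_eq_zero]; exact inv_ne_zero hj)
  have h3 : MvPolynomial.aeval (fun t => σ (x t)) F = σ (MvPolynomial.aeval x F) := by
    rw [MvPolynomial.aeval_def, MvPolynomial.aeval_def, MvPolynomial.hom_eval₂]
    congr 1
    exact RingHom.ext_int _ _
  rw [h3]
  constructor
  · intro h
    rcases mul_eq_zero.1 h with h | h
    · exact absurd h h2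
    · exact (map_eq_zero σ).1 h
  · intro h
    rw [h, map_zero, mul_zero]

/-- `F` has a point of exact degree `m` and of height at most `X` -/
def HasPt (n m : ℕ) (X : ℝ) (F : MvPolynomial (Fin (n + 1)) ℤ) : Prop :=
  ∃ (K : Type) (_ : Field K) (_ : NumberField K) (x : Fin (n + 1) → K), x ≠ 0 ∧
    Module.finrank ℚ K = m ∧
    IntermediateField.adjoin ℚ {z : K | ∃ i j, z = x i / x j} = ⊤ ∧
    Height.mulHeight x ≤ X ∧ MvPolynomial.aeval x F = 0

/-- the points with `s` basis vectors, the longest one being the vector number `j0` -/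
def HasPtS (n m s : ℕ) (j0 : Fin s) (X : ℝ) (F : MvPolynomial (Fin (n + 1)) ℤ) : Prop :=
  ∃ (K : Type) (_ : Field K) (_ : NumberField K) (x : Fin (n + 1) → K) (α : Fin s → K)
    (b : Fin s → Fin (n + 1) → ℤ) (I : Fin s → Fin (n + 1)), x ≠ 0 ∧
    Module.finrank ℚ K = m ∧
    IntermediateField.adjoin ℚ {z : K | ∃ i j, z = x i / x j} = ⊤ ∧
    Height.mulHeight x ≤ X ∧ RD x α b I ∧ LinearIndependent ℚ α ∧
    (∀ k, nn (b k) ≤ nn (b j0)) ∧ MvPolynomial.aeval x F = 0

theorem HasPt.split {n m : ℕ} {X : ℝ} {F : MvPolynomial (Fin (n + 1)) ℤ} (h : HasPt n m X F) :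
    ∃ s ≤ m, ∃ j0 : Fin s, HasPtS n m s j0 X F := by
  obtain ⟨K, i1, i2, x, hx, hm, hgen, hH, hF⟩ := h
  obtain ⟨s, α, b, I, hRD, hli⟩ := exists_RD x
  have hs : s ≤ m := by
    rw [← hm]
    have := hli.fintype_card_le_finrank
    rwa [Fintype.card_fin] at this
  have hs0 : 0 < s := by
    rcases Nat.eq_zero_or_pos s with h | h
    · exfalso
      subst h
      apply hx
      funext i
      rw [hRD.hx]; simp
    · exact h
  obtain ⟨j0, -, hj0⟩ := Finset.exists_max_image (Finset.univ : Finset (Fin s))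
    (fun k => nn (b k)) ⟨⟨0, hs0⟩, Finset.mem_univ _⟩
  exact ⟨s, hs, j0, K, i1, i2, x, α, b, I, hx, hm, hgen, hH, hRD, hli,
    fun k => hj0 k (Finset.mem_univ _), hF⟩

theorem countS {n m d s : ℕ} (hd : n + 2 ≤ d) (hd2 : m ^ 2 + m ≤ d + 1) (hm : 1 ≤ m)
    (j0 : Fin s) {A : ℝ} (hA : 0 ≤ A) :
    ∃ C : ℝ, 0 ≤ C ∧ ∀ H : ℝ, 1 ≤ H →
      ((Sm (n + 1) d H ∩ {F | HasPtS n m s j0 (A * H) F}).ncard : ℝ) * H ^ m ≤
        C * H ^ Nm (n + 1) d := by
  classical
  have hm0 : (0 : ℝ) < m := by exact_mod_cast hm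
  set p : ℝ := 1 + 1 / (m : ℝ) ^ 2 with hp
  have hp1 : 1 < p := by rw [hp]; have : (0 : ℝ) < 1 / (m : ℝ) ^ 2 := by positivity
                         linarith
  obtain ⟨C, hC⟩ := BS_wI s n m hp1 j0
  have hsf : (0 : ℝ) < sf m := by exact_mod_cast sf_pos m
  have hApt : 0 ≤ Apt s m A := by
    have := CC_nonneg s
    unfold Apt; positivity
  have hCc : 0 ≤ Ccnt (n + 1) s m d (Apt s m A) := by
    have := Clift_nonneg (n + 1) s (Apt s m A) d
    unfold Ccnt; positivity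
  refine ⟨Ccnt (n + 1) s m d (Apt s m A) * C, mul_nonneg hCc hC.nonneg, fun H hH => ?_⟩
  have hH0 : 0 < H := by linarith
  set X : ℝ := Ccnt (n + 1) s m d (Apt s m A) * H ^ Nm (n + 1) d / H ^ m with hX
  have hX0 : 0 ≤ X := by rw [hX]; positivity
  have hfinSm := (Sm_aux (n + 1) d hH0.le).1
  have hmain := ncard_cover (S := Sm (n + 1) d H ∩ {F | HasPtS n m s j0 (A * H) F})
    (hfinSm.subset Set.inter_subset_left) (AA d H j0) (wI p j0) hC hX0 (by
    rintro F ⟨hFS, K, i1, i2, x, α, b, I, hx, hmK, hgen, hHt, hRD, hli, hj0, hF⟩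
    have hα : ∀ k, α k ≠ 0 := fun k => hli.ne_zero k
    have hf : ∀ k l, ∃ f : ℤ[X], f.IsPrimitive ∧ Irreducible (f.map (Int.castRingHom ℚ)) ∧
      aeval (α k / α l) f = 0 := fun k l => exists_prim _
    choose f hf1 hf2 hf3 using hf
    obtain ⟨σ⟩ : Nonempty (K →+* ℂ) := inferInstance
    have hdeg : ∀ k l, (f k l).natDegree ≤ m := by
      intro k l
      rw [← (natDegree_eq_finrank (hf2 k l) (hf3 k l)).1, ← hmK]
      have h := Module.finrank_mul_finrank ℚ (IntermediateField.adjoin ℚ {α k / α l}) K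
      rw [← h]
      exact Nat.le_mul_of_pos_right _ Module.finrank_pos
    set c : Fin s → Fin (m + 1) → ℤ := fun k => if k = j0 then 0 else
      fun l => (f k j0).coeff l with hc
    have hpol : ∀ k, k ≠ j0 → pol (c k) = f k j0 := by
      intro k hk
      ext r
      rw [coeff_pol]
      simp only [hc, if_neg hk]
      split_ifs with hr
      · rfl
      · rw [coeff_eq_zero_of_natDegree_lt]
        have := hdeg k j0
        omega
    have hroot : ∀ k, k ≠ j0 → ∃ ρ : Fin (m + 1),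
        ((pol (c k)).map (Int.castRingHom ℂ)).roots.toList.getD ρ 0 = σ (α k / α j0) := by
      intro k hk
      rw [hpol k hk]
      have h0 : (f k j0).map (Int.castRingHom ℂ) ≠ 0 := by
        rw [Ne, Polynomial.map_eq_zero_iff (RingHom.injective_int (Int.castRingHom ℂ))]
        exact (hf1 k j0).ne_zero
      have h1 : σ (α k / α j0) ∈ ((f k j0).map (Int.castRingHom ℂ)).roots.toList := by
        rw [Multiset.mem_toList, mem_roots h0, IsRoot, eval_map]
        have h2 : eval₂ (Int.castRingHom ℂ) (σ (α k / α j0)) (f k j0) =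
            σ (aeval (α k / α j0) (f k j0)) := by
          rw [aeval_def, hom_eval₂]
          congr 1
          exact RingHom.ext_int _ _
        rw [h2, hf3, map_zero]
      obtain ⟨r, hr, hrr⟩ := List.getElem_of_mem h1
      have h3 : r < m + 1 := by
        have h4 : r < ((f k j0).map (Int.castRingHom ℂ)).roots.card := by
          rw [← Multiset.length_toList]; exact hr
        have h5 := card_roots' ((f k j0).map (Int.castRingHom ℂ))
        have h6 := natDegree_map_le (f := Int.castRingHom ℂ) (p := f k j0)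
        have := hdeg k j0
        omega
      refine ⟨⟨r, h3⟩, ?_⟩
      rw [List.getD_eq_getElem _ _ hr]
      exact hrr
    have hρ : ∃ ρ : Fin s → Fin (m + 1), ∀ k, th j0 c ρ k = σ (α k / α j0) := by
      have h1 : ∀ k, ∃ ρ : Fin (m + 1), k ≠ j0 →
          ((pol (c k)).map (Int.castRingHom ℂ)).roots.toList.getD ρ 0 = σ (α k / α j0) := by
        intro k
        by_cases hk : k = j0
        · exact ⟨0, fun h => absurd hk h⟩
        · obtain ⟨ρ, hρ⟩ := hroot k hk
          exact ⟨ρ, fun _ => hρ⟩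
      choose ρ hρ using h1
      refine ⟨ρ, fun k => ?_⟩
      rw [th]
      split_ifs with hk
      · rw [hk, div_self (hα j0), map_one]
      · exact hρ k hk
    obtain ⟨ρ, hρ⟩ := hρ
    have hiff : ∀ G ∈ Sm (n + 1) d H,
        (MvPolynomial.aeval (fun t => ∑ k, (b k t : ℂ) * th j0 c ρ k) G = 0 ↔
          MvPolynomial.aeval x G = 0) := fun G hG =>
      aeval_transport hRD.hx j0 (hα j0) σ _ hρ hG.1
    have hset : AA d H j0 ((b, c, ρ) : Idx s n m) =
        Sm (n + 1) d H ∩ {G | MvPolynomial.aeval x G = 0} := by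
      ext G
      constructor
      · rintro ⟨hG, hG2⟩
        exact ⟨hG, (hiff G hG).1 hG2⟩
      · rintro ⟨hG, hG2⟩
        exact ⟨hG, (hiff G hG).2 hG2⟩
    refine ⟨(b, c, ρ), ?_, ?_, ?_⟩
    · rw [hset]; exact ⟨hFS, hF⟩
    · rw [hset]; exact hfinSm.subset Set.inter_subset_left
    rw [hset]
    have hpb := point_bound hmK hd hd2 hx hRD hli hgen f hf1 hf2 hf3 j0 hj0 hA hH hHt
    rw [← hp] at hpb
    have hb0 : ∀ k, b k ≠ 0 := by
      intro k h0
      have := hRD.one_le k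
      rw [h0] at this
      simp [nn] at this
    have hw1 : ∏ k, wB (b k) = ((∏ k, (nn (b k) : ℝ)) ^ (n + 2))⁻¹ := by
      rw [← Finset.prod_pow, ← Finset.prod_inv_distrib]
      refine Finset.prod_congr rfl fun k _ => ?_
      rw [wB, if_neg (hb0 k)]
    have hw2 : ∏ k, wJ p j0 k (c k) = (∏ k ∈ Finset.univ.erase j0, ∏ l : Fin (m + 1),
        (max 1 |((f k j0).coeff l : ℝ)|) ^ p)⁻¹ := by
      rw [← Finset.mul_prod_erase Finset.univ _ (Finset.mem_univ j0)]
      have h1 : wJ p j0 j0 (c j0) = 1 := by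
        rw [wJ, if_pos rfl, if_pos]
        simp [hc]
      rw [h1, one_mul, ← Finset.prod_inv_distrib]
      refine Finset.prod_congr rfl fun k hk => ?_
      have hk' := Finset.ne_of_mem_erase hk
      rw [wJ, if_neg hk', wC, ← Finset.prod_inv_distrib]
      refine Finset.prod_congr rfl fun l _ => ?_
      rw [Real.rpow_neg (le_trans zero_le_one (le_max_left _ _))]
      simp only [hc, if_neg hk']
    have hW : wI p j0 ((b, c, ρ) : Idx s n m) = ((∏ k, (nn (b k) : ℝ)) ^ (n + 2) *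
        ∏ k ∈ Finset.univ.erase j0, ∏ l : Fin (m + 1),
        (max 1 |((f k j0).coeff l : ℝ)|) ^ p)⁻¹ := by
      rw [wI]
      simp only
      rw [hw1, hw2, mul_one, mul_inv]
    rw [hW, hX]
    have hWpos : 0 < (∏ k, (nn (b k) : ℝ)) ^ (n + 2) *
        ∏ k ∈ Finset.univ.erase j0, ∏ l : Fin (m + 1),
        (max 1 |((f k j0).coeff l : ℝ)|) ^ p := by
      refine mul_pos (pow_pos (Finset.prod_pos fun k _ => ?_) _)
        (Finset.prod_pos fun k _ => Finset.prod_pos fun l _ => ?_)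
      · exact lt_of_lt_of_le one_pos (hRD.one_le k)
      · exact Real.rpow_pos_of_pos (lt_of_lt_of_le one_pos (le_max_left _ _)) _
    rw [← div_eq_mul_inv, div_div, le_div_iff₀ (mul_pos (pow_pos hH0 m) hWpos)]
    exact hpb)
  calc ((Sm (n + 1) d H ∩ {F | HasPtS n m s j0 (A * H) F}).ncard : ℝ) * H ^ m
      ≤ (X * C) * H ^ m := mul_le_mul_of_nonneg_right hmain (by positivity)
    _ = Ccnt (n + 1) s m d (Apt s m A) * C * H ^ Nm (n + 1) d := by
        rw [hX]; field_simp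

/-- **The upper bound.** -/
theorem count_upper {n m d : ℕ} (hd : n + 2 ≤ d) (hd2 : m ^ 2 + m ≤ d + 1) (hm : 1 ≤ m)
    {A : ℝ} (hA : 0 ≤ A) :
    ∃ C : ℝ, 0 ≤ C ∧ ∀ H : ℝ, 1 ≤ H →
      ((Sm (n + 1) d H ∩ {F | HasPt n m (A * H) F}).ncard : ℝ) * H ^ m ≤
        C * H ^ Nm (n + 1) d := by
  classical
  choose C hC0 hC using fun (s : ℕ) (j0 : Fin s) => countS (n := n) (m := m) (d := d) hd hd2 hm j0 hA
  refine ⟨∑ s ∈ Finset.range (m + 1), ∑ j0 : Fin s, C s j0,
    Finset.sum_nonneg fun s _ => Finset.sum_nonneg fun j0 _ => hC0 s j0, fun H hH => ?_⟩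
  have hH0 : 0 < H := by linarith
  have hfinSm := (Sm_aux (n + 1) d hH0.le).1
  have hsub : Sm (n + 1) d H ∩ {F | HasPt n m (A * H) F} ⊆
      ⋃ i ∈ ((Finset.range (m + 1)).sigma fun s => (Finset.univ : Finset (Fin s))),
        (Sm (n + 1) d H ∩ {F | HasPtS n m i.1 i.2 (A * H) F}) := by
    rintro F ⟨hFS, hF⟩
    obtain ⟨s, hs, j0, h⟩ := HasPt.split hF
    simp only [Set.mem_iUnion]
    exact ⟨⟨s, j0⟩, Finset.mem_sigma.2 ⟨Finset.mem_range.2 (Nat.lt_succ_of_le hs),
      Finset.mem_univ _⟩, hFS, h⟩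
  have h1 : (Sm (n + 1) d H ∩ {F | HasPt n m (A * H) F}).ncard ≤
      ∑ i ∈ ((Finset.range (m + 1)).sigma fun s => (Finset.univ : Finset (Fin s))),
        (Sm (n + 1) d H ∩ {F | HasPtS n m i.1 i.2 (A * H) F}).ncard := by
    refine (Set.ncard_le_ncard hsub ?_).trans (Finset.set_ncard_biUnion_le _ _)
    refine Set.Finite.biUnion (Finset.finite_toSet _) fun i _ =>
      hfinSm.subset Set.inter_subset_left
  calc ((Sm (n + 1) d H ∩ {F | HasPt n m (A * H) F}).ncard : ℝ) * H ^ m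
      ≤ (∑ i ∈ ((Finset.range (m + 1)).sigma fun s => (Finset.univ : Finset (Fin s))),
        ((Sm (n + 1) d H ∩ {F | HasPtS n m i.1 i.2 (A * H) F}).ncard : ℝ)) * H ^ m :=
        mul_le_mul_of_nonneg_right (by exact_mod_cast h1) (by positivity)
    _ ≤ ∑ i ∈ ((Finset.range (m + 1)).sigma fun s => (Finset.univ : Finset (Fin s))),
        C i.1 i.2 * H ^ Nm (n + 1) d := by
        rw [Finset.sum_mul]
        exact Finset.sum_le_sum fun i _ => hC i.1 i.2 H hH
    _ = (∑ s ∈ Finset.range (m + 1), ∑ j0 : Fin s, C s j0) * H ^ Nm (n + 1) d := by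
        rw [← Finset.sum_mul, Finset.sum_sigma]

end Pool.Agent.Helper54.BP
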