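import Pool.Agent.Helper54.BP.Pts
import Pool.Agent.Helper54.BP.Ineq

set_option autoImplicit false

/-!
# The number of forms vanishing at a point, with summable weights
-/

namespace Pool.Agent.Helper54.BP

open Polynomial

/-- the constant for the sizes of the data of a point -/
noncomputable def Apt (s m : ℕ) (A : ℝ) : ℝ := (2 ^ m * sf m + s.factorial) * CC s ^ m * A

theorem prod_le_of_pow {s m : ℕ} (hm : 1 ≤ m) (hsm : s ≤ m) {B : Fin s → ℝ} (hB : ∀ k, 1 ≤ B k) {X : ℝ}
    (hX : 1 ≤ X) (h : ∀ k, B k ^ m ≤ X) : ∏ k, B k ≤ X := by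
  have h1 : (∏ k, B k) ^ m ≤ X ^ m := by
    rw [← Finset.prod_pow]
    calc ∏ k, B k ^ m ≤ ∏ k : Fin s, X :=
          Finset.prod_le_prod (fun k _ => by have := hB k; positivity) (fun k _ => h k)
      _ = X ^ s := by rw [Finset.prod_const, Finset.card_univ, Fintype.card_fin]
      _ ≤ X ^ m := pow_le_pow_right₀ hX hsm
  exact (pow_le_pow_iff_left₀ (Finset.prod_nonneg fun k _ => by have := hB k; linarith)
    (by linarith) (by omega)).1 h1

theorem coeff_zero_ne {K : Type} [Field K] [NumberField K] {θ : K} (hθ : θ ≠ 0) {f : ℤ[X]}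
    (hirr : Irreducible (f.map (Int.castRingHom ℚ))) (hroot : aeval θ f = 0) : f.coeff 0 ≠ 0 := by
  intro h0
  have h1 := (natDegree_eq_finrank hirr hroot).2
  have h2 := congrArg (fun p => Polynomial.coeff p 0) h1
  simp only [coeff_map, h0, coeff_C_mul, map_zero] at h2
  have h3 := minpoly.coeff_zero_ne_zero (Algebra.IsIntegral.isIntegral (R := ℚ) θ) hθ
  have h4 : (f.leadingCoeff : ℚ) ≠ 0 := by
    have : f ≠ 0 := by rintro rfl; simp at hirr
    exact_mod_cast leadingCoeff_ne_zero.2 this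
  exact (mul_ne_zero h4 h3) h2.symm

theorem two_le_natDegree {K : Type} [Field K] [NumberField K] {s : ℕ} {α : Fin s → K}
    (hli : LinearIndependent ℚ α) {k l : Fin s} (hkl : k ≠ l) {f : ℤ[X]}
    (hirr : Irreducible (f.map (Int.castRingHom ℚ))) (hroot : aeval (α k / α l) f = 0) :
    2 ≤ f.natDegree := by
  have h1 := (natDegree_eq_finrank hirr hroot).1
  have h2 : 0 < Module.finrank ℚ (IntermediateField.adjoin ℚ {α k / α l}) := Module.finrank_pos
  by_contra h3
  have h4 : Module.finrank ℚ (IntermediateField.adjoin ℚ {α k / α l}) = 1 := by omega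
  rw [IntermediateField.finrank_adjoin_simple_eq_one_iff] at h4
  obtain ⟨q, hq⟩ := IntermediateField.mem_bot.1 h4
  have hl : α l ≠ 0 := hli.ne_zero l
  have h5 : α k = q • α l := by
    rw [Algebra.smul_def, hq]; field_simp
  have h6 := (linearIndependent_iff'.1 hli) Finset.univ
    (fun i => (if i = k then 1 else 0) - (if i = l then q else 0)) (by
      simp only [sub_smul, Finset.sum_sub_distrib, ite_smul, one_smul, zero_smul,
        Finset.sum_ite_eq', Finset.mem_univ, if_true]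
      rw [← h5, sub_self]) k (Finset.mem_univ _)
  rw [if_pos rfl, if_neg hkl] at h6
  norm_num at h6

theorem point_bound {K : Type} [Field K] [NumberField K] {n s m d : ℕ}
    (hm : Module.finrank ℚ K = m) (hd : n + 2 ≤ d) (hd2 : m ^ 2 + m ≤ d + 1)
    {x : Fin (n + 1) → K} (hx : x ≠ 0) {α : Fin s → K} {b : Fin s → Fin (n + 1) → ℤ}
    {I : Fin s → Fin (n + 1)} (hRD : RD x α b I) (hli : LinearIndependent ℚ α)
    (hgen : IntermediateField.adjoin ℚ {z : K | ∃ i j, z = x i / x j} = ⊤)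
    (f : Fin s → Fin s → ℤ[X]) (hf : ∀ k l, (f k l).IsPrimitive)
    (hirr : ∀ k l, Irreducible ((f k l).map (Int.castRingHom ℚ)))
    (hroot : ∀ k l, aeval (α k / α l) (f k l) = 0)
    (j0 : Fin s) (hj0 : ∀ k, nn (b k) ≤ nn (b j0))
    {A H : ℝ} (hA : 0 ≤ A) (hH : 1 ≤ H) (hT : Height.mulHeight x ≤ A * H) :
    ((Sm (n + 1) d H ∩ {F | MvPolynomial.aeval x F = 0}).ncard : ℝ) * (H ^ m *
      ((∏ k, (nn (b k) : ℝ)) ^ (n + 2) * ∏ k ∈ Finset.univ.erase j0, ∏ l : Fin (m + 1),
        (max 1 |((f k j0).coeff l : ℝ)|) ^ (1 + 1 / (m : ℝ) ^ 2))) ≤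
      Ccnt (n + 1) s m d (Apt s m A) * H ^ Nm (n + 1) d := by
  classical
  have hm1 : 1 ≤ m := by rw [← hm]; exact Module.finrank_pos
  have hα : ∀ k, α k ≠ 0 := fun k => hli.ne_zero k
  have hsm : s ≤ m := by
    rw [← hm]
    have := hli.fintype_card_le_finrank
    rwa [Fintype.card_fin] at this
  have hmd : m ≤ d := by nlinarith
  set B : Fin s → ℝ := fun k => (nn (b k) : ℝ) with hB
  have hB1 : ∀ k, 1 ≤ B k := fun k => hRD.one_le k
  have hB0 : ∀ k, 0 < B k := fun k => lt_of_lt_of_le one_pos (hB1 k)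
  have hT1 : ∀ k, B k ^ m ≤ CC s ^ m * Height.mulHeight x := by
    intro k
    have := hgt1 hx hRD k (hα k)
    rwa [hm] at this
  have hCT : 1 ≤ CC s ^ m * Height.mulHeight x := (one_le_pow₀ (hB1 j0)).trans (hT1 j0)
  have hprodB : ∏ k, B k ≤ CC s ^ m * Height.mulHeight x :=
    prod_le_of_pow hm1 hsm hB1 hCT hT1
  have hCC := CC_nonneg s
  have hsf : (0 : ℝ) < sf m := by exact_mod_cast sf_pos m
  have hfac : (0 : ℝ) < s.factorial := by exact_mod_cast Nat.factorial_pos s
  have hA' : 0 ≤ Apt s m A := by unfold Apt; positivity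
  have hCTA : CC s ^ m * Height.mulHeight x ≤ CC s ^ m * A * H := by
    rw [mul_assoc]
    exact mul_le_mul_of_nonneg_left hT (by positivity)
  have hCTA0 : 0 ≤ CC s ^ m * A * H := by positivity
  -- the determinant
  have hdt : (dt b I : ℝ) ≤ Apt s m A * H := by
    have h1 : dt b I ≤ s.factorial * ∏ k, (nn (b k) : ℤ) := by
      refine abs_det_le _ (fun k => (nn (b k) : ℤ)) fun k l => ?_
      exact abs_le_nn (b k) (I l)
    have h2 : (dt b I : ℝ) ≤ s.factorial * ∏ k, B k := by
      have h3 : ((dt b I : ℤ) : ℝ) ≤ ((s.factorial * ∏ k, (nn (b k) : ℤ) : ℤ) : ℝ) := by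
        exact_mod_cast h1
      rw [hB]
      push_cast at h3
      exact h3
    calc (dt b I : ℝ) ≤ s.factorial * ∏ k, B k := h2
      _ ≤ s.factorial * (CC s ^ m * A * H) :=
          mul_le_mul_of_nonneg_left (hprodB.trans hCTA) hfac.le
      _ ≤ (2 ^ m * sf m + s.factorial) * (CC s ^ m * A * H) := by
          refine mul_le_mul_of_nonneg_right ?_ hCTA0
          have : (0 : ℝ) ≤ 2 ^ m * sf m := by positivity
          linarith
      _ = Apt s m A * H := by unfold Apt; ring
  -- degrees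
  have hgcd : ∀ k l, ∃ g, 1 ≤ g ∧ (f k l).natDegree * g = m := by
    intro k l
    refine ⟨Module.finrank (IntermediateField.adjoin ℚ {α k / α l}) K, Module.finrank_pos, ?_⟩
    rw [← (natDegree_eq_finrank (hirr k l) (hroot k l)).1, ← hm]
    exact Module.finrank_mul_finrank ℚ _ K
  -- the maxima `Y`
  have hYex : ∀ k l, ∃ Y : ℝ, (∃ r ≤ (f k l).natDegree,
      Y = |((f k l).coeff r : ℝ)| * B l ^ r * B k ^ ((f k l).natDegree - r)) ∧
      ∀ r ≤ (f k l).natDegree,
        |((f k l).coeff r : ℝ)| * B l ^ r * B k ^ ((f k l).natDegree - r) ≤ Y := by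
    intro k l
    obtain ⟨r, hr, hmax⟩ := Finset.exists_max_image (Finset.range ((f k l).natDegree + 1))
      (fun r => |((f k l).coeff r : ℝ)| * B l ^ r * B k ^ ((f k l).natDegree - r))
      ⟨0, Finset.mem_range.2 (Nat.succ_pos _)⟩
    refine ⟨_, ⟨r, by rw [Finset.mem_range] at hr; omega, rfl⟩, fun r' hr' => ?_⟩
    exact hmax r' (Finset.mem_range.2 (by omega))
  choose Y hY1 hY2 using hYex
  have hYB : ∀ k l, B k ^ (f k l).natDegree ≤ Y k l := by
    intro k l
    have h1 := hY2 k l 0 (Nat.zero_le _)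
    rw [pow_zero, mul_one, Nat.sub_zero] at h1
    refine le_trans ?_ h1
    have h2 : (1 : ℝ) ≤ |((f k l).coeff 0 : ℝ)| := by
      have h3 := coeff_zero_ne (div_ne_zero (hα k) (hα l)) (hirr k l) (hroot k l)
      exact_mod_cast Int.one_le_abs h3
    exact le_mul_of_one_le_left (by have := hB0 k; positivity) h2
  have hY1' : ∀ k l, 1 ≤ Y k l := fun k l => (one_le_pow₀ (hB1 k)).trans (hYB k l)
  have hYH : ∀ k l, Y k l ≤ Apt s m A * H := by
    intro k l
    obtain ⟨g, hg1, hg⟩ := hgcd k l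
    obtain ⟨r, hr, hYr⟩ := hY1 k l
    have h1 := hgt2 hx hRD k l (hα l) (hf k l) (hirr k l) (hroot k l)
      (g := g) (by rw [hg, hm]) r hr
    rw [hm] at h1
    have h2 : Y k l ^ g ≤ 2 ^ m * sf m * CC s ^ m * Height.mulHeight x := by
      rw [hYr]; exact h1
    calc Y k l ≤ Y k l ^ g := le_self_pow₀ (hY1' k l) (by omega)
      _ ≤ 2 ^ m * sf m * CC s ^ m * Height.mulHeight x := h2
      _ = (2 ^ m * sf m) * (CC s ^ m * Height.mulHeight x) := by ring
      _ ≤ (2 ^ m * sf m) * (CC s ^ m * A * H) :=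
          mul_le_mul_of_nonneg_left hCTA (by positivity)
      _ ≤ (2 ^ m * sf m + s.factorial) * (CC s ^ m * A * H) := by
          refine mul_le_mul_of_nonneg_right ?_ hCTA0
          linarith
      _ = Apt s m A * H := by unfold Apt; ring
  have he1 : ∀ k l, 1 ≤ (f k l).natDegree := by
    intro k l
    obtain ⟨g, hg1, hg⟩ := hgcd k l
    by_contra h
    have : (f k l).natDegree = 0 := by omega
    rw [this, zero_mul] at hg
    omega
  -- the optimal pair
  set val : Fin s × Fin s → ℝ := fun p => Real.log (Y p.1 p.2) / ((f p.1 p.2).natDegree : ℝ)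
    with hval
  set S : Finset (Fin s × Fin s) := Finset.univ.filter fun p => m = 1 ∨ p.1 ≠ p.2 with hS
  have hother : ∀ k : Fin s, ∃ l, m = 1 ∨ k ≠ l := by
    intro k
    by_cases h1 : m = 1
    · exact ⟨k, Or.inl h1⟩
    by_contra h2
    push Not at h2
    have h3 : ∀ l, k = l := fun l => (h2 l).2
    -- then the field is `ℚ`
    have h4 := hRD.adjoin hgen k (hα k)
    have h5 : (Set.range fun l => α l / α k) ⊆ {1} := by
      rintro _ ⟨l, rfl⟩
      rw [← h3 l]
      simp only [Set.mem_singleton_iff]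
      exact div_self (hα k)
    have h6 : IntermediateField.adjoin ℚ (Set.range fun l => α l / α k) ≤ ⊥ := by
      rw [IntermediateField.adjoin_le_iff]
      intro z hz
      rw [Set.mem_singleton_iff.1 (h5 hz)]
      exact one_mem _
    rw [h4, top_le_iff] at h6
    have h7 : Module.finrank ℚ (⊤ : IntermediateField ℚ K) = 1 := by
      rw [← h6]; exact IntermediateField.finrank_bot
    rw [IntermediateField.finrank_top'] at h7
    omega
  have hSne : S.Nonempty := by
    obtain ⟨l, hl⟩ := hother j0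
    exact ⟨(j0, l), by rw [hS, Finset.mem_filter]; exact ⟨Finset.mem_univ _, hl⟩⟩
  obtain ⟨⟨i, j⟩, hij, hmax⟩ := Finset.exists_max_image S val hSne
  set η := val (i, j) with hη
  have hij' : m = 1 ∨ i ≠ j := (Finset.mem_filter.1 hij).2
  set e := (f i j).natDegree with he
  have heR : (0 : ℝ) < e := by exact_mod_cast he1 i j
  have hYη : Real.log (Y i j) = e * η := by
    have h1 : val (i, j) = Real.log (Y i j) / (e : ℝ) := rfl
    rw [hη, h1]; field_simp
  set β : Fin s → ℝ := fun k => Real.log (B k) with hβ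
  have hβ0 : ∀ k, 0 ≤ β k := fun k => Real.log_nonneg (hB1 k)
  have hlogY : ∀ k l, (m = 1 ∨ k ≠ l) → Real.log (Y k l) ≤ (f k l).natDegree * η := by
    intro k l hkl
    have h1 := hmax (k, l) (by rw [hS, Finset.mem_filter]; exact ⟨Finset.mem_univ _, hkl⟩)
    have h2 : (0 : ℝ) < (f k l).natDegree := by exact_mod_cast he1 k l
    rw [hval] at h1
    simp only at h1
    rw [div_le_iff₀ h2] at h1
    rw [mul_comm]; exact h1
  have hβη : ∀ k, β k ≤ η := by
    intro k
    obtain ⟨l, hl⟩ := hother k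
    have h1 := hlogY k l hl
    have h2 : Real.log (B k ^ (f k l).natDegree) ≤ Real.log (Y k l) :=
      Real.log_le_log (by have := hB0 k; positivity) (hYB k l)
    rw [Real.log_pow] at h2
    have h3 : (0 : ℝ) < (f k l).natDegree := by exact_mod_cast he1 k l
    exact le_of_mul_le_mul_left (h2.trans h1) h3
  -- the weights
  set ω : Fin s → Fin (m + 1) → ℝ := fun k l => Real.log (max 1 |((f k j0).coeff l : ℝ)|) with hω
  have hωle : ∀ k, k ≠ j0 → ∀ l, ω k l ≤
      ((l : ℕ) : ℝ) * (η - β j0) + ((m : ℝ) - (l : ℕ)) * (η - β k) := by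
    intro k hk l
    have hlm : ((l : ℕ) : ℝ) ≤ m := by
      have := l.2
      exact_mod_cast (by omega : (l : ℕ) ≤ m)
    have hA1 : 0 ≤ η - β j0 := sub_nonneg.2 (hβη j0)
    have hA2 : 0 ≤ η - β k := sub_nonneg.2 (hβη k)
    have hl0 : (0 : ℝ) ≤ (l : ℕ) := Nat.cast_nonneg _
    rcases le_or_gt |((f k j0).coeff l : ℝ)| 1 with h1 | h1
    · simp only [hω]
      rw [max_eq_left h1, Real.log_one]
      have := mul_nonneg hl0 hA1
      have := mul_nonneg (sub_nonneg.2 hlm) hA2
      linarith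
    · simp only [hω]
      rw [max_eq_right h1.le]
      have hle : (l : ℕ) ≤ (f k j0).natDegree := by
        by_contra h2
        rw [coeff_eq_zero_of_natDegree_lt (by omega)] at h1
        norm_num at h1
      have h2 := hY2 k j0 l hle
      have hc0 : (0 : ℝ) < |((f k j0).coeff l : ℝ)| := by linarith
      have h3 := Real.log_le_log (by have := hB0 k; have := hB0 j0; positivity) h2
      rw [Real.log_mul (by have := hB0 j0; positivity) (by have := hB0 k; positivity),
        Real.log_mul hc0.ne' (by have := hB0 j0; positivity), Real.log_pow, Real.log_pow] at h3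
      have h4 := hlogY k j0 (Or.inr hk)
      have h5 : (((f k j0).natDegree - (l : ℕ) : ℕ) : ℝ) = (f k j0).natDegree - (l : ℕ) := by
        push_cast [Nat.cast_sub hle]; ring
      rw [h5] at h3
      have h6 : ((f k j0).natDegree : ℝ) ≤ m := by
        obtain ⟨g, hg1, hg⟩ := hgcd k j0
        have : (f k j0).natDegree ≤ m := by rw [← hg]; exact Nat.le_mul_of_pos_right _ hg1
        exact_mod_cast this
      have h7 : ((f k j0).natDegree : ℝ) * (η - β k) ≤ m * (η - β k) :=
        mul_le_mul_of_nonneg_right h6 hA2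
      have h8 : Real.log |((f k j0).coeff l : ℝ)| + (l : ℕ) * β j0 +
          ((f k j0).natDegree - (l : ℕ)) * β k ≤ (f k j0).natDegree * η := h3.trans h4
      linarith
  -- the counting result
  obtain ⟨g, a, heg, ha, hcount⟩ := count_point hm hmd hRD i j (hα j)
    (hRD.adjoin hgen j (hα j)) (hf i j) (hirr i j) (hroot i j) hA' hH
    (lt_of_lt_of_le one_pos (hY1' i j)) (hYH i j) hdt (by
      obtain ⟨r, hr, hYr⟩ := hY1 i j
      exact ⟨r, hr, hYr.le⟩)
  have hβj0 : ∀ k, β k ≤ β j0 := fun k =>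
    Real.log_le_log (hB0 k) (Nat.cast_le.2 (hj0 k))
  have hmain := weight_core hsm hd hd2 β η hβ0 hβη j0 hβj0 i j e g heg
    (hij'.imp_right fun h => ⟨two_le_natDegree hli h (hirr i j) (hroot i j), h⟩) a ha ω hωle
  -- compare the products
  refine le_trans (mul_le_mul_of_nonneg_left ?_ (Nat.cast_nonneg _)) hcount
  have hH0 : 0 < H := by linarith
  have hW0 : ∀ t, 0 < wt b (a t) := fun t => lt_of_lt_of_le one_pos (hRD.one_le_wt _)
  have hYp : 0 < Y i j := lt_of_lt_of_le one_pos (hY1' i j)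
  have hsplit : ∏ t, ((H * wt b (a t)) ^ e * Y i j ^ (d - ∑ k, a t k - e + 1) *
      ((nn (b i) : ℝ) * nn (b j)) ^ e.choose 2) = H ^ m *
      ∏ t, (wt b (a t) ^ e * Y i j ^ (d - ∑ k, a t k - e + 1) *
      (B i * B j) ^ e.choose 2) := by
    have h1 : ∀ t, (H * wt b (a t)) ^ e * Y i j ^ (d - ∑ k, a t k - e + 1) *
      ((nn (b i) : ℝ) * nn (b j)) ^ e.choose 2 = H ^ e *
      (wt b (a t) ^ e * Y i j ^ (d - ∑ k, a t k - e + 1) *
      (B i * B j) ^ e.choose 2) := by
      intro t
      rw [mul_pow]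
      simp only [hB]
      ring
    simp only [h1]
    rw [Finset.prod_mul_distrib, Finset.prod_const, Finset.card_univ, Fintype.card_fin,
      ← pow_mul, heg]
  rw [hsplit]
  refine mul_le_mul_of_nonneg_left ?_ (by positivity)
  -- logarithms
  have hp0 : ∀ k, ∀ l : Fin (m + 1), (0 : ℝ) <
      (max 1 |((f k j0).coeff l : ℝ)|) ^ (1 + 1 / (m : ℝ) ^ 2) := fun k l =>
    Real.rpow_pos_of_pos (lt_of_lt_of_le one_pos (le_max_left _ _)) _
  have hPB : 0 < ∏ k, (nn (b k) : ℝ) := Finset.prod_pos fun k _ => hB0 k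
  have hleft : 0 < (∏ k, (nn (b k) : ℝ)) ^ (n + 2) * ∏ k ∈ Finset.univ.erase j0,
      ∏ l : Fin (m + 1), (max 1 |((f k j0).coeff l : ℝ)|) ^ (1 + 1 / (m : ℝ) ^ 2) :=
    mul_pos (pow_pos hPB _) (Finset.prod_pos fun k _ => Finset.prod_pos fun l _ => hp0 k l)
  have hterm : ∀ t, 0 < wt b (a t) ^ e * Y i j ^ (d - ∑ k, a t k - e + 1) *
      (B i * B j) ^ e.choose 2 := by
    intro t
    have := hW0 t
    have := hB0 i
    have := hB0 j
    positivity
  rw [← Real.log_le_log_iff hleft (Finset.prod_pos fun t _ => hterm t)]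
  rw [Real.log_mul (pow_pos hPB _).ne' (Finset.prod_pos fun k _ => Finset.prod_pos fun l _ =>
    hp0 k l).ne', Real.log_pow, Real.log_prod (fun k _ => (hB0 k).ne'),
    Real.log_prod (fun k _ => (Finset.prod_pos fun l _ => hp0 k l).ne'),
    Real.log_prod (fun t _ => (hterm t).ne')]
  have h1 : ∀ k ∈ Finset.univ.erase j0, Real.log (∏ l : Fin (m + 1),
      (max 1 |((f k j0).coeff l : ℝ)|) ^ (1 + 1 / (m : ℝ) ^ 2)) =
      (1 + 1 / (m : ℝ) ^ 2) * ∑ l, ω k l := by
    intro k _
    rw [Real.log_prod (fun l _ => (hp0 k l).ne'), Finset.mul_sum]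
    refine Finset.sum_congr rfl fun l _ => ?_
    rw [Real.log_rpow (lt_of_lt_of_le one_pos (le_max_left _ _))]
  rw [Finset.sum_congr rfl h1, ← Finset.mul_sum]
  have h2 : ∀ t, Real.log (wt b (a t) ^ e * Y i j ^ (d - ∑ k, a t k - e + 1) *
      (B i * B j) ^ e.choose 2) = (e : ℝ) * (∑ k, (a t k : ℝ) * β k) +
      ((d - ∑ k, a t k - e + 1 : ℕ) : ℝ) * (e * η) + (e.choose 2 : ℝ) * (β i + β j) := by
    intro t
    have hi := hB0 i
    have hj := hB0 j
    have hwt := hW0 t
    rw [Real.log_mul (by positivity) (by positivity), Real.log_mul (by positivity) (by positivity),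
      Real.log_pow, Real.log_pow, Real.log_pow, Real.log_mul hi.ne' hj.ne', hYη]
    have h3 : Real.log (wt b (a t)) = ∑ k, (a t k : ℝ) * β k := by
      rw [wt, Real.log_prod (fun k _ => (pow_pos (hB0 k) _).ne')]
      refine Finset.sum_congr rfl fun k _ => ?_
      rw [Real.log_pow]
    rw [h3]
  rw [Finset.sum_congr rfl fun t _ => h2 t]
  have h3 : ((n + 2 : ℕ) : ℝ) = n + 2 := by push_cast; ring
  rw [h3]
  exact hmain

end Pool.Agent.Helper54.BP
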